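import Pool.Agent.Helper183.Gar.Defs
set_option autoImplicit false
open MeasureTheory Set
open scoped Real ComplexConjugate

namespace Gardner
noncomputable section

/-- conjugation or identity -/
def cj (c : Bool) (x : ℂ) : ℂ := if c then conj x else x

/-- first row function -/
def rowA (a : ℕ) : ℝ := Int.fract (a * √2)
/-- second row function -/
def rowB (b : ℕ) : ℝ := Int.fract (b * √3)
/-- heights of the positions: up the second row, along the first, back down the second -/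
def ypos (n i k : ℕ) : ℝ :=
  rowA (min (k - i) n) + rowB (if k ≤ i + n then min k i else 2 * i + n - k)
/-- cot(1/2) -/
def kap : ℝ := Real.cos (1/2) / Real.sin (1/2)
/-- positions in the plane -/
def xpos (n i k : ℕ) : ℂ := (kap * ypos n i (2 * i + n) : ℝ) + (ypos n i k : ℝ) * Complex.I

/-- the conclusion of the walls lemma -/
def WallProp (N : ℕ) (η : ℝ) (W : Set ℝ) (δ : ℝ) : Prop :=
  ∀ (a : ℝ) (q : Fin N → ℝ → E) (ξ : Fin N → ℂ),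
    (∀ i, ∃ u v : E, ‖u‖ = 1 ∧ ∀ t, q i t = v + t • u) →
    ∃ z : ℝ, a + δ ≤ z ∧ z + δ ≤ a + η ∧ Icc (z - δ) (z + δ) ⊆ W ∧
      ∀ i, ∀ t ∈ Icc (z - δ) (z + δ), ∀ p : E, dist p (q i t) ≤ δ →
        zc p ∈ W ∨ ‖cx p - ξ i‖ ∈ W ∨ 1 ≤ ‖cx p - ξ i‖

/-- the parameters of the construction -/
structure Par where
  n : ℕ → ℕ
  i : ℕ → ℕ
  q : ℕ → ℕ
  η : ℕ → ℝ
  δ : ℕ → ℝ
  ρ : ℕ → ℝ
  W : ℕ → Set ℝ
  two_le_n : ∀ j, 2 ≤ n j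
  rep : ∀ n' i' q' J : ℕ, 2 ≤ n' → ∃ j, J ≤ j ∧ n j = n' ∧ i j = i' ∧ q j = q'
  η_pos : ∀ j, 0 < η j
  η_le : ∀ j : ℕ, η j ≤ 1 / (j + 1)
  δ_pos : ∀ j, 0 < δ j
  ρ_pos : ∀ j, 0 < ρ j
  ρ_le_δ : ∀ j, ρ j ≤ δ j
  ρ_le_η : ∀ j, ρ j ≤ η j
  sep : ∀ j k l : ℕ, k ≤ 2 * i j + n j → l ≤ 2 * i j + n j → k ≠ l →
    2 * ρ j < |ypos (n j) (i j) k - ypos (n j) (i j) l|
  W_meas : ∀ j, MeasurableSet (W j)
  dens : ∀ j j' : ℕ, j < j' → ∀ a b : ℝ, ρ j ≤ b - a →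
    volume (W j' ∩ Icc a b) ≤ ENNReal.ofReal ((1/2 : ℝ) ^ (j' + 3) * (b - a))
  small : ∀ j j' : ℕ, j < j' →
    4 * (j' : ℝ) * ((2 * i j' + n j' : ℕ) + 1) * η j' ≤ (1/2 : ℝ) ^ (j' + 3) * ρ j
  walls : ∀ j : ℕ, WallProp
    (j * (2 * i j + n j + 1) * ∑ j' ∈ Finset.range j, (2 * i j' + n j' + 1)) (η j) (W j) (δ j)

namespace Par
variable (P : Par)

/-- last level -/
def h (j : ℕ) : ℕ := 2 * P.i j + P.n j
/-- positions -/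
def x (j k : ℕ) : ℂ := xpos (P.n j) (P.i j) k
/-- base height -/
def ζ (j : ℕ) : ℝ := 1 / ((P.q j : ℝ) + 1)
/-- heights of stage `j` -/
def Z (j : ℕ) : Set ℝ := {z | P.ζ j ≤ z ∧ z ≤ P.ζ j + P.η j ∧ z ∈ P.W j ∧ ∀ j' : ℕ, j < j' → z ∉ P.W j'}
/-- radii of stage `j` -/
def R (j : ℕ) : Set ℝ := {r | 0 < r ∧ r < P.ρ j ∧ ∀ j' : ℕ, j < j' → r ∉ P.W j'}
/-- good directions -/
def GoodV (v : ℂ) : Prop := ∀ m : ℤ, v ^ 2 ≠ (‖v‖ : ℂ) ^ 2 * Complex.exp (m * Complex.I)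
/-- level `k` of stage `j` -/
def cell (j k : ℕ) : Set E :=
  {p | zc p ∈ P.Z j ∧ ‖cx p - P.x j k‖ ∈ P.R j ∧ GoodV (cx p - P.x j k) ∧
    (k = 0 → 0 < (cx p - P.x j k).im) ∧
    (k = P.h j → 0 < (Complex.exp (-(Complex.I / 2)) * (cx p - P.x j k)).im)}
/-- even levels -/
def A : Set E := {p | ∃ j k : ℕ, k ≤ P.h j ∧ Even k ∧ p ∈ P.cell j k}
/-- odd levels -/
def B : Set E := {p | ∃ j k : ℕ, k ≤ P.h j ∧ Odd k ∧ p ∈ P.cell j k}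
end Par

end
end Gardner
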