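import Pool.Agent.Helper183.Gar.Defs
import Pool.Agent.Helper183.Gar.Sets

set_option autoImplicit false
open MeasureTheory Set
open scoped Real ComplexConjugate

namespace Gardner
noncomputable section

namespace Par
variable (P : Par)

end Par


lemma ab_dist_zero_le (p : E) : dist p 0 ≤ ‖cx p‖ + |zc p| := by
  have h := dist_sq p 0
  have h1 : cx (0 : E) = 0 := by apply Complex.ext <;> simp [cx]
  have h2 : zc (0 : E) = 0 := by simp [zc]
  rw [h1, h2, sub_zero, sub_zero] at h
  apply le_of_sq_le_sq _ (by positivity)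
  rw [h]
  nlinarith [norm_nonneg (cx p), abs_nonneg (zc p), sq_abs (zc p),
    mul_nonneg (norm_nonneg (cx p)) (abs_nonneg (zc p))]

lemma ab_cell_sub (P : Par) (hy : ∀ n i k : ℕ, |ypos n i k| ≤ 2) (j k : ℕ) :
    P.cell j k ⊆ Metric.closedBall (0 : E) (2 * |kap| + 5) := by
  rintro p ⟨⟨hz1, hz2, -, -⟩, ⟨hr1, hr2, -⟩, -, -, -⟩
  rw [Metric.mem_closedBall]
  refine (ab_dist_zero_le p).trans ?_
  have hη : P.η j ≤ 1 := by
    refine (P.η_le j).trans ?_
    rw [div_le_one (by positivity)]
    have : (0 : ℝ) ≤ j := Nat.cast_nonneg j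
    linarith
  have hρ : P.ρ j ≤ 1 := (P.ρ_le_η j).trans hη
  have hζ : P.ζ j ≤ 1 := by
    unfold Par.ζ
    rw [div_le_one (by positivity)]
    have : (0 : ℝ) ≤ P.q j := Nat.cast_nonneg _
    linarith
  have hζ0 : 0 ≤ P.ζ j := by unfold Par.ζ; positivity
  have hzc : |zc p| ≤ 2 := by
    rw [abs_le]; constructor <;> linarith
  have hx : ‖P.x j k‖ ≤ 2 * |kap| + 2 := by
    unfold Par.x xpos
    refine (norm_add_le _ _).trans ?_
    rw [norm_mul, Complex.norm_I, mul_one, Complex.norm_real, Complex.norm_real, Real.norm_eq_abs,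
      Real.norm_eq_abs, abs_mul]
    have h1 := hy (P.n j) (P.i j) (2 * P.i j + P.n j)
    have h2 := hy (P.n j) (P.i j) k
    nlinarith [abs_nonneg kap]
  have hcx : ‖cx p‖ ≤ ‖cx p - P.x j k‖ + ‖P.x j k‖ := by
    have : cx p = (cx p - P.x j k) + P.x j k := by ring
    calc ‖cx p‖ = ‖(cx p - P.x j k) + P.x j k‖ := by rw [← this]
      _ ≤ _ := norm_add_le _ _
  linarith

lemma ab_meas_Z (P : Par) (j : ℕ) : MeasurableSet (P.Z j) := by
  have : P.Z j = (Ici (P.ζ j)) ∩ ((Iic (P.ζ j + P.η j)) ∩ (P.W j ∩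
      ⋂ (j' : ℕ) (_ : j < j'), (P.W j')ᶜ)) := by
    ext z
    simp [Par.Z]
  rw [this]
  exact measurableSet_Ici.inter (measurableSet_Iic.inter ((P.W_meas j).inter
    (MeasurableSet.iInter fun j' => MeasurableSet.iInter fun _ => (P.W_meas j').compl)))

lemma ab_meas_R (P : Par) (j : ℕ) : MeasurableSet (P.R j) := by
  have : P.R j = (Ioi 0) ∩ ((Iio (P.ρ j)) ∩ 
      ⋂ (j' : ℕ) (_ : j < j'), (P.W j')ᶜ) := by
    ext z
    simp [Par.R]
  rw [this]
  exact measurableSet_Ioi.inter (measurableSet_Iio.inter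
    (MeasurableSet.iInter fun j' => MeasurableSet.iInter fun _ => (P.W_meas j').compl))

lemma ab_meas_GoodV : MeasurableSet {v : ℂ | Par.GoodV v} := by
  have : {v : ℂ | Par.GoodV v} =
      ⋂ m : ℤ, {v : ℂ | v ^ 2 = (‖v‖ : ℂ) ^ 2 * Complex.exp (m * Complex.I)}ᶜ := by
    ext v
    simp [Par.GoodV]
  rw [this]
  refine MeasurableSet.iInter fun m => MeasurableSet.compl ?_
  apply IsClosed.measurableSet
  exact isClosed_eq (by fun_prop) (by fun_prop)

lemma ab_meas_cell (P : Par) (j k : ℕ) : MeasurableSet (P.cell j k) := by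
  have hc : Continuous (fun p : E => cx p - P.x j k) := continuous_cx.sub continuous_const
  have h1 : MeasurableSet {p : E | zc p ∈ P.Z j} := continuous_zc.measurable (ab_meas_Z P j)
  have h2 : MeasurableSet {p : E | ‖cx p - P.x j k‖ ∈ P.R j} :=
    hc.norm.measurable (ab_meas_R P j)
  have h3 : MeasurableSet {p : E | Par.GoodV (cx p - P.x j k)} := hc.measurable ab_meas_GoodV
  have h4 : MeasurableSet {p : E | k = 0 → 0 < (cx p - P.x j k).im} := by
    by_cases hk : k = 0
    · simp only [hk, true_imp_iff]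
      exact (isOpen_lt continuous_const (Complex.continuous_im.comp
        (continuous_cx.sub continuous_const))).measurableSet
    · simp only [hk, false_imp_iff]
      exact MeasurableSet.univ
  have h5 : MeasurableSet {p : E | k = P.h j →
      0 < (Complex.exp (-(Complex.I / 2)) * (cx p - P.x j k)).im} := by
    by_cases hk : k = P.h j
    · have : {p : E | k = P.h j → 0 < (Complex.exp (-(Complex.I / 2)) * (cx p - P.x j k)).im} =
          {p : E | 0 < (Complex.exp (-(Complex.I / 2)) * (cx p - P.x j k)).im} := by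
        ext p
        exact ⟨fun h => h hk, fun h _ => h⟩
      rw [this]
      exact (isOpen_lt continuous_const (Complex.continuous_im.comp
        (continuous_const.mul hc))).measurableSet
    · have : {p : E | k = P.h j → 0 < (Complex.exp (-(Complex.I / 2)) * (cx p - P.x j k)).im} =
          univ := by
        ext p
        exact ⟨fun h => mem_univ _, fun _ h => absurd h hk⟩
      rw [this]
      exact MeasurableSet.univ
  exact h1.inter (h2.inter (h3.inter (h4.inter h5)))

theorem bounded_A (P : Par) (hy : ∀ n i k : ℕ, |ypos n i k| ≤ 2) : Bornology.IsBounded P.A := by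
  refine Metric.isBounded_closedBall.subset (?_ : P.A ⊆ Metric.closedBall (0 : E) (2 * |kap| + 5))
  rintro p ⟨j, k, -, -, hp⟩
  exact ab_cell_sub P hy j k hp
theorem bounded_B (P : Par) (hy : ∀ n i k : ℕ, |ypos n i k| ≤ 2) : Bornology.IsBounded P.B := by
  refine Metric.isBounded_closedBall.subset (?_ : P.B ⊆ Metric.closedBall (0 : E) (2 * |kap| + 5))
  rintro p ⟨j, k, -, -, hp⟩
  exact ab_cell_sub P hy j k hp
theorem meas_A (P : Par) : MeasurableSet P.A := by
  have : P.A = ⋃ (j : ℕ) (k : ℕ) (_ : k ≤ P.h j) (_ : Even k), P.cell j k := by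
    ext p
    simp only [Par.A, mem_iUnion, exists_prop]
    rfl
  rw [this]
  exact MeasurableSet.iUnion fun j => MeasurableSet.iUnion fun k => MeasurableSet.iUnion fun _ =>
    MeasurableSet.iUnion fun _ => ab_meas_cell P j k
theorem meas_B (P : Par) : MeasurableSet P.B := by
  have : P.B = ⋃ (j : ℕ) (k : ℕ) (_ : k ≤ P.h j) (_ : Odd k), P.cell j k := by
    ext p
    simp only [Par.B, mem_iUnion, exists_prop]
    rfl
  rw [this]
  exact MeasurableSet.iUnion fun j => MeasurableSet.iUnion fun k => MeasurableSet.iUnion fun _ =>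
    MeasurableSet.iUnion fun _ => ab_meas_cell P j k

end
end Gardner

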