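import Mathlib
set_option autoImplicit false
open MeasureTheory Set
open scoped Real

namespace Gardner
noncomputable section

/-- Euclidean three-space. -/
abbrev E := EuclideanSpace ℝ (Fin 3)

/-- the point with horizontal part `x` and height `z` -/
def mk (x : ℂ) (z : ℝ) : E := !₂[x.re, x.im, z]
/-- complex coordinate -/
def cx (p : E) : ℂ := ⟨p 0, p 1⟩
/-- height -/
def zc (p : E) : ℝ := p 2

@[simp] lemma cx_mk (x : ℂ) (z : ℝ) : cx (mk x z) = x := by
  apply Complex.ext <;> simp [cx, mk]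
@[simp] lemma zc_mk (x : ℂ) (z : ℝ) : zc (mk x z) = z := by
  simp [zc, mk]
@[simp] lemma mk_cx_zc (p : E) : mk (cx p) (zc p) = p := by
  ext i; fin_cases i <;> simp [cx, mk, zc]

lemma dist_sq (p q : E) : dist p q ^ 2 = ‖cx p - cx q‖ ^ 2 + (zc p - zc q) ^ 2 := by
  rw [EuclideanSpace.dist_eq, Real.sq_sqrt (by positivity), Fin.sum_univ_three, ← Complex.normSq_eq_norm_sq, Complex.normSq_apply]
  simp [cx, zc, Real.dist_eq, sq_abs]
  ring

lemma mk_inj {x y : ℂ} {z w : ℝ} (h : mk x z = mk y w) : x = y ∧ z = w := by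
  constructor
  · rw [← cx_mk x z, h, cx_mk]
  · rw [← zc_mk x z, h, zc_mk]

lemma ext_E {p q : E} (h1 : cx p = cx q) (h2 : zc p = zc q) : p = q := by
  rw [← mk_cx_zc p, ← mk_cx_zc q, h1, h2]

lemma norm_cx_le (p q : E) : ‖cx p - cx q‖ ≤ dist p q := by
  apply le_of_sq_le_sq _ dist_nonneg
  rw [dist_sq]; nlinarith [sq_nonneg (zc p - zc q)]

lemma abs_zc_le (p q : E) : |zc p - zc q| ≤ dist p q := by
  apply le_of_sq_le_sq _ dist_nonneg
  rw [dist_sq, sq_abs]; nlinarith [sq_nonneg ‖cx p - cx q‖]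

lemma dist_mk_same_z (x y : ℂ) (z : ℝ) : dist (mk x z) (mk y z) = ‖x - y‖ := by
  have h := dist_sq (mk x z) (mk y z)
  simp at h
  exact h

lemma dist_mk_same_x (x : ℂ) (z w : ℝ) : dist (mk x z) (mk x w) = |z - w| := by
  have h := dist_sq (mk x z) (mk x w)
  simp at h
  rw [← abs_of_nonneg (dist_nonneg (x := mk x z) (y := mk x w))]
  exact (sq_eq_sq_iff_abs_eq_abs _ _).1 h

lemma continuous_cx : Continuous cx := by
  have : cx = fun p : E => (p 0 : ℂ) + (p 1 : ℂ) * Complex.I := by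
    funext p; apply Complex.ext <;> simp [cx]
  rw [this]; fun_prop

lemma continuous_zc : Continuous zc := by
  unfold zc; fun_prop

/-- angles -/
abbrev Ang := AddCircle (2 * π)
instance : Fact (0 < 2 * π) := ⟨by positivity⟩
/-- one radian -/
def one : Ang := ((1 : ℝ) : Ang)
/-- the unit complex number with angle `θ` -/
def e (θ : Ang) : ℂ := ((AddCircle.toCircle θ : Circle) : ℂ)

/-- an angle is good if no reflection generated by `θ ↦ -θ`, `θ ↦ one - θ` fixes it -/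
def Good (θ : Ang) : Prop := ∀ m : ℤ, θ + θ ≠ m • one

/-- the points of one fibre: levels `0..h` and a good angle; only half of the angles at the two end levels -/
def FP (h : ℕ) (H0 H1 : Set Ang) : Set (ℕ × Ang) :=
  {p | p.1 ≤ h ∧ Good p.2 ∧ (p.1 = 0 → p.2 ∈ H0) ∧ (p.1 = h → p.2 ∈ H1)}

/-- neighbours on a folded line -/
def Adj (h : ℕ) (p q : ℕ × Ang) : Prop :=
  (q.1 = p.1 + 1 ∨ p.1 = q.1 + 1) ∧
  (q.2 = p.2 ∨ ((p.1 = 0 ∨ q.1 = 0) ∧ q.2 = -p.2) ∨ ((p.1 = h ∨ q.1 = h) ∧ q.2 = one - p.2))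

end
end Gardner
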