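import Pool.Agent.Helper183.Gar.Mean
import Pool.Agent.Helper183.Gar.Sets
set_option autoImplicit false
open MeasureTheory Set
open scoped Real ComplexConjugate

namespace Gardner
noncomputable section

lemma cj_cj (c d : Bool) (x : ℂ) : cj c (cj d x) = cj (xor c d) x := by
  cases c <;> cases d <;> simp [cj]
lemma cj_self (c : Bool) (x : ℂ) : cj c (cj c x) = x := by cases c <;> simp [cj]
lemma cj_add (c : Bool) (x y : ℂ) : cj c (x + y) = cj c x + cj c y := by cases c <;> simp [cj]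
lemma cj_sub (c : Bool) (x y : ℂ) : cj c (x - y) = cj c x - cj c y := by cases c <;> simp [cj]
lemma cj_mul (c : Bool) (x y : ℂ) : cj c (x * y) = cj c x * cj c y := by cases c <;> simp [cj]
lemma norm_cj (c : Bool) (x : ℂ) : ‖cj c x‖ = ‖x‖ := by cases c <;> simp [cj]

/-- the planar map `x ↦ cj c (δ (x + b))` times the identity -/
def isoFun (c : Bool) (δ : Circle) (b : ℂ) (p : E) : E := mk (cj c (δ * (cx p + b))) (zc p)

/-- as an isometry -/
def iso (c : Bool) (δ : Circle) (b : ℂ) : E ≃ᵢ E where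
  toFun := isoFun c δ b
  invFun p := mk ((δ : ℂ)⁻¹ * cj c (cx p) - b) (zc p)
  left_inv p := by
    simp only [isoFun, cx_mk, zc_mk, cj_self]
    rw [inv_mul_cancel_left₀ (Circle.coe_ne_zero δ)]
    simp
  right_inv p := by
    simp only [isoFun, cx_mk, zc_mk, sub_add_cancel]
    rw [mul_inv_cancel_left₀ (Circle.coe_ne_zero δ), cj_self]
    simp
  isometry_toFun := by
    apply Isometry.of_dist_eq
    intro p q
    have h : ∀ p q : E, dist (isoFun c δ b p) (isoFun c δ b q) ^ 2 = dist p q ^ 2 := by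
      intro p q
      rw [dist_sq, dist_sq]
      simp only [isoFun, cx_mk, zc_mk]
      rw [← cj_sub, norm_cj, ← mul_sub, norm_mul, Circle.norm_coe]
      simp
    exact (sq_eq_sq₀ dist_nonneg dist_nonneg).1 (h p q)

@[simp] lemma iso_apply (c : Bool) (δ : Circle) (b : ℂ) (p : E) :
    iso c δ b p = mk (cj c (δ * (cx p + b))) (zc p) := rfl

/-- conjugation or identity on the circle -/
def cjc (c : Bool) (δ : Circle) : Circle := if c then δ⁻¹ else δ

lemma coe_cjc (c : Bool) (δ : Circle) : ((cjc c δ : Circle) : ℂ) = cj c δ := by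
  cases c
  · simp [cjc, cj]
  · simp only [cjc, cj, if_true]
    exact Circle.coe_inv_eq_conj δ

lemma iso_mul (c' : Bool) (δ' : Circle) (b' : ℂ) (c : Bool) (δ : Circle) (b : ℂ) :
    iso c' δ' b' * iso c δ b = iso (xor c' c) (cjc c δ' * δ) (b + (δ : ℂ)⁻¹ * cj c b') := by
  ext1 p
  rw [IsometryEquiv.mul_apply]
  simp only [iso_apply, cx_mk, zc_mk]
  congr 1
  rw [← cj_cj]
  congr 1
  rw [Circle.coe_mul, coe_cjc]
  have hδ : (δ : ℂ) ≠ 0 := Circle.coe_ne_zero δ
  have h2 : cj c (δ : ℂ) * cj c ((δ : ℂ)⁻¹) = 1 := by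
    rw [← cj_mul, mul_inv_cancel₀ hδ]; cases c <;> simp [cj]
  rw [cj_mul, cj_mul, cj_mul, cj_self]
  have h3 : cj c (cx p + (b + (δ : ℂ)⁻¹ * cj c b')) = cj c (cx p + b) + cj c ((δ : ℂ)⁻¹) * b' := by
    rw [← add_assoc, cj_add c (cx p + b), cj_mul, cj_self]
  rw [h3]
  linear_combination (-(δ' : ℂ) * b') * h2

lemma iso_one : iso false 1 0 = 1 := by
  ext1 p
  simp [cj]

lemma iso_inv (c : Bool) (δ : Circle) (b : ℂ) :
    ∃ δ' b', (iso c δ b)⁻¹ = iso c δ' b' := by
  refine ⟨cjc c δ⁻¹, -(cj c (δ * b)), ?_⟩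
  rw [inv_eq_iff_mul_eq_one, iso_mul]
  rw [← iso_one]
  congr 1
  · simp
  · cases c <;> simp [cjc]
  · rw [coe_cjc, cj_mul]
    have hδ : (δ : ℂ) ≠ 0 := Circle.coe_ne_zero δ
    cases c
    · simp only [cj]
      simp
    · simp only [cj]
      simp

/-- the solvable group of planar isometries, acting on space -/
def GG : Subgroup (E ≃ᵢ E) where
  carrier := {g | ∃ c δ b, g = iso c δ b}
  mul_mem' := by
    rintro _ _ ⟨c, δ, b, rfl⟩ ⟨c', δ', b', rfl⟩
    exact ⟨_, _, _, iso_mul _ _ _ _ _ _⟩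
  one_mem' := ⟨false, 1, 0, iso_one.symm⟩
  inv_mem' := by
    rintro _ ⟨c, δ, b, rfl⟩
    obtain ⟨δ', b', h⟩ := iso_inv c δ b
    exact ⟨c, δ', b', h⟩


/-- indicator -/
def ind (S : Set (E ≃ᵢ E)) (g : E ≃ᵢ E) : ℝ := by classical exact if g ∈ S then 1 else 0

lemma ind_nonneg (S : Set (E ≃ᵢ E)) (g : E ≃ᵢ E) : 0 ≤ ind S g := by
  unfold ind; split_ifs <;> norm_num
lemma ind_abs (S : Set (E ≃ᵢ E)) (g : E ≃ᵢ E) : |ind S g| ≤ 1 := by
  unfold ind; split_ifs <;> norm_num
lemma ind_union (S T : Set (E ≃ᵢ E)) (h : Disjoint S T) (g : E ≃ᵢ E) :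
    ind (S ∪ T) g = ind S g + ind T g := by
  unfold ind
  by_cases h1 : g ∈ S
  · have h2 : g ∉ T := fun h2 => (Set.disjoint_left.1 h) h1 h2
    have h3 : g ∈ S ∪ T := Or.inl h1
    rw [if_pos h3, if_pos h1, if_neg h2]; norm_num
  · by_cases h2 : g ∈ T
    · have h3 : g ∈ S ∪ T := Or.inr h2
      rw [if_pos h3, if_neg h1, if_pos h2]; norm_num
    · have h3 : g ∉ S ∪ T := fun h3 => h3.elim h1 h2
      rw [if_neg h3, if_neg h1, if_neg h2]; norm_num

theorem GG_amenable :
    ∃ m : Set GG → ℝ, (∀ S, 0 ≤ m S) ∧ m Set.univ = 1 ∧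
      (∀ S T : Set GG, Disjoint S T → m (S ∪ T) = m S + m T) ∧
      (∀ (g : GG) (S : Set GG), m ((fun h => g * h) '' S) = m S) := by
  obtain ⟨M1, a1, p1, o1, b1, i1⟩ := exists_mean (Additive Circle)
  obtain ⟨M2, a2, p2, o2, b2, i2⟩ := exists_mean ℂ
  -- inner mean
  set In : (E ≃ᵢ E → ℝ) → Bool → Additive Circle → ℝ :=
    fun F c δ => M2 (fun b => F (iso c (Additive.toMul δ) b)) with hIn
  set Mu : (E ≃ᵢ E → ℝ) → ℝ := fun F => (M1 (In F false) + M1 (In F true)) / 2 with hMu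
  have InB : ∀ F : E ≃ᵢ E → ℝ, (∀ g, |F g| ≤ 1) → ∀ c δ, |In F c δ| ≤ 1 :=
    fun F hF c δ => b2 _ _ (fun b => hF _)
  have bdd1 : ∀ F : E ≃ᵢ E → ℝ, (∀ g, |F g| ≤ 1) → ∀ c, Bdd (In F c) :=
    fun F hF c => ⟨1, InB F hF c⟩
  have bdd2 : ∀ F : E ≃ᵢ E → ℝ, (∀ g, |F g| ≤ 1) → ∀ c (δ : Additive Circle),
      Bdd (fun b => F (iso c (Additive.toMul δ) b)) := fun F hF c δ => ⟨1, fun b => hF _⟩
  refine ⟨fun S => Mu (ind (Subtype.val '' S)), ?_, ?_, ?_, ?_⟩
  · intro S
    have : ∀ c, 0 ≤ M1 (In (ind (Subtype.val '' S)) c) := by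
      intro c
      apply p1 _ (bdd1 _ (ind_abs _) c)
      intro δ
      apply p2 _ (bdd2 _ (ind_abs _) c δ)
      intro b; exact ind_nonneg _ _
    simp only [hMu]
    have h1 := this false
    have h2 := this true
    linarith
  · have : ∀ c, In (ind (Subtype.val '' (Set.univ : Set GG))) c = fun _ => 1 := by
      intro c; funext δ
      have : (fun b => ind (Subtype.val '' (Set.univ : Set GG)) (iso c (Additive.toMul δ) b)) = fun _ => 1 := by
        funext b
        have : iso c (Additive.toMul δ) b ∈ (Subtype.val '' (Set.univ : Set GG)) :=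
          ⟨⟨_, ⟨c, _, b, rfl⟩⟩, trivial, rfl⟩
        simp only [ind, this, if_true]
      simp only [hIn, this]
      exact o2
    simp only [hMu, this, o1]
    norm_num
  · intro S T hST
    have hd : Disjoint (Subtype.val '' S) (Subtype.val '' T) :=
      (Set.disjoint_image_iff Subtype.val_injective).2 hST
    have h1 : ∀ c, In (ind (Subtype.val '' (S ∪ T))) c
        = In (ind (Subtype.val '' S)) c + In (ind (Subtype.val '' T)) c := by
      intro c; funext δ
      simp only [hIn, Pi.add_apply]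
      rw [← a2 _ _ (bdd2 _ (ind_abs _) c δ) (bdd2 _ (ind_abs _) c δ)]
      congr 1; funext b
      rw [Pi.add_apply, Set.image_union, ind_union _ _ hd]
    simp only [hMu]
    rw [h1 false, h1 true, a1 _ _ (bdd1 _ (ind_abs _) _) (bdd1 _ (ind_abs _) _),
      a1 _ _ (bdd1 _ (ind_abs _) _) (bdd1 _ (ind_abs _) _)]
    ring
  · rintro ⟨g, hg⟩ S
    obtain ⟨c', δ', b', hg'⟩ : g⁻¹ ∈ GG := GG.inv_mem hg
    have h1 : ∀ c δ b, ind (Subtype.val '' ((fun h => (⟨g, hg⟩ : GG) * h) '' S)) (iso c δ b)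
        = ind (Subtype.val '' S) (iso (xor c' c) (cjc c δ' * δ) (b + (δ : ℂ)⁻¹ * cj c b')) := by
      intro c δ b
      rw [← iso_mul, ← hg']
      have : iso c δ b ∈ (Subtype.val '' ((fun h => (⟨g, hg⟩ : GG) * h) '' S)) ↔
          g⁻¹ * iso c δ b ∈ (Subtype.val '' S) := by
        constructor
        · rintro ⟨_, ⟨x, hx, rfl⟩, hx2⟩
          refine ⟨x, hx, ?_⟩
          rw [← hx2]
          simp
        · rintro ⟨x, hx, hx2⟩
          refine ⟨⟨g, hg⟩ * x, ⟨x, hx, rfl⟩, ?_⟩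
          simp [hx2]
      unfold ind
      by_cases h : iso c δ b ∈ (Subtype.val '' ((fun h => (⟨g, hg⟩ : GG) * h) '' S))
      · rw [if_pos h, if_pos (this.1 h)]
      · rw [if_neg h, if_neg (fun h' => h (this.2 h'))]
    have h2 : ∀ c, M1 (In (ind (Subtype.val '' ((fun h => (⟨g, hg⟩ : GG) * h) '' S))) c)
        = M1 (In (ind (Subtype.val '' S)) (xor c' c)) := by
      intro c
      have h3 : In (ind (Subtype.val '' ((fun h => (⟨g, hg⟩ : GG) * h) '' S))) c =
          fun δ => In (ind (Subtype.val '' S)) (xor c' c) (Additive.ofMul (cjc c δ') + δ) := by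
        funext δ
        simp only [hIn]
        have h4 : (fun b => ind (Subtype.val '' ((fun h => (⟨g, hg⟩ : GG) * h) '' S))
            (iso c (Additive.toMul δ) b)) = fun b =>
            (fun b => ind (Subtype.val '' S) (iso (xor c' c) (Additive.toMul (Additive.ofMul (cjc c δ') + δ)) b))
              ((((Additive.toMul δ : Circle) : ℂ)⁻¹ * cj c b') + b) := by
          funext b
          rw [h1, toMul_add, toMul_ofMul, add_comm b]
        rw [h4]
        exact i2 _ _ (bdd2 _ (ind_abs _) _ _)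
      rw [h3]
      exact i1 _ _ (bdd1 _ (ind_abs _) _)
    simp only [hMu]
    rw [h2 false, h2 true]
    cases c'
    · simp
    · simp [add_comm]

end
end Gardner
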