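import Pool.Agent.Helper183.Gar.Defs
import Pool.Agent.Helper183.Gar.Sets

set_option autoImplicit false
open MeasureTheory Set
open scoped Real ComplexConjugate

namespace Gardner
noncomputable section

namespace Par
variable (P : Par)

end Par


lemma sqrt6_irr : Irrational √6 := by
  rw [irrational_sqrt_ofNat_iff]
  intro ⟨r, hr⟩
  have h1 : r < 3 := by
    by_contra h
    have : 3 ≤ r := not_lt.1 h
    nlinarith
  interval_cases r <;> omega

lemma sqrt3_irr : Irrational √3 := by
  have := Nat.Prime.irrational_sqrt (p := 3) (by norm_num)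
  exact_mod_cast this

lemma lin_indep (x y m : ℤ) (h : (x : ℝ) * √2 + y * √3 = m) : x = 0 ∧ y = 0 := by
  have h2 : √2 * √2 = (2 : ℝ) := Real.mul_self_sqrt (by norm_num)
  have h3 : √3 * √3 = (3 : ℝ) := Real.mul_self_sqrt (by norm_num)
  have h6 : √2 * √3 = √6 := by
    rw [← Real.sqrt_mul (by norm_num)]; norm_num
  have hxy : x * y = 0 := by
    by_contra hne
    have hne' : (x : ℝ) * y ≠ 0 := by exact_mod_cast hne
    have hsq : 2 * (x : ℝ) ^ 2 + 3 * (y : ℝ) ^ 2 + 2 * (x * y) * √6 = (m : ℝ) ^ 2 := by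
      rw [← h, ← h6]; linear_combination (-(x : ℝ) ^ 2) * h2 + (-(y : ℝ) ^ 2) * h3
    have h6' : √6 = ((((m : ℚ) ^ 2 - 2 * x ^ 2 - 3 * y ^ 2) / (2 * (x * y)) : ℚ) : ℝ) := by
      push_cast
      rw [eq_div_iff (by positivity)]
      linear_combination hsq
    exact sqrt6_irr ⟨_, h6'.symm⟩
  rcases mul_eq_zero.1 hxy with h0 | h0
  · refine ⟨h0, ?_⟩
    by_contra hy
    have hy' : (y : ℝ) ≠ 0 := by exact_mod_cast hy
    rw [h0] at h
    have h3' : √3 = (((m : ℚ) / y : ℚ) : ℝ) := by
      push_cast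
      rw [eq_div_iff hy']
      push_cast at h
      linear_combination h
    exact sqrt3_irr ⟨_, h3'.symm⟩
  · refine ⟨?_, h0⟩
    by_contra hx
    have hx' : (x : ℝ) ≠ 0 := by exact_mod_cast hx
    rw [h0] at h
    have h2' : √2 = (((m : ℚ) / x : ℚ) : ℝ) := by
      push_cast
      rw [eq_div_iff hx']
      push_cast at h
      linear_combination h
    exact irrational_sqrt_two ⟨_, h2'.symm⟩

/-- `1, √2, √3` are linearly independent over the rationals -/
theorem row_inj (a b a' b' : ℕ) (hab : rowA a + rowB b = rowA a' + rowB b') : a = a' ∧ b = b' := by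
  unfold rowA rowB Int.fract at hab
  have h := lin_indep ((a : ℤ) - a') ((b : ℤ) - b')
    (⌊(a : ℝ) * √2⌋ + ⌊(b : ℝ) * √3⌋ - ⌊(a' : ℝ) * √2⌋ - ⌊(b' : ℝ) * √3⌋) (by
      push_cast
      linear_combination hab)
  constructor
  · have := h.1; omega
  · have := h.2; omega

/-- the set of steps -/
def steps : Finset ℝ := {√2 - 1, √2 - 2, √3 - 1, √3 - 2, -(√2 - 1), -(√2 - 2), -(√3 - 1), -(√3 - 2)}

lemma fract_step (s : ℝ) (h1 : 1 < s) (h2 : s < 2) (a : ℕ) :
    Int.fract (((a + 1 : ℕ) : ℝ) * s) - Int.fract ((a : ℝ) * s) = s - 1 ∨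
    Int.fract (((a + 1 : ℕ) : ℝ) * s) - Int.fract ((a : ℝ) * s) = s - 2 := by
  unfold Int.fract
  have e1 := Int.floor_le ((a : ℝ) * s)
  have e2 := Int.lt_floor_add_one ((a : ℝ) * s)
  have e3 := Int.floor_le (((a + 1 : ℕ) : ℝ) * s)
  have e4 := Int.lt_floor_add_one (((a + 1 : ℕ) : ℝ) * s)
  have e5 : ((a + 1 : ℕ) : ℝ) * s = a * s + s := by push_cast; ring
  set f1 := ⌊(a : ℝ) * s⌋
  set f2 := ⌊((a + 1 : ℕ) : ℝ) * s⌋
  have l1 : f1 < f2 := by
    have : (f1 : ℝ) < f2 := by linarith
    exact_mod_cast this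
  have l2 : f2 < f1 + 3 := by
    have : (f2 : ℝ) < f1 + 3 := by linarith
    exact_mod_cast this
  have : f2 = f1 + 1 ∨ f2 = f1 + 2 := by omega
  rcases this with h | h
  · left; rw [h, e5]; push_cast; ring
  · right; rw [h, e5]; push_cast; ring

lemma sqrt2_bd : (1 : ℝ) < √2 ∧ √2 < 2 := by
  constructor
  · rw [Real.lt_sqrt (by norm_num)]; norm_num
  · rw [Real.sqrt_lt' (by norm_num)]; norm_num

lemma sqrt3_bd : (1 : ℝ) < √3 ∧ √3 < 2 := by
  constructor
  · rw [Real.lt_sqrt (by norm_num)]; norm_num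
  · rw [Real.sqrt_lt' (by norm_num)]; norm_num

lemma rowA_step (a : ℕ) : rowA (a + 1) - rowA a = √2 - 1 ∨ rowA (a + 1) - rowA a = √2 - 2 :=
  fract_step _ sqrt2_bd.1 sqrt2_bd.2 a

lemma rowB_step (a : ℕ) : rowB (a + 1) - rowB a = √3 - 1 ∨ rowB (a + 1) - rowB a = √3 - 2 :=
  fract_step _ sqrt3_bd.1 sqrt3_bd.2 a

theorem ypos_zero (n i : ℕ) : ypos n i 0 = 0 := by
  unfold ypos rowA rowB
  simp

theorem ypos_nonneg (n i k : ℕ) : 0 ≤ ypos n i k := by
  unfold ypos rowA rowB
  exact add_nonneg (Int.fract_nonneg _) (Int.fract_nonneg _)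

theorem ypos_lt_two (n i k : ℕ) : ypos n i k < 2 := by
  unfold ypos rowA rowB
  have h1 := Int.fract_lt_one (((min (k - i) n : ℕ) : ℝ) * √2)
  have h2 := Int.fract_lt_one (((if k ≤ i + n then min k i else 2 * i + n - k : ℕ) : ℝ) * √3)
  linarith

theorem ypos_inj (n i k l : ℕ) (hn : 1 ≤ n) (hk : k ≤ 2 * i + n) (hl : l ≤ 2 * i + n)
    (h : ypos n i k = ypos n i l) : k = l := by
  unfold ypos at h
  obtain ⟨h1, h2⟩ := row_inj _ _ _ _ h
  split_ifs at h2 <;> omega

theorem ypos_step (n i k : ℕ) (hk : k < 2 * i + n) : ypos n i (k + 1) - ypos n i k ∈ steps := by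
  unfold ypos steps
  simp only [Finset.mem_insert, Finset.mem_singleton]
  rcases lt_or_ge k i with h1 | h1
  · have a1 : min (k + 1 - i) n = 0 := by omega
    have a2 : min (k - i) n = 0 := by omega
    have a3 : min (k + 1) i = k + 1 := by omega
    have a4 : min k i = k := by omega
    rw [a1, a2, if_pos (by omega), if_pos (by omega), a3, a4]
    rcases rowB_step k with h | h
    · right; right; left; linarith
    · right; right; right; left; linarith
  · rcases lt_or_ge k (i + n) with h2 | h2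
    · have a1 : min (k + 1 - i) n = (k - i) + 1 := by omega
      have a2 : min (k - i) n = k - i := by omega
      have a3 : min (k + 1) i = i := by omega
      have a4 : min k i = i := by omega
      rw [a1, a2, if_pos (by omega), if_pos (by omega), a3, a4]
      rcases rowA_step (k - i) with h | h
      · left; linarith
      · right; left; linarith
    · have a1 : min (k + 1 - i) n = n := by omega
      have a2 : min (k - i) n = n := by omega
      have a5 : (if k ≤ i + n then min k i else 2 * i + n - k) = (2 * i + n - (k + 1)) + 1 := by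
        split_ifs <;> omega
      rw [a1, a2, if_neg (by omega), a5]
      rcases rowB_step (2 * i + n - (k + 1)) with h | h
      · right; right; right; right; right; right; left; linarith
      · right; right; right; right; right; right; right; linarith

end
end Gardner

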