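import Pool.Agent.Helper183.Gar.Defs
import Pool.Agent.Helper183.Gar.Sets

set_option autoImplicit false
open MeasureTheory Set
open scoped Real ComplexConjugate

namespace Gardner
noncomputable section

namespace Par
variable (P : Par)

end Par

/-- the half circle at level 0 -/
def H0 : Set Ang := {θ | 0 < (e θ).im}
/-- the half circle at level h -/
def H1 : Set Ang := {θ | 0 < (Complex.exp (-(Complex.I / 2)) * e θ).im}

theorem norm_e (θ : Ang) : ‖e θ‖ = 1 := by
  unfold e
  exact Circle.norm_coe _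
theorem e_add (θ φ : Ang) : e (θ + φ) = e θ * e φ := by
  unfold e
  rw [AddCircle.toCircle_add, Circle.coe_mul]
theorem e_neg (θ : Ang) : e (-θ) = conj (e θ) := by
  unfold e
  rw [AddCircle.toCircle_neg, Circle.coe_inv_eq_conj]
theorem e_coe (x : ℝ) : e ((x : ℝ) : Ang) = Complex.exp (x * Complex.I) := by
  unfold e
  rw [AddCircle.toCircle_apply_mk, Circle.coe_exp, div_self (by positivity), one_mul]
theorem e_zsmul_one (m : ℤ) : e (m • one) = Complex.exp (m * Complex.I) := by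
  have : m • one = (((m : ℝ)) : Ang) := by
    unfold one
    rw [← AddCircle.coe_zsmul]
    simp
  rw [this, e_coe]
  simp
theorem e_inj {θ φ : Ang} (h : e θ = e φ) : θ = φ := by
  unfold e at h
  exact AddCircle.injective_toCircle (by positivity) (Circle.coe_inj.1 h)
theorem continuous_e : Continuous e := by
  unfold e
  exact continuous_subtype_val.comp AddCircle.continuous_toCircle
theorem exists_e (v : ℂ) : ∃ θ : Ang, v = (‖v‖ : ℂ) * e θ := by
  refine ⟨((Complex.arg v : ℝ) : Ang), ?_⟩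
  rw [e_coe]
  exact (Complex.norm_mul_exp_arg_mul_I v).symm
theorem measurable_H0 : MeasurableSet H0 := by
  have : IsOpen H0 := by
    unfold H0
    exact isOpen_lt continuous_const (Complex.continuous_im.comp continuous_e)
  exact this.measurableSet
theorem measurable_H1 : MeasurableSet H1 := by
  have : IsOpen H1 := by
    unfold H1
    exact isOpen_lt continuous_const
      (Complex.continuous_im.comp (continuous_const.mul continuous_e))
  exact this.measurableSet
theorem real_sq_one (u : ℂ) (hu : ‖u‖ = 1) (h : u.im = 0) : u * u = 1 := by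
  have h1 : conj u = u := Complex.conj_eq_iff_im.2 h
  have h2 : u * conj u = 1 := by
    rw [Complex.mul_conj, Complex.normSq_eq_norm_sq, hu]; simp
  rwa [h1] at h2
theorem H0_iff (θ : Ang) (hθ : Good θ) : θ ∈ H0 ↔ -θ ∉ H0 := by
  unfold H0
  rw [Set.mem_ofPred_eq, Set.mem_ofPred_eq, e_neg, Complex.conj_im, not_lt]
  have h0 : (e θ).im ≠ 0 := by
    intro h
    apply hθ 0
    apply e_inj
    rw [e_add, real_sq_one _ (norm_e θ) h, e_zsmul_one]
    simp
  constructor
  · intro h; linarith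
  · intro h
    exact lt_of_le_of_ne (by linarith) h0.symm
theorem H1_iff (θ : Ang) (hθ : Good θ) : θ ∈ H1 ↔ one - θ ∉ H1 := by
  unfold H1
  rw [Set.mem_ofPred_eq, Set.mem_ofPred_eq]
  have h1 : e one = Complex.exp Complex.I := by
    have := e_zsmul_one 1
    simpa using this
  have h2 : Complex.exp (-(Complex.I / 2)) * e (one - θ) =
      conj (Complex.exp (-(Complex.I / 2)) * e θ) := by
    rw [sub_eq_add_neg, e_add, e_neg, h1, map_mul, ← Complex.exp_conj, ← mul_assoc,
      ← Complex.exp_add]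
    congr 2
    have h3 : (starRingEnd ℂ) (-(Complex.I / 2)) = Complex.I / 2 := by
      rw [map_neg, map_div₀, Complex.conj_I, map_ofNat]; ring
    rw [h3]
    ring
  rw [h2, Complex.conj_im, not_lt]
  have hn : ‖Complex.exp (-(Complex.I / 2)) * e θ‖ = 1 := by
    rw [norm_mul, norm_e, mul_one, Complex.norm_exp]
    simp
  have h0 : (Complex.exp (-(Complex.I / 2)) * e θ).im ≠ 0 := by
    intro h
    apply hθ 1
    apply e_inj
    have h3 := real_sq_one _ hn h
    rw [one_zsmul, h1, e_add]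
    have h4 : Complex.exp Complex.I * (Complex.exp (-(Complex.I / 2)) *
        Complex.exp (-(Complex.I / 2))) = 1 := by
      rw [← Complex.exp_add, ← Complex.exp_add]
      have : Complex.I + (-(Complex.I / 2) + -(Complex.I / 2)) = 0 := by ring
      rw [this, Complex.exp_zero]
    calc e θ * e θ = (Complex.exp Complex.I * (Complex.exp (-(Complex.I / 2)) *
        Complex.exp (-(Complex.I / 2)))) * (e θ * e θ) := by rw [h4, one_mul]
      _ = Complex.exp Complex.I * (Complex.exp (-(Complex.I / 2)) * e θ *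
        (Complex.exp (-(Complex.I / 2)) * e θ)) := by ring
      _ = Complex.exp Complex.I := by rw [h3, mul_one]
  constructor
  · intro h; linarith
  · intro h
    exact lt_of_le_of_ne (by linarith) h0.symm
theorem norm_re (r : ℝ) (hr : 0 < r) (θ : Ang) : ‖(r : ℂ) * e θ‖ = r := by
  rw [norm_mul, norm_e, mul_one, Complex.norm_real, Real.norm_eq_abs, abs_of_pos hr]
theorem goodV_iff (r : ℝ) (hr : 0 < r) (θ : Ang) : Par.GoodV ((r : ℂ) * e θ) ↔ Good θ := by
  unfold Par.GoodV Good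
  rw [norm_re r hr]
  have hr' : (r : ℂ) ^ 2 ≠ 0 := by
    have : (r : ℂ) ≠ 0 := by exact_mod_cast hr.ne'
    positivity
  constructor
  · intro h m hm
    apply h m
    rw [mul_pow, sq (e θ), ← e_add, hm, e_zsmul_one]
  · intro h m hm
    apply h m
    apply e_inj
    rw [e_zsmul_one, e_add]
    rw [mul_pow] at hm
    have := mul_left_cancel₀ hr' hm
    rw [← this]; ring
theorem im_mul_real (r : ℝ) (u : ℂ) : ((r : ℂ) * u).im = r * u.im := by
  simp
/-- membership in a cell in polar coordinates -/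
theorem cell_iff (P : Par) (j k : ℕ) (r z : ℝ) (hr : 0 < r) (θ : Ang) :
    mk (P.x j k + (r : ℂ) * e θ) z ∈ P.cell j k ↔
      z ∈ P.Z j ∧ r ∈ P.R j ∧ Good θ ∧ (k = 0 → θ ∈ H0) ∧ (k = P.h j → θ ∈ H1) := by
  unfold Par.cell
  rw [Set.mem_ofPred_eq, cx_mk, zc_mk, add_sub_cancel_left, norm_re r hr, goodV_iff r hr]
  have e1 : Complex.exp (-(Complex.I / 2)) * ((r : ℂ) * e θ) =
      (r : ℂ) * (Complex.exp (-(Complex.I / 2)) * e θ) := by ring
  rw [e1, im_mul_real, im_mul_real]
  unfold H0 H1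
  rw [Set.mem_ofPred_eq, Set.mem_ofPred_eq, mul_pos_iff_of_pos_left hr, mul_pos_iff_of_pos_left hr]
theorem exists_polar (P : Par) (j k : ℕ) (p : E) (hp : p ∈ P.cell j k) :
    ∃ (z r : ℝ) (θ : Ang), z ∈ P.Z j ∧ r ∈ P.R j ∧ 0 < r ∧ Good θ ∧ (k = 0 → θ ∈ H0) ∧ (k = P.h j → θ ∈ H1) ∧
      p = mk (P.x j k + (r : ℂ) * e θ) z := by
  obtain ⟨θ, hθ⟩ := exists_e (cx p - P.x j k)
  have hr : ‖cx p - P.x j k‖ ∈ P.R j := hp.2.1
  have hr0 : 0 < ‖cx p - P.x j k‖ := hr.1
  have hpe : p = mk (P.x j k + (‖cx p - P.x j k‖ : ℂ) * e θ) (zc p) := by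
    rw [← hθ, add_sub_cancel, mk_cx_zc]
  have hp2 := hp
  rw [hpe, cell_iff P j k _ _ hr0 θ] at hp2
  obtain ⟨a1, a2, a3, a4, a5⟩ := hp2
  exact ⟨zc p, ‖cx p - P.x j k‖, θ, a1, a2, hr0, a3, a4, a5, hpe⟩
theorem ypos_le (P : Par) (j k k' : ℕ) :
    |ypos (P.n j) (P.i j) k - ypos (P.n j) (P.i j) k'| ≤ ‖P.x j k - P.x j k'‖ := by
  have h := Complex.abs_im_le_norm (P.x j k - P.x j k')
  have e1 : ∀ k, (P.x j k).im = ypos (P.n j) (P.i j) k := by
    intro k
    unfold Par.x xpos
    simp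
  rwa [Complex.sub_im, e1, e1] at h
/-- cells are disjoint -/
theorem cell_disj (P : Par) (j k j' k' : ℕ) (hk : k ≤ P.h j) (hk' : k' ≤ P.h j') (p : E)
    (h1 : p ∈ P.cell j k) (h2 : p ∈ P.cell j' k') : j = j' ∧ k = k' := by
  rcases lt_trichotomy j j' with hj | hj | hj
  · exact absurd h2.1.2.2.1 (h1.1.2.2.2 j' hj)
  · subst hj
    refine ⟨rfl, ?_⟩
    by_contra hne
    have h3 := P.sep j k k' hk hk' hne
    have h4 := ypos_le P j k k'
    have h5 : ‖P.x j k - P.x j k'‖ ≤ ‖cx p - P.x j k‖ + ‖cx p - P.x j k'‖ := by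
      have : P.x j k - P.x j k' = (cx p - P.x j k') - (cx p - P.x j k) := by ring
      rw [this]
      have := norm_sub_le (cx p - P.x j k') (cx p - P.x j k)
      linarith
    have h6 : ‖cx p - P.x j k‖ < P.ρ j := h1.2.1.2.1
    have h7 : ‖cx p - P.x j k'‖ < P.ρ j := h2.2.1.2.1
    linarith
  · exact absurd h1.1.2.2.1 (h2.1.2.2.2 j hj)
/-- uniqueness of polar coordinates -/
theorem polar_inj (P : Par) (j k k' : ℕ) (hk : k ≤ P.h j) (hk' : k' ≤ P.h j) (z z' r r' : ℝ) (θ θ' : Ang)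
    (hr : 0 < r) (hr' : 0 < r') (h1 : r < P.ρ j) (h2 : r' < P.ρ j)
    (h : mk (P.x j k + (r : ℂ) * e θ) z = mk (P.x j k' + (r' : ℂ) * e θ') z') :
    k = k' ∧ z = z' ∧ r = r' ∧ θ = θ' := by
  obtain ⟨e1, e2⟩ := mk_inj h
  have hkk : k = k' := by
    by_contra hne
    have h3 := P.sep j k k' hk hk' hne
    have h4 := ypos_le P j k k'
    have h5 : P.x j k - P.x j k' = (r' : ℂ) * e θ' - (r : ℂ) * e θ := by
      linear_combination e1
    rw [h5] at h4
    have h6 := norm_sub_le ((r' : ℂ) * e θ') ((r : ℂ) * e θ)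
    rw [norm_re r hr, norm_re r' hr'] at h6
    linarith
  subst hkk
  have e3 : (r : ℂ) * e θ = (r' : ℂ) * e θ' := add_left_cancel e1
  have e4 : r = r' := by
    rw [← norm_re r hr θ, e3, norm_re r' hr']
  subst e4
  have hr0 : (r : ℂ) ≠ 0 := by exact_mod_cast hr.ne'
  exact ⟨rfl, e2, rfl, e_inj (mul_left_cancel₀ hr0 e3)⟩

end
end Gardner

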