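import Pool.Agent.Helper183.Gar.Defs
import Pool.Agent.Helper183.Gar.Sets
import Pool.Agent.Helper183.Gar.Polar
import Pool.Agent.Helper183.Gar.GAmen
import Pool.Agent.Helper183.Gar.PathF

set_option autoImplicit false
open MeasureTheory Set
open scoped Real ComplexConjugate

namespace Gardner
noncomputable section

namespace Par
variable (P : Par)

end Par

namespace Par
variable (P : Par)

end Par

lemma steps_neg {s : ℝ} (hs : s ∈ steps) : -s ∈ steps := by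
  simp only [steps, Finset.mem_insert, Finset.mem_singleton] at hs ⊢
  rcases hs with h | h | h | h | h | h | h | h <;> subst h <;> simp

lemma steps_im {s : ℝ} : conj (Complex.I * (s : ℂ)) = -(Complex.I * (s : ℂ)) := by
  rw [map_mul, Complex.conj_I, Complex.conj_ofReal]; ring

/-- the finitely many maps -/
def tmap (t : Fin 4 × steps) : E ≃ᵢ E :=
  if t.1 = 0 then iso false 1 (Complex.I * ((t.2 : ℝ) : ℂ))
  else if t.1 = 1 then iso true 1 (-(Complex.I * ((t.2 : ℝ) : ℂ)))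
  else if t.1 = 2 then iso true (Circle.exp (-1))
    (-(Complex.I * ((t.2 : ℝ) : ℂ)) * Complex.exp Complex.I)
  else iso true (Circle.exp (-1)) (-(Complex.I * ((t.2 : ℝ) : ℂ)))

lemma coe_circle : ((Circle.exp (-1) : Circle) : ℂ) = Complex.exp (-Complex.I) := by
  rw [Circle.coe_exp]; congr 1; push_cast; ring

lemma conj_exp_I : conj (Complex.exp (-Complex.I)) = Complex.exp Complex.I := by
  rw [← Complex.exp_conj, map_neg, Complex.conj_I, neg_neg]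

lemma exp_mul_exp : Complex.exp (-Complex.I) * Complex.exp Complex.I = 1 := by
  rw [← Complex.exp_add]; simp

lemma tmap0 (s : steps) (p : E) : tmap (0, s) p = mk (cx p + Complex.I * ((s : ℝ) : ℂ)) (zc p) := by
  simp [tmap, cj]

lemma tmap1 (s : steps) (p : E) :
    tmap (1, s) p = mk (conj (cx p) + Complex.I * ((s : ℝ) : ℂ)) (zc p) := by
  have h : tmap (1, s) = iso true 1 (-(Complex.I * ((s : ℝ) : ℂ))) := by simp [tmap]
  rw [h, iso_apply]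
  congr 1
  simp only [cj, if_true, Circle.coe_one, one_mul, map_add, map_neg, steps_im, neg_neg]

lemma tmap2 (s : steps) (p : E) :
    tmap (2, s) p = mk (Complex.exp Complex.I * conj (cx p) + Complex.I * ((s : ℝ) : ℂ)) (zc p) := by
  have h : tmap (2, s) = iso true (Circle.exp (-1))
    (-(Complex.I * ((s : ℝ) : ℂ)) * Complex.exp Complex.I) := by
    simp [tmap]
  rw [h, iso_apply]
  congr 1
  simp only [cj, if_true]
  rw [coe_circle, mul_add, map_add, map_mul, conj_exp_I]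
  congr 1
  have : Complex.exp (-Complex.I) * (-(Complex.I * ((s : ℝ) : ℂ)) * Complex.exp Complex.I)
      = -(Complex.I * ((s : ℝ) : ℂ)) := by
    linear_combination (-(Complex.I * ((s : ℝ) : ℂ))) * exp_mul_exp
  rw [this, map_neg, steps_im, neg_neg]

lemma tmap3 (s : steps) (p : E) :
    tmap (3, s) p = mk (Complex.exp Complex.I * (conj (cx p) + Complex.I * ((s : ℝ) : ℂ))) (zc p) := by
  have h : tmap (3, s) = iso true (Circle.exp (-1)) (-(Complex.I * ((s : ℝ) : ℂ))) := by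
    simp [tmap]
  rw [h, iso_apply]
  congr 1
  simp only [cj, if_true]
  rw [coe_circle, map_mul, conj_exp_I, map_add, map_neg, steps_im, neg_neg]

lemma tmap_mem (t : Fin 4 × steps) : tmap t ∈ GG := by
  unfold tmap
  split_ifs <;> exact ⟨_, _, _, rfl⟩

lemma kap_eq : (kap : ℂ) + Complex.I = Complex.exp (Complex.I / 2) / (Real.sin (1/2) : ℂ) := by
  have hs : Real.sin (1/2) ≠ 0 := by
    apply ne_of_gt
    apply Real.sin_pos_of_pos_of_lt_pi (by norm_num)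
    linarith [Real.pi_gt_three]
  have hs' : (Real.sin (1/2) : ℂ) ≠ 0 := by exact_mod_cast hs
  have h1 : Complex.exp (Complex.I / 2) = (Real.cos (1/2) : ℂ) + (Real.sin (1/2) : ℂ) * Complex.I := by
    have : Complex.I / 2 = ((1/2 : ℝ) : ℂ) * Complex.I := by push_cast; ring
    rw [this, Complex.exp_mul_I, Complex.ofReal_cos, Complex.ofReal_sin]
  rw [h1, kap, Complex.ofReal_div]
  field_simp

lemma kap_conj : Complex.exp Complex.I * ((kap : ℂ) - Complex.I) = (kap : ℂ) + Complex.I := by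
  have h1 : (kap : ℂ) - Complex.I = conj ((kap : ℂ) + Complex.I) := by
    rw [map_add, Complex.conj_ofReal, Complex.conj_I]; ring
  rw [h1, kap_eq, map_div₀, Complex.conj_ofReal, ← Complex.exp_conj, map_div₀, Complex.conj_I,
    map_ofNat, mul_div_assoc', ← Complex.exp_add]
  congr 2
  ring

lemma conj_x (P : Par) (j k : ℕ) : conj (P.x j k) =
    (kap : ℂ) * (ypos (P.n j) (P.i j) (P.h j) : ℂ) - Complex.I * (ypos (P.n j) (P.i j) k : ℂ) := by
  unfold Par.x xpos Par.h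
  rw [map_add, map_mul, Complex.conj_ofReal, Complex.conj_ofReal, Complex.conj_I]
  push_cast
  ring

lemma x_eq (P : Par) (j k : ℕ) : P.x j k =
    (kap : ℂ) * (ypos (P.n j) (P.i j) (P.h j) : ℂ) + Complex.I * (ypos (P.n j) (P.i j) k : ℂ) := by
  unfold Par.x xpos Par.h
  push_cast
  ring

/-- the parametrization of all the cells -/
def ev (P : Par) (t : ℕ × ℝ × ℝ × (ℕ × Ang)) : E :=
  mk (P.x t.1 t.2.2.2.1 + (t.2.1 : ℂ) * e t.2.2.2.2) t.2.2.1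

/-- the parameters -/
def Om (P : Par) : Set (ℕ × ℝ × ℝ × (ℕ × Ang)) :=
  {t | t.2.1 ∈ P.R t.1 ∧ t.2.2.1 ∈ P.Z t.1 ∧ t.2.2.2 ∈ FP (P.h t.1) H0 H1}

lemma ev_mem (P : Par) {t : ℕ × ℝ × ℝ × (ℕ × Ang)} (ht : t ∈ Om P) :
    ev P t ∈ P.cell t.1 t.2.2.2.1 := by
  obtain ⟨h1, h2, h3⟩ := ht
  rw [ev, cell_iff P _ _ _ _ h1.1]
  exact ⟨h2, h1, h3.2.1, h3.2.2.1, h3.2.2.2⟩

lemma ev_inj (P : Par) : InjOn (ev P) (Om P) := by
  rintro ⟨j, r, z, k, θ⟩ ht ⟨j', r', z', k', θ'⟩ ht' heq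
  have h1 := ev_mem P ht
  have h2 := ev_mem P ht'
  rw [← heq] at h2
  obtain ⟨e1, e2⟩ := cell_disj P j k j' k' ht.2.2.1 ht'.2.2.1 _ h1 h2
  subst e1 e2
  obtain ⟨-, e3, e4, e5⟩ := polar_inj P j k k ht.2.2.1 ht.2.2.1 z z' r r' θ θ' ht.1.1 ht'.1.1
    ht.1.2.1 ht'.1.2.1 heq
  subst e3 e4 e5
  rfl

lemma A_eq (P : Par) : P.A = ev P '' (Om P ∩ {t | Even t.2.2.2.1}) := by
  ext p
  constructor
  · rintro ⟨j, k, hk, hev, hp⟩
    obtain ⟨z, r, θ, h1, h2, h3, h4, h5, h6, h7⟩ := exists_polar P j k p hp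
    exact ⟨(j, r, z, (k, θ)), ⟨⟨h2, h1, hk, h4, h5, h6⟩, hev⟩, h7.symm⟩
  · rintro ⟨t, ⟨ht, hev⟩, rfl⟩
    exact ⟨t.1, t.2.2.2.1, ht.2.2.1, hev, ev_mem P ht⟩

lemma B_eq (P : Par) : P.B = ev P '' (Om P ∩ {t | Odd t.2.2.2.1}) := by
  ext p
  constructor
  · rintro ⟨j, k, hk, hev, hp⟩
    obtain ⟨z, r, θ, h1, h2, h3, h4, h5, h6, h7⟩ := exists_polar P j k p hp
    exact ⟨(j, r, z, (k, θ)), ⟨⟨h2, h1, hk, h4, h5, h6⟩, hev⟩, h7.symm⟩
  · rintro ⟨t, ⟨ht, hev⟩, rfl⟩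
    exact ⟨t.1, t.2.2.2.1, ht.2.2.1, hev, ev_mem P ht⟩

lemma e_one : e one = Complex.exp Complex.I := by
  have := e_zsmul_one 1
  simpa using this

/-- one step of the matching is one of the maps -/
lemma step_map (P : Par) (ypos_zero : ∀ n i : ℕ, ypos n i 0 = 0)
    (ypos_step : ∀ n i k : ℕ, k < 2 * i + n → ypos n i (k + 1) - ypos n i k ∈ steps)
    (j : ℕ) (r z : ℝ) (q q' : ℕ × Ang) (hq : q.1 ≤ P.h j) (hq' : q'.1 ≤ P.h j)
    (hadj : Adj (P.h j) q q') :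
    ∃ t, ev P (j, r, z, q') = tmap t (ev P (j, r, z, q)) := by
  obtain ⟨k, θ⟩ := q
  obtain ⟨l, θ'⟩ := q'
  obtain ⟨hkl, hθ⟩ := hadj
  simp only at hkl hθ hq hq'
  obtain ⟨s, hs⟩ : ∃ s, s = ypos (P.n j) (P.i j) l - ypos (P.n j) (P.i j) k := ⟨_, rfl⟩
  have hss : s ∈ steps := by
    rcases hkl with h | h
    · subst h
      rw [hs]
      exact ypos_step _ _ _ (by unfold Par.h at hq'; omega)
    · subst h
      have := steps_neg (ypos_step (P.n j) (P.i j) l (by unfold Par.h at hq; omega))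
      rw [neg_sub] at this
      rw [hs]
      exact this
  have hsC : (s : ℂ) = (ypos (P.n j) (P.i j) l : ℂ) - (ypos (P.n j) (P.i j) k : ℂ) := by
    rw [hs]; push_cast; ring
  have hconj : conj (P.x j k + (r : ℂ) * e θ) =
      (kap : ℂ) * (ypos (P.n j) (P.i j) (P.h j) : ℂ) - Complex.I * (ypos (P.n j) (P.i j) k : ℂ)
        + (r : ℂ) * conj (e θ) := by
    rw [map_add, conj_x, map_mul, Complex.conj_ofReal]
  rcases hθ with h | ⟨h0, h⟩ | ⟨h1, h⟩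
  · refine ⟨(0, ⟨s, hss⟩), ?_⟩
    rw [tmap0]
    simp only [ev, cx_mk, zc_mk]
    congr 1
    rw [h, x_eq P j k, x_eq P j l, hsC]
    ring
  · rcases h0 with h0 | h0
    · refine ⟨(1, ⟨s, hss⟩), ?_⟩
      rw [tmap1]
      simp only [ev, cx_mk, zc_mk]
      congr 1
      rw [hconj, h, e_neg, x_eq P j l, hsC, h0, ypos_zero]
      push_cast
      ring
    · refine ⟨(1, ⟨-s, steps_neg hss⟩), ?_⟩
      rw [tmap1]
      simp only [ev, cx_mk, zc_mk]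
      congr 1
      rw [hconj, h, e_neg, x_eq P j l]
      push_cast
      rw [hsC, h0, ypos_zero]
      push_cast
      ring
  · rcases h1 with h1 | h1
    · refine ⟨(2, ⟨s, hss⟩), ?_⟩
      rw [tmap2]
      simp only [ev, cx_mk, zc_mk]
      congr 1
      rw [hconj, h, sub_eq_add_neg, e_add, e_neg, e_one, x_eq P j l, hsC, h1]
      linear_combination (-(ypos (P.n j) (P.i j) (P.h j) : ℂ)) * kap_conj
    · refine ⟨(3, ⟨-s, steps_neg hss⟩), ?_⟩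
      rw [tmap3]
      simp only [ev, cx_mk, zc_mk]
      congr 1
      rw [hconj, h, sub_eq_add_neg, e_add, e_neg, e_one, x_eq P j l]
      push_cast
      rw [hsC, h1]
      linear_combination (-(ypos (P.n j) (P.i j) (P.h j) : ℂ)) * kap_conj

/-- `A` and `B` are equidecomposable by finitely many elements of `GG` (arbitrary pieces) -/
theorem equi (P : Par)
    (ypos_zero : ∀ n i : ℕ, ypos n i 0 = 0)
    (ypos_step : ∀ n i k : ℕ, k < 2 * i + n → ypos n i (k + 1) - ypos n i k ∈ steps)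
    (exists_matching : ∀ (h : ℕ), 2 ≤ h → ∀ (H0 H1 : Set Ang),
      (∀ θ, Good θ → (θ ∈ H0 ↔ -θ ∉ H0)) → (∀ θ, Good θ → (θ ∈ H1 ↔ one - θ ∉ H1)) →
      ∃ M : ℕ × Ang → ℕ × Ang,
        BijOn M {p | p ∈ FP h H0 H1 ∧ Even p.1} {p | p ∈ FP h H0 H1 ∧ Odd p.1} ∧
        ∀ p, p ∈ FP h H0 H1 → Even p.1 → Adj h p (M p)) :
    ∃ (N : ℕ) (g : Fin N → E ≃ᵢ E), (∀ i, g i ∈ GG) ∧
      ∃ M : E → E, BijOn M P.A P.B ∧ ∀ p ∈ P.A, ∃ i, M p = g i p := by
  have hh : ∀ j, 2 ≤ P.h j := fun j => by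
    have := P.two_le_n j
    unfold Par.h; omega
  choose M hM hMadj using fun j => exists_matching (P.h j) (hh j) H0 H1 H0_iff H1_iff
  obtain ⟨Mh, hMh⟩ : ∃ Mh : (ℕ × ℝ × ℝ × (ℕ × Ang)) → (ℕ × ℝ × ℝ × (ℕ × Ang)),
    Mh = fun t => (t.1, t.2.1, t.2.2.1, M t.1 t.2.2.2) := ⟨_, rfl⟩
  have hbij : BijOn Mh (Om P ∩ {t | Even t.2.2.2.1}) (Om P ∩ {t | Odd t.2.2.2.1}) := by
    refine ⟨?_, ?_, ?_⟩
    · rintro ⟨j, r, z, q⟩ ⟨⟨h1, h2, h3⟩, h4⟩
      have h5 := (hM j).mapsTo (show q ∈ {p | p ∈ FP (P.h j) H0 H1 ∧ Even p.1} from ⟨h3, h4⟩)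
      rw [hMh]
      exact ⟨⟨h1, h2, h5.1⟩, h5.2⟩
    · rintro ⟨j, r, z, q⟩ ⟨⟨h1, h2, h3⟩, h4⟩ ⟨j', r', z', q'⟩ ⟨⟨h1', h2', h3'⟩, h4'⟩ heq
      rw [hMh] at heq
      simp only [Prod.mk.injEq] at heq
      obtain ⟨e1, e2, e3, e4⟩ := heq
      subst e1 e2 e3
      have := (hM j).injOn (show q ∈ {p | p ∈ FP (P.h j) H0 H1 ∧ Even p.1} from ⟨h3, h4⟩)
        (show q' ∈ {p | p ∈ FP (P.h j) H0 H1 ∧ Even p.1} from ⟨h3', h4'⟩) e4
      rw [this]
    · rintro ⟨j, r, z, q⟩ ⟨⟨h1, h2, h3⟩, h4⟩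
      obtain ⟨q', hq', hqq⟩ := (hM j).surjOn
        (show q ∈ {p | p ∈ FP (P.h j) H0 H1 ∧ Odd p.1} from ⟨h3, h4⟩)
      refine ⟨(j, r, z, q'), ⟨⟨h1, h2, hq'.1⟩, hq'.2⟩, ?_⟩
      rw [hMh]
      simp only [hqq]
  obtain ⟨iv, hiv⟩ : ∃ iv : E → (ℕ × ℝ × ℝ × (ℕ × Ang)), ∀ t ∈ Om P, iv (ev P t) = t := by
    have : Nonempty (ℕ × ℝ × ℝ × (ℕ × Ang)) := ⟨(0, 0, 0, (0, 0))⟩
    exact ⟨Function.invFunOn (ev P) (Om P), fun t ht =>
      (ev_inj P).leftInvOn_invFunOn ht⟩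
  refine ⟨Fintype.card (Fin 4 × steps), fun i => tmap ((Fintype.equivFin _).symm i),
    fun i => tmap_mem _, fun p => ev P (Mh (iv p)), ?_, ?_⟩
  · rw [A_eq, B_eq]
    refine ⟨?_, ?_, ?_⟩
    · rintro _ ⟨t, ht, rfl⟩
      show ev P (Mh (iv (ev P t))) ∈ _
      rw [hiv t ht.1]
      exact ⟨Mh t, hbij.mapsTo ht, rfl⟩
    · rintro _ ⟨t, ht, rfl⟩ _ ⟨t', ht', rfl⟩ heq
      simp only [hiv t ht.1, hiv t' ht'.1] at heq
      have h1 := ev_inj P (hbij.mapsTo ht).1 (hbij.mapsTo ht').1 heq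
      rw [hbij.injOn ht ht' h1]
    · rintro _ ⟨t, ht, rfl⟩
      obtain ⟨t', ht', rfl⟩ := hbij.surjOn ht
      refine ⟨ev P t', ⟨t', ht', rfl⟩, ?_⟩
      show ev P (Mh (iv (ev P t'))) = _
      rw [hiv t' ht'.1]
  · rw [A_eq]
    rintro _ ⟨⟨j, r, z, q⟩, ht, rfl⟩
    have h1 := hbij.mapsTo ht
    obtain ⟨t, h2⟩ := step_map P ypos_zero ypos_step j r z q (M j q) ht.1.2.2.1
      (by rw [hMh] at h1; exact h1.1.2.2.1)
      (hMadj j q ht.1.2.2 ht.2)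
    refine ⟨Fintype.equivFin _ t, ?_⟩
    show ev P (Mh (iv (ev P (j, r, z, q)))) = _
    rw [hiv _ ht.1]
    simp only [Equiv.symm_apply_apply]
    rw [← h2, hMh]

end
end Gardner

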