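import Pool.Agent.Helper183.Gar.Defs

set_option autoImplicit false
open MeasureTheory Set
open scoped Real
namespace Gardner
noncomputable section

theorem good_neg {t : Ang} (h : Good t) : Good (-t) := by
  intro m hm
  apply h (-m)
  have : t + t = -(-t + -t) := by abel
  rw [this, hm, neg_smul]

theorem good_one_sub {t : Ang} (h : Good t) : Good (one - t) := by
  intro m hm
  apply h (2 - m)
  have : t + t = (2 : ℤ) • one - ((one - t) + (one - t)) := by
    rw [two_zsmul]
    abel
  rw [this, hm, sub_smul]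

open Classical in
/-- next point along the oriented line -/
def nxt (h : ℕ) (H0 H1 : Set Ang) (O : Ang → Prop) (p : ℕ × Ang) : ℕ × Ang :=
  if O p.2 then
    (if p.1 = h then (h - 1, one - p.2) else
      if p.1 + 1 = h ∧ p.2 ∉ H1 then (h, one - p.2) else (p.1 + 1, p.2))
  else
    (if p.1 = 0 then (1, -p.2) else
      if p.1 - 1 = 0 ∧ p.2 ∉ H0 then (0, -p.2) else (p.1 - 1, p.2))

theorem nxt_spec (h : ℕ) (hh : 2 ≤ h) (H0 H1 : Set Ang)
    (h0 : ∀ θ, Good θ → (θ ∈ H0 ↔ -θ ∉ H0)) (h1 : ∀ θ, Good θ → (θ ∈ H1 ↔ one - θ ∉ H1))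
    (O : Ang → Prop) (O1 : ∀ t, Good t → (O (-t) ↔ ¬ O t)) (O2 : ∀ t, Good t → (O (one - t) ↔ ¬ O t))
    (p : ℕ × Ang) (hp : p ∈ FP h H0 H1) :
    nxt h H0 H1 O p ∈ FP h H0 H1 ∧ (Even p.1 ↔ Odd (nxt h H0 H1 O p).1) ∧
      Adj h p (nxt h H0 H1 O p) ∧ nxt h H0 H1 (fun t => ¬ O t) (nxt h H0 H1 O p) = p := by
  obtain ⟨k, t⟩ := p
  obtain ⟨hk, hg, hk0, hkh⟩ := hp
  simp only at hk hg hk0 hkh
  have g1 := good_neg hg
  have g2 := good_one_sub hg
  have a1 := h0 t hg
  have a2 := h1 t hg
  have o1 := O1 t hg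
  have o2 := O2 t hg
  have e1 : one - (one - t) = t := by abel
  have e2 : - - t = t := neg_neg t
  by_cases hO : O t
  · by_cases hkh' : k = h
    · have ht : t ∈ H1 := hkh hkh'
      have ht' : one - t ∉ H1 := a2.1 ht
      have hn : nxt h H0 H1 O (k, t) = (h - 1, one - t) := by
        simp only [nxt, if_pos hO, if_pos hkh']
      rw [hn]
      refine ⟨⟨by simp only; omega, g2, fun h' => ?_, fun h' => ?_⟩, ?_, ⟨Or.inr ?_, Or.inr (Or.inr ⟨Or.inl hkh', rfl⟩)⟩, ?_⟩
      · simp only at h'; omega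
      · simp only at h'; omega
      · simp only [hkh', Nat.odd_iff, Nat.even_iff]; omega
      · simp only; omega
      · have h3 : ¬ ¬ ¬ O (one - t) := by rw [o2]; simpa using hO
        have h3' : ¬ O (one - t) := by rw [o2]; simpa using hO
        have h4 : ¬ (h - 1 = h) := by omega
        have h5 : h - 1 + 1 = h ∧ one - t ∉ H1 := ⟨by omega, ht'⟩
        simp only [nxt, if_pos h3', if_neg h4, if_pos h5, e1, hkh']
    · by_cases hc : k + 1 = h ∧ t ∉ H1
      · have hn : nxt h H0 H1 O (k, t) = (h, one - t) := by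
          simp only [nxt, if_pos hO, if_neg hkh', if_pos hc]
        have ht' : one - t ∈ H1 := by
          by_contra h'
          exact hc.2 (a2.2 h')
        rw [hn]
        refine ⟨⟨le_refl h, g2, fun h' => ?_, fun h' => ht'⟩, ?_, ⟨Or.inl ?_, Or.inr (Or.inr ⟨Or.inr rfl, rfl⟩)⟩, ?_⟩
        · simp only at h'; omega
        · have := hc.1
          simp only [Nat.odd_iff, Nat.even_iff]; omega
        · simp only; omega
        · have h3' : ¬ O (one - t) := by rw [o2]; simpa using hO
          have h6 : h - 1 = k := by omega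
          simp only [nxt, if_pos h3', if_true, e1, h6]
      · have hn : nxt h H0 H1 O (k, t) = (k + 1, t) := by
          simp only [nxt, if_pos hO, if_neg hkh', if_neg hc]
        rw [hn]
        refine ⟨⟨by simp only; omega, hg, fun h' => ?_, fun h' => ?_⟩, ?_, ⟨Or.inl rfl, Or.inl rfl⟩, ?_⟩
        · simp only at h'; omega
        · by_contra h''
          exact hc ⟨h', h''⟩
        · simp only [Nat.odd_iff, Nat.even_iff]; omega
        · have h3' : ¬ ¬ O t := by simpa using hO
          have h4 : ¬ (k + 1 = 0) := by omega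
          have h5 : ¬ (k + 1 - 1 = 0 ∧ t ∉ H0) := by
            rintro ⟨h6, h7⟩
            exact h7 (hk0 (by omega))
          simp only [nxt, if_neg h3', if_neg h4, if_neg h5, Nat.add_sub_cancel]
  · by_cases hk0' : k = 0
    · have ht : t ∈ H0 := hk0 hk0'
      have ht' : -t ∉ H0 := a1.1 ht
      have hn : nxt h H0 H1 O (k, t) = (1, -t) := by
        simp only [nxt, if_neg hO, if_pos hk0']
      rw [hn]
      refine ⟨⟨by simp only; omega, g1, fun h' => ?_, fun h' => ?_⟩, ?_, ⟨Or.inl ?_, Or.inr (Or.inl ⟨Or.inl hk0', rfl⟩)⟩, ?_⟩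
      · simp only at h'; omega
      · simp only at h'; omega
      · simp only [hk0']; decide
      · simp only; omega
      · have h3' : ¬ ¬ O (-t) := by
          rw [not_not, o1]
          exact hO
        have h4 : ¬ (1 = 0) := by omega
        have h5 : 1 - 1 = 0 ∧ -t ∉ H0 := ⟨by omega, ht'⟩
        simp only [nxt, if_neg h3', if_neg h4, if_pos h5, e2, hk0']
    · by_cases hc : k - 1 = 0 ∧ t ∉ H0
      · have hn : nxt h H0 H1 O (k, t) = (0, -t) := by
          simp only [nxt, if_neg hO, if_neg hk0', if_pos hc]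
        have ht' : -t ∈ H0 := by
          by_contra h'
          exact hc.2 (a1.2 h')
        rw [hn]
        refine ⟨⟨Nat.zero_le h, g1, fun h' => ht', fun h' => ?_⟩, ?_, ⟨Or.inr ?_, Or.inr (Or.inl ⟨Or.inr rfl, rfl⟩)⟩, ?_⟩
        · simp only at h'; omega
        · have := hc.1
          simp only [Nat.odd_iff, Nat.even_iff]; omega
        · have := hc.1
          simp only; omega
        · have h3' : ¬ ¬ O (-t) := by
            rw [not_not, o1]
            exact hO
          have h6 : k = 1 := by omega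
          simp only [nxt, if_neg h3', if_true, e2, h6]
      · have hn : nxt h H0 H1 O (k, t) = (k - 1, t) := by
          simp only [nxt, if_neg hO, if_neg hk0', if_neg hc]
        rw [hn]
        refine ⟨⟨by simp only; omega, hg, fun h' => ?_, fun h' => ?_⟩, ?_, ⟨Or.inr ?_, Or.inl rfl⟩, ?_⟩
        · by_contra h''
          exact hc ⟨h', h''⟩
        · simp only at h'; omega
        · simp only [Nat.odd_iff, Nat.even_iff]; omega
        · simp only; omega
        · have h4 : ¬ (k - 1 = h) := by omega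
          have h5 : ¬ (k - 1 + 1 = h ∧ t ∉ H1) := by
            rintro ⟨h6, h7⟩
            exact h7 (hkh (by omega))
          have h6 : k - 1 + 1 = k := by omega
          simp only [nxt, if_pos hO, if_neg h4, if_neg h5, h6]

/-- the orbit setoid -/
def orb : Setoid Ang where
  r t t' := ∃ m : ℤ, t' = t + m • one
  iseqv := ⟨fun t => ⟨0, by simp⟩, fun {t t'} ⟨m, hm⟩ => ⟨-m, by rw [hm]; simp⟩,
    fun {t t' t''} ⟨m, hm⟩ ⟨n, hn⟩ => ⟨m + n, by rw [hn, hm, add_smul, add_assoc]⟩⟩

theorem exists_orientation : ∃ O : Ang → Prop, (∀ t, Good t → (O (-t) ↔ ¬ O t)) ∧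
    (∀ t, Good t → (O (one - t) ↔ ¬ O t)) := by
  let c : Ang → Quotient orb := fun t => Quotient.mk orb t
  have hc : ∀ t, Good t → c t ≠ c (-t) := by
    intro t ht h
    obtain ⟨m, hm⟩ := Quotient.exact h
    apply ht (-m)
    rw [neg_smul]
    have h2 : -t - t = m • one := by rw [hm]; abel
    rw [← h2]
    abel
  have hc2 : ∀ t, c (one - t) = c (-t) := by
    intro t
    apply Quotient.sound
    exact ⟨-1, by rw [neg_one_smul]; abel⟩
  have hc3 : ∀ t, c (-(one - t)) = c t := by
    intro t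
    apply Quotient.sound
    exact ⟨1, by rw [one_smul]; abel⟩
  have key : ∀ t, Good t → (WellOrderingRel (c (-t)) (c t) ↔ ¬ WellOrderingRel (c t) (c (-t))) := by
    intro t ht
    constructor
    · intro h1 h2
      exact (asymm h1 h2)
    · intro h1
      rcases trichotomous_of WellOrderingRel (c t) (c (-t)) with h | h | h
      · exact absurd h h1
      · exact absurd h (hc t ht)
      · exact h
  refine ⟨fun t => WellOrderingRel (c t) (c (-t)), ?_, ?_⟩
  · intro t ht
    simp only [neg_neg]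
    exact key t ht
  · intro t ht
    simp only [hc2, hc3]
    exact key t ht

/-- There is a (non-measurable) perfect matching between the even and the odd levels along the folded lines. -/
theorem exists_matching (h : ℕ) (hh : 2 ≤ h) (H0 H1 : Set Ang)
    (h0 : ∀ θ, Good θ → (θ ∈ H0 ↔ -θ ∉ H0)) (h1 : ∀ θ, Good θ → (θ ∈ H1 ↔ one - θ ∉ H1)) :
    ∃ M : ℕ × Ang → ℕ × Ang,
      BijOn M {p | p ∈ FP h H0 H1 ∧ Even p.1} {p | p ∈ FP h H0 H1 ∧ Odd p.1} ∧
      ∀ p, p ∈ FP h H0 H1 → Even p.1 → Adj h p (M p) := by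
  obtain ⟨O, O1, O2⟩ := exists_orientation
  have O1' : ∀ t, Good t → ((fun t => ¬ O t) (-t) ↔ ¬ (fun t => ¬ O t) t) := by
    intro t ht
    exact not_congr (O1 t ht)
  have O2' : ∀ t, Good t → ((fun t => ¬ O t) (one - t) ↔ ¬ (fun t => ¬ O t) t) := by
    intro t ht
    exact not_congr (O2 t ht)
  have S := nxt_spec h hh H0 H1 h0 h1 O O1 O2
  have S' := nxt_spec h hh H0 H1 h0 h1 (fun t => ¬ O t) O1' O2'
  have hOO : (fun t => ¬ (fun t => ¬ O t) t) = O := by
    funext t
    simp
  rw [hOO] at S'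
  refine ⟨nxt h H0 H1 O, ?_, fun p hp _ => (S p hp).2.2.1⟩
  refine Set.InvOn.bijOn (f' := nxt h H0 H1 (fun t => ¬ O t)) ⟨?_, ?_⟩ ?_ ?_
  · intro p hp
    exact (S p hp.1).2.2.2
  · intro p hp
    exact (S' p hp.1).2.2.2
  · intro p hp
    exact ⟨(S p hp.1).1, (S p hp.1).2.1.1 hp.2⟩
  · intro p hp
    refine ⟨(S' p hp.1).1, ?_⟩
    have h3 := (S' p hp.1).2.1
    rcases Nat.even_or_odd (nxt h H0 H1 (fun t => ¬ O t) p).1 with h4 | h4
    · exact h4
    · exact absurd (h3.2 h4) (Nat.not_even_iff_odd.2 hp.2)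

end
end Gardner

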