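import Pool.Agent.Helper183.Gar.Defs
import Pool.Agent.Helper183.Gar.Sets

set_option autoImplicit false
open MeasureTheory Set
open scoped Real ComplexConjugate

namespace Gardner
noncomputable section

namespace Par
variable (P : Par)

end Par

theorem exists_pos_lt_finset {α : Type} (S : Finset α) (f : α → ℝ) (hf : ∀ x ∈ S, 0 < f x) :
    ∃ c : ℝ, 0 < c ∧ ∀ x ∈ S, c < f x := by
  classical
  induction S using Finset.induction_on with
  | empty => exact ⟨1, one_pos, fun x hx => absurd hx (Finset.notMem_empty _)⟩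
  | insert a S _ ih =>
    obtain ⟨c, hc, hcS⟩ := ih (fun x hx => hf x (Finset.mem_insert_of_mem hx))
    have ha := hf a (Finset.mem_insert_self _ _)
    refine ⟨min c (f a / 2), lt_min hc (by positivity), ?_⟩
    intro x hx
    rcases Finset.mem_insert.1 hx with rfl | hx
    · exact (min_le_right _ _).trans_lt (by linarith)
    · exact (min_le_left _ _).trans_lt (hcS x hx)

/-- decoded parameters -/
def pn (j : ℕ) : ℕ := (Nat.unpair (Nat.unpair (Nat.unpair j).1).1).1 + 2
/-- decoded parameters -/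
def pi' (j : ℕ) : ℕ := (Nat.unpair (Nat.unpair (Nat.unpair j).1).1).2
/-- decoded parameters -/
def pq (j : ℕ) : ℕ := (Nat.unpair (Nat.unpair j).1).2

/-- the properties of one stage -/
structure StepProp (j : ℕ) (s : ℝ) (x : ℝ × Set ℝ × ℝ × ℝ) : Prop where
  η_pos : 0 < x.1
  η_le : x.1 ≤ 1 / (j + 1)
  small : 4 * (j : ℝ) * ((2 * pi' j + pn j : ℕ) + 1) * x.1 ≤ (1/2 : ℝ) ^ (j + 3) * s
  W_meas : MeasurableSet x.2.1
  δ_pos : 0 < x.2.2.1
  dens : ∀ a b : ℝ, s ≤ b - a →
    volume (x.2.1 ∩ Icc a b) ≤ ENNReal.ofReal ((1/2 : ℝ) ^ (j + 3) * (b - a))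
  walls : WallProp
    (j * (2 * pi' j + pn j + 1) * ∑ j' ∈ Finset.range j, (2 * pi' j' + pn j' + 1)) x.1 x.2.1 x.2.2.1
  ρ_pos : 0 < x.2.2.2
  ρ_le_δ : x.2.2.2 ≤ x.2.2.1
  ρ_le_η : x.2.2.2 ≤ x.1
  ρ_le_s : x.2.2.2 ≤ s
  sep : ∀ k l : ℕ, k ≤ 2 * pi' j + pn j → l ≤ 2 * pi' j + pn j → k ≠ l →
    2 * x.2.2.2 < |ypos (pn j) (pi' j) k - ypos (pn j) (pi' j) l|

theorem exists_step
    (ypos_inj : ∀ n i k l : ℕ, 1 ≤ n → k ≤ 2 * i + n → l ≤ 2 * i + n → ypos n i k = ypos n i l → k = l)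
    (exists_walls : ∀ (N : ℕ) (η ε s : ℝ), 0 < η → 0 < ε → 0 < s →
      ∃ (W : Set ℝ) (δ : ℝ), MeasurableSet W ∧ 0 < δ ∧
        (∀ a b : ℝ, s ≤ b - a → volume (W ∩ Icc a b) ≤ ENNReal.ofReal (ε * (b - a))) ∧
        WallProp N η W δ) (j : ℕ) (s : ℝ) (hs : 0 < s) : ∃ x, StepProp j s x := by
  set η : ℝ := min (1 / ((j : ℝ) + 1))
    ((1/2 : ℝ) ^ (j + 3) * s / (4 * ((j : ℝ) + 1) * ((2 * pi' j + pn j : ℕ) + 1))) with hη
  have hη0 : 0 < η := lt_min (by positivity) (by positivity)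
  obtain ⟨W, δ, h1, h2, h3, h4⟩ := exists_walls
    (j * (2 * pi' j + pn j + 1) * ∑ j' ∈ Finset.range j, (2 * pi' j' + pn j' + 1)) η
    ((1/2 : ℝ) ^ (j + 3)) s hη0 (by positivity) hs
  obtain ⟨c, hc, hcS⟩ := exists_pos_lt_finset (Finset.range (2 * pi' j + pn j + 1)).offDiag
    (fun z => |ypos (pn j) (pi' j) z.1 - ypos (pn j) (pi' j) z.2|) (by
      intro z hz
      rw [Finset.mem_offDiag, Finset.mem_range, Finset.mem_range] at hz
      rw [abs_pos, sub_ne_zero]
      intro he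
      exact hz.2.2 (ypos_inj _ _ _ _ (by unfold pn; omega) (by omega) (by omega) he))
  refine ⟨(η, W, δ, min (min δ η) (min s (c / 2))), ?_⟩
  constructor
  · exact hη0
  · exact min_le_left _ _
  · have h5 : η ≤ (1/2 : ℝ) ^ (j + 3) * s / (4 * ((j : ℝ) + 1) * ((2 * pi' j + pn j : ℕ) + 1)) :=
      min_le_right _ _
    rw [le_div_iff₀ (by positivity)] at h5
    have h6 : 4 * (j : ℝ) * ((2 * pi' j + pn j : ℕ) + 1) * η ≤
        η * (4 * ((j : ℝ) + 1) * ((2 * pi' j + pn j : ℕ) + 1)) := by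
      have : 0 ≤ 4 * (((2 * pi' j + pn j : ℕ) : ℝ) + 1) * η := by positivity
      nlinarith
    exact h6.trans h5
  · exact h1
  · exact h2
  · exact h3
  · exact h4
  · exact lt_min (lt_min h2 hη0) (lt_min hs (by positivity))
  · exact (min_le_left _ _).trans (min_le_left _ _)
  · exact (min_le_left _ _).trans (min_le_right _ _)
  · exact (min_le_right _ _).trans (min_le_left _ _)
  · intro k l hk hl hkl
    have h5 := hcS (k, l) (by
      rw [Finset.mem_offDiag, Finset.mem_range, Finset.mem_range]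
      exact ⟨by omega, by omega, hkl⟩)
    have h6 : min (min δ η) (min s (c / 2)) ≤ c / 2 := (min_le_right _ _).trans (min_le_right _ _)
    show 2 * min (min δ η) (min s (c / 2)) < _
    simp only at h5
    linarith

/-- the parameters exist (recursion on the stage) -/
theorem exists_par
    (ypos_inj : ∀ n i k l : ℕ, 1 ≤ n → k ≤ 2 * i + n → l ≤ 2 * i + n → ypos n i k = ypos n i l → k = l)
    (exists_walls : ∀ (N : ℕ) (η ε s : ℝ), 0 < η → 0 < ε → 0 < s →
      ∃ (W : Set ℝ) (δ : ℝ), MeasurableSet W ∧ 0 < δ ∧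
        (∀ a b : ℝ, s ≤ b - a → volume (W ∩ Icc a b) ≤ ENNReal.ofReal (ε * (b - a))) ∧
        WallProp N η W δ) :
    Nonempty Par := by
  choose! f hf using exists_step ypos_inj exists_walls
  set r : ℕ → ℝ := fun j => Nat.rec (motive := fun _ => ℝ) 1 (fun j s => (f j s).2.2.2) j with hr
  have hr1 : ∀ j, r (j + 1) = (f j (r j)).2.2.2 := fun j => rfl
  have hr0 : ∀ j, 0 < r j := by
    intro j
    induction j with
    | zero => exact one_pos
    | succ j ih => rw [hr1]; exact (hf j (r j) ih).ρ_pos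
  have hanti : Antitone r := by
    apply antitone_nat_of_succ_le
    intro j
    rw [hr1]
    exact (hf j (r j) (hr0 j)).ρ_le_s
  have H := fun j => hf j (r j) (hr0 j)
  refine ⟨{ n := pn, i := pi', q := pq, η := fun j => (f j (r j)).1, δ := fun j => (f j (r j)).2.2.1,
            ρ := fun j => r (j + 1), W := fun j => (f j (r j)).2.1, two_le_n := ?_, rep := ?_,
            η_pos := fun j => (H j).η_pos, η_le := fun j => (H j).η_le, δ_pos := fun j => (H j).δ_pos,
            ρ_pos := fun j => hr0 (j + 1), ρ_le_δ := fun j => (H j).ρ_le_δ, ρ_le_η := fun j => (H j).ρ_le_η,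
            sep := fun j => (H j).sep, W_meas := fun j => (H j).W_meas, dens := ?_, small := ?_,
            walls := fun j => (H j).walls }⟩
  · intro j
    unfold pn
    omega
  · intro n' i' q' J hn'
    refine ⟨Nat.pair (Nat.pair (Nat.pair (n' - 2) i') q') J, Nat.right_le_pair _ _, ?_, ?_, ?_⟩
    · simp only [pn, Nat.unpair_pair]
      omega
    · simp only [pi', Nat.unpair_pair]
    · simp only [pq, Nat.unpair_pair]
  · intro j j' hjj a b hab
    exact (H j').dens a b ((hanti (by omega : j + 1 ≤ j')).trans hab)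
  · intro j j' hjj
    refine (H j').small.trans ?_
    have := hanti (by omega : j + 1 ≤ j')
    gcongr

end
end Gardner

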