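import Pool.Agent.Helper183.Gar.Defs
import Pool.Agent.Helper183.Gar.Sets
import Pool.Agent.Helper183.Gar.Polar

set_option autoImplicit false
open MeasureTheory Set
open scoped Real ComplexConjugate

namespace Gardner
noncomputable section

namespace Par
variable (P : Par)

end Par

namespace Par
variable (P : Par)

end Par

/-- no equidecomposition with measurable pieces -/
theorem final (P : Par)
    (isolation : ∀ {ι : Type} [Fintype ι] (g : ι → E ≃ᵢ E),
      ∃ (j : ℕ) (Zs Rs : Set ℝ), MeasurableSet Zs ∧ MeasurableSet Rs ∧ volume Zs ≠ 0 ∧ volume Rs ≠ 0 ∧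
        Zs ⊆ P.Z j ∧ Rs ⊆ P.R j ∧
        ∃ (s : ι → Bool) (m : ι → ℤ), ∀ (t : ι) (k : ℕ), k ≤ P.h j → ∀ z ∈ Zs, ∀ v : ℂ, ‖v‖ ∈ Rs →
          g t (mk (P.x j k + v) z) ∈ P.A ∪ P.B →
          ∃ l ≤ P.h j, g t (mk (P.x j k + v) z) =
            mk (P.x j l + Complex.exp (m t * Complex.I) * cj (s t) v) z)
    (ae_slice : ∀ (S : Set E), NullMeasurableSet S volume → ∀ c : ℂ,
      ∀ᵐ q : ℝ × ℝ ∂(volume : Measure (ℝ × ℝ)), 0 < q.2 →
        NullMeasurableSet {θ : Ang | mk (c + (q.2 : ℂ) * e θ) q.1 ∈ S} volume)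
    (no_measurable_matching : ∀ (h : ℕ), 1 ≤ h → ∀ (H0 H1 : Set Ang),
      MeasurableSet H0 → MeasurableSet H1 →
      (∀ θ, Good θ → (θ ∈ H0 ↔ -θ ∉ H0)) → (∀ θ, Good θ → (θ ∈ H1 ↔ one - θ ∉ H1)) →
      ∀ M : ℕ × Ang → ℕ × Ang,
      BijOn M {p | p ∈ FP h H0 H1 ∧ Even p.1} {p | p ∈ FP h H0 H1 ∧ Odd p.1} →
      ∀ B : ℕ,
      (∀ p, p ∈ FP h H0 H1 → Even p.1 →
        ∃ m : ℤ, |m| ≤ B ∧ ((M p).2 = p.2 + m • one ∨ (M p).2 = -p.2 + m • one)) →
      (∀ k l : ℕ, Even k → ∀ m : ℤ,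
        NullMeasurableSet {θ : Ang | (k, θ) ∈ FP h H0 H1 ∧ M (k, θ) = (l, θ + m • one)} volume ∧
        NullMeasurableSet {θ : Ang | (k, θ) ∈ FP h H0 H1 ∧ M (k, θ) = (l, -θ + m • one)} volume) →
      False)
    (N : ℕ) (Pc : Fin N → Set E) (g : Fin N → E ≃ᵢ E)
    (hm : ∀ i, NullMeasurableSet (Pc i) volume)
    (hA : (⋃ i, Pc i) = P.A) (hd : Pairwise (fun i j => Disjoint (Pc i) (Pc j)))
    (hB : (⋃ i, (⇑(g i)) '' (Pc i)) = P.B)
    (hd' : Pairwise (fun i j => Disjoint ((⇑(g i)) '' (Pc i)) ((⇑(g j)) '' (Pc j)))) :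
    False := by
  obtain ⟨j, Zs, Rs, hZsm, hRsm, hZs0, hRs0, hZs, hRs, s, m, hiso⟩ :=
    isolation (Sum.elim g (fun i => (g i).symm))
  obtain ⟨h, hh⟩ : ∃ h, h = P.h j := ⟨_, rfl⟩
  rw [← hh] at hiso
  have hh1 : 1 ≤ h := by
    have := P.two_le_n j
    rw [hh]; unfold Par.h; omega
  -- choose the fibre
  have hae : ∀ᵐ q : ℝ × ℝ ∂(volume : Measure (ℝ × ℝ)), ∀ (i : Fin N) (k : ℕ), 0 < q.2 →
      NullMeasurableSet {θ : Ang | mk (P.x j k + (q.2 : ℂ) * e θ) q.1 ∈ Pc i} volume := by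
    rw [ae_all_iff]; intro i
    rw [ae_all_iff]; intro k
    exact ae_slice (Pc i) (hm i) (P.x j k)
  obtain ⟨⟨z, r⟩, hzr, hzrS⟩ : ∃ q : ℝ × ℝ, q ∈ Zs ×ˢ Rs ∧ ∀ (i : Fin N) (k : ℕ), 0 < q.2 →
      NullMeasurableSet {θ : Ang | mk (P.x j k + (q.2 : ℂ) * e θ) q.1 ∈ Pc i} volume := by
    by_contra hcon
    push Not at hcon
    have h1 : (volume : Measure (ℝ × ℝ)) (Zs ×ˢ Rs) = 0 := by
      refine measure_mono_null ?_ hae
      intro q hq hq'
      obtain ⟨i, k, h2, h3⟩ := hcon q hq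
      exact h3 (hq' i k h2)
    rw [Measure.volume_eq_prod, Measure.prod_prod] at h1
    rcases mul_eq_zero.1 h1 with h2 | h2
    · exact hZs0 h2
    · exact hRs0 h2
  obtain ⟨hz, hr⟩ : z ∈ Zs ∧ r ∈ Rs := hzr
  have hzZ : z ∈ P.Z j := hZs hz
  have hrR : r ∈ P.R j := hRs hr
  have hr0 : 0 < r := hrR.1
  have hrρ : r < P.ρ j := hrR.2.1
  have hslice : ∀ (i : Fin N) (k : ℕ),
      NullMeasurableSet {θ : Ang | mk (P.x j k + (r : ℂ) * e θ) z ∈ Pc i} volume :=
    fun i k => hzrS i k hr0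
  obtain ⟨pt, hpt⟩ : ∃ pt : ℕ × Ang → E, ∀ p, pt p = mk (P.x j p.1 + (r : ℂ) * e p.2) z :=
    ⟨fun p => mk (P.x j p.1 + (r : ℂ) * e p.2) z, fun _ => rfl⟩
  have hinj : ∀ p q : ℕ × Ang, p.1 ≤ h → q.1 ≤ h → pt p = pt q → p = q := by
    intro p q hp hq hpq
    rw [hpt, hpt] at hpq
    have := polar_inj P j p.1 q.1 (by rw [← hh]; exact hp) (by rw [← hh]; exact hq) z z r r p.2 q.2
      hr0 hr0 hrρ hrρ hpq
    exact Prod.ext this.1 this.2.2.2
  have hcell : ∀ p : ℕ × Ang, p.1 ≤ h → (pt p ∈ P.cell j p.1 ↔ p ∈ FP h H0 H1) := by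
    intro p hp
    rw [hpt, cell_iff P j p.1 r z hr0 p.2]
    unfold FP
    rw [Set.mem_ofPred_eq, hh]
    rw [hh] at hp
    tauto
  have hcell' : ∀ (p : ℕ × Ang) (j' l' : ℕ), p.1 ≤ h → l' ≤ P.h j' → pt p ∈ P.cell j' l' →
      l' = p.1 ∧ p ∈ FP h H0 H1 := by
    intro p j' l' hp hl' hc
    have hzj' : z ∈ P.Z j' := by
      have := hc.1
      rwa [hpt, zc_mk] at this
    have hjj : j' = j := by
      rcases lt_trichotomy j j' with h1 | h1 | h1
      · exact absurd hzj'.2.2.1 (hzZ.2.2.2 j' h1)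
      · exact h1.symm
      · exact absurd hzZ.2.2.1 (hzj'.2.2.2 j h1)
    subst hjj
    obtain ⟨z', r', θ', a1, a2, a3, a4, a5, a6, a7⟩ := exists_polar P j' l' (pt p) hc
    have a8 := a7
    rw [hpt] at a8
    have a9 := polar_inj P j' p.1 l' (by rw [← hh]; exact hp) hl' z z' r r' p.2 θ'
      hr0 a3 hrρ a2.2.1 a8
    refine ⟨a9.1.symm, ?_⟩
    rw [← hcell p hp]
    rw [← a9.1] at hc
    exact hc
  have hAiff : ∀ p : ℕ × Ang, p.1 ≤ h → (pt p ∈ P.A ↔ p ∈ FP h H0 H1 ∧ Even p.1) := by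
    intro p hp
    constructor
    · rintro ⟨j', l', hl', hev, hc⟩
      obtain ⟨h1, h2⟩ := hcell' p j' l' hp hl' hc
      rw [h1] at hev
      exact ⟨h2, hev⟩
    · rintro ⟨h1, h2⟩
      exact ⟨j, p.1, by rw [← hh]; exact hp, h2, (hcell p hp).2 h1⟩
  have hBiff : ∀ p : ℕ × Ang, p.1 ≤ h → (pt p ∈ P.B ↔ p ∈ FP h H0 H1 ∧ Odd p.1) := by
    intro p hp
    constructor
    · rintro ⟨j', l', hl', hev, hc⟩
      obtain ⟨h1, h2⟩ := hcell' p j' l' hp hl' hc
      rw [h1] at hev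
      exact ⟨h2, hev⟩
    · rintro ⟨h1, h2⟩
      exact ⟨j, p.1, by rw [← hh]; exact hp, h2, (hcell p hp).2 h1⟩
  -- the form of the images
  have hform : ∀ (t : Fin N ⊕ Fin N) (p : ℕ × Ang), p.1 ≤ h →
      (Sum.elim g (fun i => (g i).symm) t) (pt p) ∈ P.A ∪ P.B →
      ∃ q : ℕ × Ang, q.1 ≤ h ∧ (Sum.elim g (fun i => (g i).symm) t) (pt p) = pt q ∧
        (q.2 = p.2 + m t • one ∨ q.2 = -p.2 + m t • one) := by
    intro t p hp hmem
    rw [hpt] at hmem
    obtain ⟨l, hl, hl2⟩ := hiso t p.1 hp z hz ((r : ℂ) * e p.2) (by rw [norm_re r hr0]; exact hr) hmem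
    rw [← hpt] at hl2
    cases hs : s t
    · refine ⟨(l, p.2 + m t • one), hl, ?_, Or.inl rfl⟩
      rw [hl2, hpt, hs]
      congr 1
      simp only [cj]
      rw [e_add, e_zsmul_one, if_neg (by simp)]
      ring
    · refine ⟨(l, -p.2 + m t • one), hl, ?_, Or.inr rfl⟩
      rw [hl2, hpt, hs]
      congr 1
      simp only [cj]
      rw [e_add, e_zsmul_one, if_pos trivial, map_mul, Complex.conj_ofReal, e_neg]
      ring
  have hkey : ∀ p : ℕ × Ang, ∃ q : ℕ × Ang, (p ∈ FP h H0 H1 ∧ Even p.1) →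
      ∃ i : Fin N, pt p ∈ Pc i ∧ g i (pt p) = pt q ∧ q.1 ≤ h ∧ q ∈ FP h H0 H1 ∧ Odd q.1 ∧
        (q.2 = p.2 + m (Sum.inl i) • one ∨ q.2 = -p.2 + m (Sum.inl i) • one) := by
    intro p
    by_cases hp : p ∈ FP h H0 H1 ∧ Even p.1
    swap
    · exact ⟨p, fun h' => absurd h' hp⟩
    have hph : p.1 ≤ h := hp.1.1
    have h1 : pt p ∈ P.A := (hAiff p hph).2 hp
    rw [← hA] at h1
    obtain ⟨i, hi⟩ := Set.mem_iUnion.1 h1
    have h2 : g i (pt p) ∈ P.B := by
      rw [← hB]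
      exact Set.mem_iUnion.2 ⟨i, Set.mem_image_of_mem _ hi⟩
    obtain ⟨q, hq1, hq2, hq3⟩ := hform (Sum.inl i) p hph (Or.inr h2)
    have hq2' : g i (pt p) = pt q := hq2
    rw [hq2'] at h2
    have h3 := (hBiff q hq1).1 h2
    exact ⟨q, fun _ => ⟨i, hi, hq2', hq1, h3.1, h3.2, hq3⟩⟩
  choose M hM using hkey
  -- uniqueness of the piece
  have huniq : ∀ (x : E) (i i' : Fin N), x ∈ Pc i → x ∈ Pc i' → i = i' := by
    intro x i i' h1 h2
    by_contra hne
    exact Set.disjoint_left.1 (hd hne) h1 h2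
  have huniq' : ∀ (x y : E) (i i' : Fin N), x ∈ Pc i → y ∈ Pc i' → g i x = g i' y → i = i' := by
    intro x y i i' h1 h2 h3
    by_contra hne
    refine Set.disjoint_left.1 (hd' hne) (Set.mem_image_of_mem _ h1) ?_
    rw [h3]
    exact Set.mem_image_of_mem _ h2
  have hbij : BijOn M {p | p ∈ FP h H0 H1 ∧ Even p.1} {p | p ∈ FP h H0 H1 ∧ Odd p.1} := by
    refine ⟨?_, ?_, ?_⟩
    · intro p hp
      obtain ⟨i, _, _, _, h1, h2, _⟩ := hM p hp
      exact ⟨h1, h2⟩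
    · intro p hp q hq hpq
      obtain ⟨i, a1, a2, a3, -, -, -⟩ := hM p hp
      obtain ⟨i', b1, b2, b3, -, -, -⟩ := hM q hq
      have h1 : g i (pt p) = g i' (pt q) := by rw [a2, b2, hpq]
      have h2 := huniq' _ _ i i' a1 b1 h1
      subst h2
      exact hinj p q hp.1.1 hq.1.1 ((g i).injective h1)
    · intro q hq
      have hqh : q.1 ≤ h := hq.1.1
      have h1 : pt q ∈ P.B := (hBiff q hqh).2 hq
      rw [← hB] at h1
      obtain ⟨i, x, hx, hx2⟩ := Set.mem_iUnion.1 h1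
      have hx3 : (g i).symm (pt q) = x := by rw [← hx2]; exact (g i).symm_apply_apply x
      have hxA : x ∈ P.A := by rw [← hA]; exact Set.mem_iUnion.2 ⟨i, hx⟩
      obtain ⟨p, hp1, hp2, -⟩ := hform (Sum.inr i) q hqh (Or.inl (by
        show (g i).symm (pt q) ∈ P.A
        rw [hx3]; exact hxA))
      have hp2' : (g i).symm (pt q) = pt p := hp2
      rw [hx3] at hp2'
      have hp3 : p ∈ FP h H0 H1 ∧ Even p.1 := (hAiff p hp1).1 (by rw [← hp2']; exact hxA)
      refine ⟨p, hp3, ?_⟩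
      obtain ⟨i', a1, a2, a3, -, -, -⟩ := hM p hp3
      have h4 : i' = i := huniq (pt p) i' i a1 (by rw [← hp2']; exact hx)
      subst h4
      rw [← hp2', hx2] at a2
      exact (hinj q (M p) hqh a3 a2).symm
  -- continuity of pt
  have hiso_mk : ∀ w : ℝ, Continuous (fun x : ℂ => mk x w) := by
    intro w
    have : Isometry (fun x : ℂ => mk x w) := by
      apply Isometry.of_dist_eq
      intro x y
      rw [dist_mk_same_z, dist_eq_norm]
    exact this.continuous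
  have hptc : ∀ (l : ℕ) (f : Ang → Ang), Continuous f → Continuous (fun θ => pt (l, f θ)) := by
    intro l f hf
    have h1 : (fun θ => pt (l, f θ)) = (fun x : ℂ => mk x z) ∘ (fun θ => P.x j l + (r : ℂ) * e (f θ)) := by
      funext θ
      rw [hpt]; rfl
    rw [h1]
    exact (hiso_mk z).comp (continuous_const.add (continuous_const.mul (continuous_e.comp hf)))
  have hFPm : ∀ k : ℕ, MeasurableSet {θ : Ang | (k, θ) ∈ FP h H0 H1} := by
    intro k
    have hGood : MeasurableSet {θ : Ang | Good θ} := by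
      have h1 : {θ : Ang | Good θ} = ⋂ m : ℤ, {θ : Ang | θ + θ ≠ m • one} := by
        ext θ
        rw [Set.mem_iInter]
        rfl
      rw [h1]
      refine MeasurableSet.iInter fun m => ?_
      exact (isOpen_ne_fun (continuous_id.add continuous_id) continuous_const).measurableSet
    have h2 : {θ : Ang | (k, θ) ∈ FP h H0 H1} = {θ : Ang | k ≤ h} ∩ ({θ : Ang | Good θ} ∩
        ({θ : Ang | k = 0 → θ ∈ H0} ∩ {θ : Ang | k = h → θ ∈ H1})) := by
      ext θ
      rfl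
    rw [h2]
    refine (MeasurableSet.const _).inter (hGood.inter (MeasurableSet.inter ?_ ?_))
    · by_cases hk : k = 0
      · have : {θ : Ang | k = 0 → θ ∈ H0} = H0 := by
          ext θ; exact ⟨fun h' => h' hk, fun h' _ => h'⟩
        rw [this]; exact measurable_H0
      · have : {θ : Ang | k = 0 → θ ∈ H0} = Set.univ := by
          ext θ; exact ⟨fun _ => trivial, fun _ h' => absurd h' hk⟩
        rw [this]; exact MeasurableSet.univ
    · by_cases hk : k = h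
      · have : {θ : Ang | k = h → θ ∈ H1} = H1 := by
          ext θ; exact ⟨fun h' => h' hk, fun h' _ => h'⟩
        rw [this]; exact measurable_H1
      · have : {θ : Ang | k = h → θ ∈ H1} = Set.univ := by
          ext θ; exact ⟨fun _ => trivial, fun _ h' => absurd h' hk⟩
        rw [this]; exact MeasurableSet.univ
  have hmeas : ∀ (k l : ℕ), Even k → ∀ f : Ang → Ang, Continuous f →
      NullMeasurableSet {θ : Ang | (k, θ) ∈ FP h H0 H1 ∧ M (k, θ) = (l, f θ)} volume := by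
    intro k l hk f hf
    by_cases hl : l ≤ h
    · have h1 : {θ : Ang | (k, θ) ∈ FP h H0 H1 ∧ M (k, θ) = (l, f θ)} =
          {θ : Ang | (k, θ) ∈ FP h H0 H1} ∩ ⋃ i : Fin N,
            ({θ : Ang | mk (P.x j k + (r : ℂ) * e θ) z ∈ Pc i} ∩
              {θ : Ang | g i (pt (k, θ)) = pt (l, f θ)}) := by
        ext θ
        rw [Set.mem_inter_iff, Set.mem_iUnion]
        constructor
        · rintro ⟨h2, h3⟩
          refine ⟨h2, ?_⟩
          obtain ⟨i, a1, a2, a3, -, -, -⟩ := hM (k, θ) ⟨h2, hk⟩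
          refine ⟨i, ?_, ?_⟩
          · rw [hpt] at a1; exact a1
          · show g i (pt (k, θ)) = pt (l, f θ)
            rw [a2, h3]
        · rintro ⟨h2, i, h3, h4⟩
          refine ⟨h2, ?_⟩
          obtain ⟨i', a1, a2, a3, -, -, -⟩ := hM (k, θ) ⟨h2, hk⟩
          have h5 : i' = i := huniq (pt (k, θ)) i' i a1 (by rw [hpt]; exact h3)
          subst h5
          have h6 : g i' (pt (k, θ)) = pt (l, f θ) := h4
          rw [a2] at h6
          exact hinj _ _ a3 hl h6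
      rw [h1]
      refine (hFPm k).nullMeasurableSet.inter (NullMeasurableSet.iUnion fun i => ?_)
      refine (hslice i k).inter ?_
      exact (isClosed_eq ((g i).continuous.comp (hptc k id continuous_id))
        (hptc l f hf)).measurableSet.nullMeasurableSet
    · have h1 : {θ : Ang | (k, θ) ∈ FP h H0 H1 ∧ M (k, θ) = (l, f θ)} = ∅ := by
        ext θ
        constructor
        · rintro ⟨h2, h3⟩
          obtain ⟨i, a1, a2, a3, -, -, -⟩ := hM (k, θ) ⟨h2, hk⟩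
          rw [h3] at a3
          exact hl a3
        · intro h'; exact absurd h' (Set.notMem_empty θ)
      rw [h1]
      exact MeasurableSet.empty.nullMeasurableSet
  refine no_measurable_matching h hh1 H0 H1 measurable_H0 measurable_H1 H0_iff H1_iff M hbij
    (∑ i : Fin N, |m (Sum.inl i)|).toNat ?_ ?_
  · intro p hp hev
    obtain ⟨i, a1, a2, a3, -, -, a4⟩ := hM p ⟨hp, hev⟩
    refine ⟨m (Sum.inl i), ?_, a4⟩
    have h1 : |m (Sum.inl i)| ≤ ∑ i : Fin N, |m (Sum.inl i)| :=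
      Finset.single_le_sum (f := fun i => |m (Sum.inl i)|) (fun _ _ => abs_nonneg _)
        (Finset.mem_univ i)
    exact h1.trans (Int.self_le_toNat _)
  · intro k l hk m'
    exact ⟨hmeas k l hk (fun θ => θ + m' • one) (continuous_id.add continuous_const),
      hmeas k l hk (fun θ => -θ + m' • one) (continuous_neg.add continuous_const)⟩

end
end Gardner

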