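import Pool.Agent.Helper183.Gar.Defs
import Pool.Agent.Helper183.Gar.Sets
import Pool.Agent.Helper183.Gar.GAmen

set_option autoImplicit false
open MeasureTheory Set
open scoped Real ComplexConjugate

namespace Gardner
noncomputable section

namespace Par
variable (P : Par)

end Par

lemma wall_of_card {N : ℕ} {η : ℝ} {W : Set ℝ} {δ : ℝ} (h : WallProp N η W δ)
    {C : Type} [Fintype C] (hC : Fintype.card C ≤ N) (a : ℝ) (q : C → ℝ → E) (ξ : C → ℂ)
    (hq : ∀ i, ∃ u v : E, ‖u‖ = 1 ∧ ∀ t, q i t = v + t • u) :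
    ∃ z : ℝ, a + δ ≤ z ∧ z + δ ≤ a + η ∧ Icc (z - δ) (z + δ) ⊆ W ∧
      ∀ i, ∀ t ∈ Icc (z - δ) (z + δ), ∀ p : E, dist p (q i t) ≤ δ →
        zc p ∈ W ∨ ‖cx p - ξ i‖ ∈ W ∨ 1 ≤ ‖cx p - ξ i‖ := by
  classical
  obtain ⟨emb⟩ : Nonempty (C ↪ Fin N) :=
    Function.Embedding.nonempty_of_card_le (by rw [Fintype.card_fin]; exact hC)
  let u0 : E := EuclideanSpace.single 2 (1 : ℝ)
  have hu0 : ‖u0‖ = 1 := by simp [u0]
  obtain ⟨z, h1, h2, h3, h4⟩ := h a (Function.extend emb q (fun _ t => (0 : E) + t • u0))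
    (Function.extend emb ξ (fun _ => 0)) (by
      intro i
      by_cases hi : ∃ c, emb c = i
      · obtain ⟨c, rfl⟩ := hi
        rw [emb.injective.extend_apply]
        exact hq c
      · rw [Function.extend_apply' _ _ _ hi]
        exact ⟨u0, 0, hu0, fun t => rfl⟩)
  refine ⟨z, h1, h2, h3, fun i t ht p hp => ?_⟩
  have h5 := h4 (emb i) t ht p
  rw [emb.injective.extend_apply, emb.injective.extend_apply] at h5
  exact h5 hp

lemma pos_measure (I : Set ℝ) (L : ℝ) (hL : 0 < L) (hI : volume I = ENNReal.ofReal L) (U : ℕ → Set ℝ)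
    (hU : ∀ n : ℕ, volume (U n) ≤ ENNReal.ofReal ((1/2 : ℝ) ^ (n + 3) * (2 * L))) :
    volume (I \ ⋃ n, U n) ≠ 0 := by
  intro h0
  have h1 : volume I ≤ volume (I \ ⋃ n, U n) + volume (⋃ n, U n) := by
    refine le_trans (measure_mono ?_) (measure_union_le _ _)
    intro x hx
    by_cases hx' : x ∈ ⋃ n, U n
    · exact Or.inr hx'
    · exact Or.inl ⟨hx, hx'⟩
  rw [h0, zero_add, hI] at h1
  have h2 : volume (⋃ n, U n) ≤ ENNReal.ofReal (L / 2) := by
    refine le_trans (measure_iUnion_le _) ?_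
    refine le_trans (ENNReal.tsum_le_tsum hU) ?_
    have hs : HasSum (fun n : ℕ => (1/2 : ℝ) ^ (n + 3) * (2 * L)) (L / 2) := by
      have h3 : HasSum (fun n : ℕ => (1/2 : ℝ) ^ n) 2 := hasSum_geometric_two
      have h4 := (h3.mul_right ((1/2 : ℝ) ^ 3 * (2 * L)))
      have h5 : (fun n : ℕ => (1/2 : ℝ) ^ (n + 3) * (2 * L)) = fun n : ℕ => (1/2 : ℝ) ^ n * ((1/2 : ℝ) ^ 3 * (2 * L)) := by
        funext n
        rw [pow_add]
        ring
      rw [h5]
      have h6 : L / 2 = 2 * ((1/2 : ℝ) ^ 3 * (2 * L)) := by ring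
      rw [h6]
      exact h4
    rw [← ENNReal.ofReal_tsum_of_nonneg (fun n => by positivity) hs.summable, hs.tsum_eq]
  have h3 := le_trans h1 h2
  rw [ENNReal.ofReal_le_ofReal_iff (by positivity)] at h3
  linarith

lemma exists_lower {α : Type} [Finite α] (f : α → ℝ) (hf : ∀ a, 0 < f a) :
    ∃ d > 0, ∀ a, d ≤ f a := by
  rcases isEmpty_or_nonempty α with h | h
  · exact ⟨1, one_pos, fun a => (h.false a).elim⟩
  · obtain ⟨a, ha⟩ := Finite.exists_min f
    exact ⟨f a, hf a, ha⟩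

lemma dist_cell (p : E) (x : ℂ) (z : ℝ) : dist p (mk x z) ≤ ‖cx p - x‖ + |zc p - z| := by
  have h1 : dist p (mk x (zc p)) = ‖cx p - x‖ := by
    conv_lhs => rw [← mk_cx_zc p]
    rw [zc_mk]
    exact dist_mk_same_z _ _ _
  calc dist p (mk x z) ≤ dist p (mk x (zc p)) + dist (mk x (zc p)) (mk x z) := dist_triangle _ _ _
    _ = _ := by rw [h1, dist_mk_same_x]

/-- Isolation: for every finite family of isometries of space there is a stage with positive measure sets of heights and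
radii on which the isometries map the fibre into `A ∪ B` only along the lines. -/
theorem isolation (P : Par)
    (exists_path : ∀ {ι : Type} [Finite ι] (c : ι → Bool) (δ b : ι → ℂ), (∀ t, ‖δ t‖ = 1) →
      (∀ (t : ι) (m : ℤ), δ t ≠ Complex.exp (m * Complex.I)) →
      ∃ n i : ℕ, 2 ≤ n ∧ ∀ (t : ι) (k l : ℕ), k ≤ 2 * i + n → l ≤ 2 * i + n →
        δ t * cj (c t) (xpos n i k) + b t ≠ xpos n i l)
    (line_of_isometry : ∀ (g : E ≃ᵢ E) (x : ℂ), ∃ u v : E, ‖u‖ = 1 ∧ ∀ t : ℝ, g (mk x t) = v + t • u)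
    (rigid : ∀ (g : E ≃ᵢ E) (x x' : ℂ) (z₁ z₂ : ℝ), z₁ ≠ z₂ → g (mk x z₁) = mk x' z₁ → g (mk x z₂) = mk x' z₂ →
      ∃ δ b : ℂ, ‖δ‖ = 1 ∧
        ((∀ y z, g (mk y z) = mk (δ * y + b) z) ∨ (∀ y z, g (mk y z) = mk (δ * conj y + b) z)))
    {ι : Type} [Fintype ι] (g : ι → E ≃ᵢ E) :
    ∃ (j : ℕ) (Zs Rs : Set ℝ), MeasurableSet Zs ∧ MeasurableSet Rs ∧ volume Zs ≠ 0 ∧ volume Rs ≠ 0 ∧
      Zs ⊆ P.Z j ∧ Rs ⊆ P.R j ∧
      ∃ (s : ι → Bool) (m : ι → ℤ), ∀ (t : ι) (k : ℕ), k ≤ P.h j → ∀ z ∈ Zs, ∀ v : ℂ, ‖v‖ ∈ Rs →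
        g t (mk (P.x j k + v) z) ∈ P.A ∪ P.B →
        ∃ l ≤ P.h j, g t (mk (P.x j k + v) z) =
          mk (P.x j l + Complex.exp (m t * Complex.I) * cj (s t) v) z := by
  classical
  let Planar : ι → Prop := fun t => ∃ (δ b : ℂ) (c : Bool), ‖δ‖ = 1 ∧
    ∀ y z, g t (mk y z) = mk (δ * cj c y + b) z
  have hdata : ∀ t, ∃ (δ b : ℂ) (c : Bool), Planar t → ‖δ‖ = 1 ∧
      ∀ y z, g t (mk y z) = mk (δ * cj c y + b) z := by
    intro t
    by_cases h : Planar t
    · obtain ⟨δ, b, c, h1⟩ := h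
      exact ⟨δ, b, c, fun _ => h1⟩
    · exact ⟨0, 0, true, fun h' => absurd h' h⟩
  choose δf bf cf hpl using hdata
  obtain ⟨n', i', hn2, hpath⟩ := exists_path
    (ι := {t : ι // Planar t ∧ ∀ m : ℤ, δf t ≠ Complex.exp (m * Complex.I)})
    (fun t => cf t.1) (fun t => δf t.1) (fun t => bf t.1) (fun t => (hpl t.1 t.2.1).1)
    (fun t => t.2.2)
  -- choice of q'
  have hsub : ∀ t, ¬ Planar t → ∀ k l : ℕ,
      {q : ℕ | g t (mk (xpos n' i' k) (1 / ((q : ℝ) + 1))) = mk (xpos n' i' l) (1 / ((q : ℝ) + 1))}.Finite := by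
    intro t ht k l
    apply Set.Subsingleton.finite
    intro q1 hq1 q2 hq2
    by_contra hne
    apply ht
    have hz : (1 / ((q1 : ℝ) + 1)) ≠ 1 / ((q2 : ℝ) + 1) := by
      intro h
      apply hne
      have h1 : ((q1 : ℝ) + 1) ≠ 0 := by positivity
      have h2 : ((q2 : ℝ) + 1) ≠ 0 := by positivity
      rw [div_eq_div_iff h1 h2] at h
      have h3 : (q1 : ℝ) = q2 := by linarith
      exact_mod_cast h3
    obtain ⟨δ, b, hδ, h | h⟩ := rigid (g t) _ _ _ _ hz hq1 hq2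
    · exact ⟨δ, b, false, hδ, fun y z => by simpa [cj] using h y z⟩
    · exact ⟨δ, b, true, hδ, fun y z => by simpa [cj] using h y z⟩
  obtain ⟨q', hq'⟩ : ∃ q' : ℕ, ∀ t, ¬ Planar t → ∀ k ≤ 2 * i' + n', ∀ l ≤ 2 * i' + n',
      g t (mk (xpos n' i' k) (1 / ((q' : ℝ) + 1))) ≠ mk (xpos n' i' l) (1 / ((q' : ℝ) + 1)) := by
    have hfin : (⋃ t ∈ {t : ι | ¬ Planar t}, ⋃ k ∈ Set.Iic (2 * i' + n'), ⋃ l ∈ Set.Iic (2 * i' + n'),
        {q : ℕ | g t (mk (xpos n' i' k) (1 / ((q : ℝ) + 1))) = mk (xpos n' i' l) (1 / ((q : ℝ) + 1))}).Finite := by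
      apply Set.Finite.biUnion (Set.toFinite _)
      intro t ht
      apply Set.Finite.biUnion (Set.finite_Iic _)
      intro k _
      apply Set.Finite.biUnion (Set.finite_Iic _)
      intro l _
      exact hsub t ht k l
    obtain ⟨q', hq'⟩ := hfin.infinite_compl.nonempty
    refine ⟨q', fun t ht k hk l hl h => hq' ?_⟩
    simp only [Set.mem_iUnion]
    exact ⟨t, ht, k, hk, l, hl, h⟩
  -- choice of d
  obtain ⟨d, hd0, hd⟩ := exists_lower
    (α := ι × Fin (2 * i' + n' + 1) × Fin (2 * i' + n' + 1))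
    (fun a => if Planar a.1 then
        (if δf a.1 * cj (cf a.1) (xpos n' i' a.2.1) + bf a.1 - xpos n' i' a.2.2 = 0 then 1
          else ‖δf a.1 * cj (cf a.1) (xpos n' i' a.2.1) + bf a.1 - xpos n' i' a.2.2‖)
      else dist (g a.1 (mk (xpos n' i' a.2.1) (1 / ((q' : ℝ) + 1)))) (mk (xpos n' i' a.2.2) (1 / ((q' : ℝ) + 1))))
    (by
      rintro ⟨t, k, l⟩
      dsimp only
      split_ifs with h1 h2
      · exact one_pos
      · exact norm_pos_iff.2 h2
      · exact dist_pos.2 (hq' t h1 k (by omega) l (by omega)))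
  -- choice of j
  obtain ⟨j, hJ, hnj, hij, hqj⟩ := P.rep n' i' q' (max (Fintype.card ι) ⌈8 / d⌉₊) hn2
  subst hnj
  subst hij
  subst hqj
  have hcard : Fintype.card ι ≤ j := le_trans (le_max_left _ _) hJ
  have hηd : 8 * P.η j < d := by
    have h1 : (8 / d : ℝ) ≤ j := le_trans (Nat.le_ceil _) (by exact_mod_cast le_trans (le_max_right _ _) hJ)
    have h2 := P.η_le j
    have h3 : (0 : ℝ) < (j : ℝ) + 1 := by positivity
    rw [div_le_iff₀ hd0] at h1
    have h4 : P.η j * (j + 1) ≤ 1 := by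
      rw [le_div_iff₀ h3] at h2
      exact h2
    have h5 := P.η_pos j
    nlinarith
  have hη0 := P.η_pos j
  have hρ0 := P.ρ_pos j
  have hδ0 := P.δ_pos j
  have hρδ := P.ρ_le_δ j
  have hρη := P.ρ_le_η j
  -- walls
  let C := ι × Fin (P.h j + 1) × (Σ j' : Fin j, Fin (P.h j' + 1))
  have hCcard : Fintype.card C ≤ j * (2 * P.i j + P.n j + 1) *
      ∑ j' ∈ Finset.range j, (2 * P.i j' + P.n j' + 1) := by
    have h1 : Fintype.card C = Fintype.card ι * ((P.h j + 1) * ∑ j' : Fin j, (P.h j' + 1)) := by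
      simp [C, Fintype.card_prod, Fintype.card_sigma]
    have h2 : ∑ j' ∈ Finset.range j, (2 * P.i j' + P.n j' + 1) = ∑ j' : Fin j, (P.h j' + 1) := by
      rw [Finset.sum_range]
      rfl
    rw [h1, h2, mul_assoc]
    exact Nat.mul_le_mul_right _ hcard
  obtain ⟨zs, hzs1, hzs2, hzs3, hzs4⟩ := wall_of_card (P.walls j) hCcard (P.ζ j)
    (fun c z => g c.1 (mk (P.x j c.2.1) z)) (fun c => P.x c.2.2.1 c.2.2.2)
    (fun c => line_of_isometry (g c.1) (P.x j c.2.1))
  -- the sets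
  let ctr : ι → ℕ → ℕ → ℝ := fun t j' l => zc ((g t).symm (mk (P.x j' l) (P.ζ j')))
  let Bad : ℕ → Set ℝ := fun j' => ⋃ t : ι, ⋃ l ∈ Finset.range (P.h j' + 1),
    Icc (ctr t j' l - 2 * P.η j') (ctr t j' l + 2 * P.η j')
  have hBadm : ∀ j', MeasurableSet (Bad j') := fun j' =>
    MeasurableSet.iUnion fun t => Finset.measurableSet_biUnion _ fun l _ => measurableSet_Icc
  let U : ℕ → Set ℝ := fun n => if j < n then (P.W n ∩ Icc (zs - P.δ j) (zs + P.δ j)) ∪ Bad n else ∅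
  let U' : ℕ → Set ℝ := fun n => if j < n then P.W n ∩ Icc 0 (P.ρ j) else ∅
  have hUm : ∀ n, MeasurableSet (U n) := by
    intro n
    dsimp only [U]
    split_ifs
    · exact ((P.W_meas n).inter measurableSet_Icc).union (hBadm n)
    · exact MeasurableSet.empty
  have hUm' : ∀ n, MeasurableSet (U' n) := by
    intro n
    dsimp only [U']
    split_ifs
    · exact (P.W_meas n).inter measurableSet_Icc
    · exact MeasurableSet.empty
  have hBadvol : ∀ n, j < n → volume (Bad n) ≤ ENNReal.ofReal ((1/2 : ℝ) ^ (n + 3) * P.ρ j) := by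
    intro n hn
    have h1 : volume (Bad n) ≤ ∑ t : ι, ∑ l ∈ Finset.range (P.h n + 1), ENNReal.ofReal (4 * P.η n) := by
      refine le_trans (measure_iUnion_le _) ?_
      rw [tsum_fintype]
      apply Finset.sum_le_sum
      intro t _
      refine le_trans (measure_biUnion_finset_le _ _) ?_
      apply Finset.sum_le_sum
      intro l _
      rw [Real.volume_Icc]
      apply ENNReal.ofReal_le_ofReal
      linarith
    refine le_trans h1 ?_
    rw [Finset.sum_const, Finset.sum_const, Finset.card_univ, Finset.card_range, smul_smul,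
      nsmul_eq_mul, ← ENNReal.ofReal_natCast, ← ENNReal.ofReal_mul (by positivity)]
    apply ENNReal.ofReal_le_ofReal
    refine le_trans ?_ (P.small j n hn)
    have h2 : (Fintype.card ι : ℝ) ≤ n := by exact_mod_cast le_trans hcard hn.le
    have h3 := P.η_pos n
    have h4 : ((2 * P.i n + P.n n : ℕ) : ℝ) = (P.h n : ℝ) := rfl
    rw [h4]
    push_cast
    have h5 : (0 : ℝ) ≤ (P.h n : ℝ) + 1 := by positivity
    have h6 : (Fintype.card ι : ℝ) * ((P.h n : ℝ) + 1) ≤ n * ((P.h n : ℝ) + 1) :=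
      mul_le_mul_of_nonneg_right h2 h5
    nlinarith
  have hUvol : ∀ n : ℕ, volume (U n) ≤ ENNReal.ofReal ((1/2 : ℝ) ^ (n + 3) * (2 * (2 * P.δ j))) := by
    intro n
    dsimp only [U]
    split_ifs with hn
    · refine le_trans (measure_union_le _ _) ?_
      have h1 := P.dens j n hn (zs - P.δ j) (zs + P.δ j) (by linarith)
      have h2 := hBadvol n hn
      refine le_trans (add_le_add h1 h2) ?_
      rw [← ENNReal.ofReal_add (by
        have : 0 ≤ zs + P.δ j - (zs - P.δ j) := by linarith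
        positivity) (by positivity)]
      apply ENNReal.ofReal_le_ofReal
      have h3 : (0 : ℝ) < (1/2 : ℝ) ^ (n + 3) := by positivity
      nlinarith
    · simp
  have hUvol' : ∀ n : ℕ, volume (U' n) ≤ ENNReal.ofReal ((1/2 : ℝ) ^ (n + 3) * (2 * P.ρ j)) := by
    intro n
    dsimp only [U']
    split_ifs with hn
    · refine le_trans (P.dens j n hn 0 (P.ρ j) (by linarith)) ?_
      apply ENNReal.ofReal_le_ofReal
      have h3 : (0 : ℝ) < (1/2 : ℝ) ^ (n + 3) := by positivity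
      nlinarith
    · simp
  have hnotU : ∀ z ∈ Icc (zs - P.δ j) (zs + P.δ j) \ ⋃ n, U n, ∀ n, j < n → z ∉ P.W n ∧ z ∉ Bad n := by
    rintro z ⟨hz, hzU⟩ n hn
    have h1 : z ∉ U n := fun h => hzU (Set.mem_iUnion.2 ⟨n, h⟩)
    dsimp only [U] at h1
    rw [if_pos hn] at h1
    exact ⟨fun h => h1 (Or.inl ⟨h, hz⟩), fun h => h1 (Or.inr h)⟩
  have hnotU' : ∀ r ∈ Ioo 0 (P.ρ j) \ ⋃ n, U' n, ∀ n, j < n → r ∉ P.W n := by
    rintro r ⟨hr, hrU⟩ n hn h
    apply hrU
    refine Set.mem_iUnion.2 ⟨n, ?_⟩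
    dsimp only [U']
    rw [if_pos hn]
    exact ⟨h, ⟨hr.1.le, hr.2.le⟩⟩
  refine ⟨j, Icc (zs - P.δ j) (zs + P.δ j) \ ⋃ n, U n, Ioo 0 (P.ρ j) \ ⋃ n, U' n,
    measurableSet_Icc.diff (MeasurableSet.iUnion hUm), measurableSet_Ioo.diff (MeasurableSet.iUnion hUm'),
    pos_measure _ (2 * P.δ j) (by positivity) (by rw [Real.volume_Icc]; congr 1; ring) U hUvol,
    pos_measure _ (P.ρ j) hρ0 (by rw [Real.volume_Ioo]; congr 1; ring) U' hUvol', ?_, ?_, cf,
    fun t => if h : ∃ m : ℤ, δf t = Complex.exp (m * Complex.I) then h.choose else 0, ?_⟩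
  · intro z hz
    have h1 := hz.1
    exact ⟨by linarith [h1.1], by linarith [h1.2], hzs3 h1, fun j' hj' => (hnotU z hz j' hj').1⟩
  · intro r hr
    exact ⟨hr.1.1, hr.1.2, fun j' hj' => hnotU' r hr j' hj'⟩
  · intro t k hk z hz v hv hmem
    have hv1 : 0 < ‖v‖ := hv.1.1
    have hv2 : ‖v‖ < P.ρ j := hv.1.2
    have hzI := hz.1
    have hzζ1 : P.ζ j ≤ z := by linarith [hzI.1]
    have hzζ2 : z ≤ P.ζ j + P.η j := by linarith [hzI.2]
    set p := g t (mk (P.x j k + v) z) with hp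
    have hpd : dist p (g t (mk (P.x j k) z)) = ‖v‖ := by
      rw [hp, (g t).dist_eq, dist_mk_same_z]
      simp
    obtain ⟨j', l, hl, hcell⟩ : ∃ j' l : ℕ, l ≤ P.h j' ∧ p ∈ P.cell j' l := by
      rcases hmem with ⟨j', l, h1, _, h2⟩ | ⟨j', l, h1, _, h2⟩
      · exact ⟨j', l, h1, h2⟩
      · exact ⟨j', l, h1, h2⟩
    obtain ⟨hcZ, hcR, _⟩ := hcell
    rcases lt_trichotomy j' j with hlt | heq | hgt
    · -- earlier stage
      exfalso
      have h1 := hzs4 (t, ⟨k, by omega⟩, ⟨⟨j', hlt⟩, ⟨l, by show l < P.h j' + 1; omega⟩⟩) z hzI p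
        (by
          show dist p (g t (mk (P.x j k) z)) ≤ P.δ j
          rw [hpd]; linarith)
      rcases h1 with h1 | h1 | h1
      · exact hcZ.2.2.2 j hlt h1
      · exact hcR.2.2 j hlt h1
      · have h2 : ‖cx p - P.x j' l‖ < P.ρ j' := hcR.2.1
        have h3 := P.ρ_le_η j'
        have h4 := P.η_le j'
        have h5 : (1 : ℝ) / ((j' : ℝ) + 1) ≤ 1 := by
          rw [div_le_one (by positivity)]
          have : (0 : ℝ) ≤ j' := Nat.cast_nonneg _
          linarith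
        have h6 : 1 ≤ ‖cx p - P.x j' l‖ := h1
        linarith
    · -- same stage
      subst heq
      have hR : ‖cx p - P.x j' l‖ < P.ρ j' := hcR.2.1
      by_cases hPl : Planar t
      · obtain ⟨hδ1, hform⟩ := hpl t hPl
        have hpe : p = mk (δf t * cj (cf t) (P.x j' k + v) + bf t) z := by rw [hp, hform]
        have h1 : cx p = δf t * cj (cf t) (P.x j' k + v) + bf t := by rw [hpe, cx_mk]
        rw [h1, cj_add] at hR
        have h2 : ‖δf t * cj (cf t) (P.x j' k) + bf t - P.x j' l‖ < 2 * P.ρ j' := by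
          have h3 : δf t * cj (cf t) (P.x j' k) + bf t - P.x j' l =
              (δf t * (cj (cf t) (P.x j' k) + cj (cf t) v) + bf t - P.x j' l) - δf t * cj (cf t) v := by ring
          rw [h3]
          refine lt_of_le_of_lt (norm_sub_le _ _) ?_
          rw [norm_mul, hδ1, norm_cj, one_mul]
          linarith
        have hd1 := hd (t, ⟨k, by show k < P.h j' + 1; omega⟩, ⟨l, by show l < P.h j' + 1; omega⟩)
        dsimp only at hd1
        rw [if_pos hPl] at hd1
        have h0 : δf t * cj (cf t) (P.x j' k) + bf t - P.x j' l = 0 := by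
          by_contra hne
          have hne' : ¬ (δf t * cj (cf t) (xpos (P.n j') (P.i j') k) + bf t - xpos (P.n j') (P.i j') l = 0) := hne
          rw [if_neg hne'] at hd1
          have h5 : d ≤ ‖δf t * cj (cf t) (P.x j' k) + bf t - P.x j' l‖ := hd1
          linarith
        have hex : ∃ m : ℤ, δf t = Complex.exp (m * Complex.I) := by
          by_contra hno
          push Not at hno
          exact hpath ⟨t, hPl, hno⟩ k l hk hl (sub_eq_zero.1 h0)
        refine ⟨l, hl, ?_⟩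
        beta_reduce
        rw [dif_pos hex, ← hex.choose_spec, hpe, cj_add]
        congr 1
        rw [← sub_eq_zero.1 h0]
        ring
      · exfalso
        have hd1 := hd (t, ⟨k, by show k < P.h j' + 1; omega⟩, ⟨l, by show l < P.h j' + 1; omega⟩)
        dsimp only at hd1
        rw [if_neg hPl] at hd1
        have h1 : dist (g t (mk (P.x j' k) (P.ζ j'))) p ≤ P.ρ j' + P.η j' := by
          rw [hp, (g t).dist_eq, dist_comm]
          refine le_trans (dist_cell _ _ _) ?_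
          rw [cx_mk, zc_mk, add_sub_cancel_left, abs_of_nonneg (by linarith)]
          linarith
        have h2 : dist p (mk (P.x j' l) (P.ζ j')) ≤ P.ρ j' + P.η j' := by
          refine le_trans (dist_cell _ _ _) ?_
          have h3 := hcZ.1
          have h4 := hcZ.2.1
          rw [abs_of_nonneg (by linarith)]
          linarith
        have h3 : d ≤ dist (g t (mk (P.x j' k) (P.ζ j'))) (mk (P.x j' l) (P.ζ j')) := hd1
        have h4 := dist_triangle (g t (mk (P.x j' k) (P.ζ j'))) p (mk (P.x j' l) (P.ζ j'))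
        linarith
    · -- later stage
      exfalso
      have hR : ‖cx p - P.x j' l‖ < P.ρ j' := hcR.2.1
      have h2 : dist p (mk (P.x j' l) (P.ζ j')) ≤ 2 * P.η j' := by
        refine le_trans (dist_cell _ _ _) ?_
        have h3 := hcZ.1
        have h4 := hcZ.2.1
        have h5 := P.ρ_le_η j'
        rw [abs_of_nonneg (by linarith)]
        linarith
      have h3 : dist (mk (P.x j k + v) z) ((g t).symm (mk (P.x j' l) (P.ζ j'))) ≤ 2 * P.η j' := by
        rw [← (g t).dist_eq, (g t).apply_symm_apply]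
        exact h2
      have h4 : |z - ctr t j' l| ≤ 2 * P.η j' := by
        have h5 := abs_zc_le (mk (P.x j k + v) z) ((g t).symm (mk (P.x j' l) (P.ζ j')))
        rw [zc_mk] at h5
        exact le_trans h5 h3
      rw [abs_le] at h4
      apply (hnotU z hz j' hgt).2
      refine Set.mem_iUnion.2 ⟨t, Set.mem_iUnion₂.2 ⟨l, Finset.mem_range.2 (by omega), ?_⟩⟩
      exact ⟨by linarith [h4.1], by linarith [h4.2]⟩

end
end Gardner

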