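import Pool.Agent.Helper183.Gar.Defs

set_option autoImplicit false
namespace Gardner

/-- bounded real function -/
def Bdd {Γ : Type*} (f : Γ → ℝ) : Prop := ∃ C : ℝ, ∀ x, |f x| ≤ C

/-- auxiliary: the mean property -/
def IsMn {Γ : Type*} (M : (Γ → ℝ) → ℝ) : Prop :=
  (∀ f g, Bdd f → Bdd g → M (f + g) = M f + M g) ∧
      (∀ f, Bdd f → (∀ x, 0 ≤ f x) → 0 ≤ M f) ∧
      M (fun _ => 1) = 1 ∧
      (∀ f C, (∀ x, |f x| ≤ C) → |M f| ≤ C)

theorem Bdd.add' {Γ : Type*} {f g : Γ → ℝ} (hf : Bdd f) (hg : Bdd g) : Bdd (f + g) := by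
  obtain ⟨C, hC⟩ := hf
  obtain ⟨D, hD⟩ := hg
  exact ⟨C + D, fun x => (abs_add_le _ _).trans (add_le_add (hC x) (hD x))⟩

theorem Bdd.tr {Γ : Type*} [AddCommGroup Γ] {f : Γ → ℝ} (hf : Bdd f) (a : Γ) :
    Bdd (fun x => f (a + x)) := by
  obtain ⟨C, hC⟩ := hf
  exact ⟨C, fun x => hC _⟩

theorem exists_ulim {Γ ι : Type*} (𝒰 : Ultrafilter ι) (m : ι → ((Γ → ℝ) → ℝ))
    (hm : ∀ i, IsMn (m i)) :
    ∃ M : (Γ → ℝ) → ℝ, IsMn M ∧
      ∀ f, Bdd f → Filter.Tendsto (fun i => m i f) 𝒰 (nhds (M f)) := by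
  classical
  have hex : ∀ f : Γ → ℝ, Bdd f → ∃ l : ℝ, Filter.Tendsto (fun i => m i f) 𝒰 (nhds l) := by
    intro f hf
    obtain ⟨C, hC⟩ := hf
    have hmem : Set.Icc (-C) C ∈ (𝒰.map (fun i => m i f) : Filter ℝ) := by
      rw [Ultrafilter.coe_map, Filter.mem_map]
      refine Filter.Eventually.of_forall fun i => ?_
      exact abs_le.mp ((hm i).2.2.2 f C hC)
    obtain ⟨l, -, hl⟩ := isCompact_Icc.ultrafilter_le_nhds' (𝒰.map (fun i => m i f)) hmem
    exact ⟨l, hl⟩
  choose! M hM using hex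
  refine ⟨M, ⟨?_, ?_, ?_, ?_⟩, hM⟩
  · intro f g hf hg
    have h1 := hM (f + g) (hf.add' hg)
    have h2 := (hM f hf).add (hM g hg)
    have h3 : (fun i => m i (f + g)) = fun i => m i f + m i g :=
      funext fun i => (hm i).1 f g hf hg
    rw [h3] at h1
    exact tendsto_nhds_unique h1 h2
  · intro f hf h0
    exact ge_of_tendsto (hM f hf) (Filter.Eventually.of_forall fun i => (hm i).2.1 f hf h0)
  · have hb : Bdd (fun _ : Γ => (1 : ℝ)) := ⟨1, fun x => by norm_num⟩
    have h1 := hM _ hb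
    have h3 : (fun i => m i (fun _ : Γ => (1 : ℝ))) = fun i => 1 :=
      funext fun i => (hm i).2.2.1
    rw [h3] at h1
    exact tendsto_nhds_unique h1 tendsto_const_nhds
  · intro f C hC
    have h1 := (hM f ⟨C, hC⟩).abs
    exact le_of_tendsto h1 (Filter.Eventually.of_forall fun i => (hm i).2.2.2 f C hC)

theorem step {Γ : Type*} [AddCommGroup Γ] (m : (Γ → ℝ) → ℝ) (hm : IsMn m) (c : Γ) :
    ∃ M : (Γ → ℝ) → ℝ, IsMn M ∧ (∀ f, Bdd f → M (fun x => f (c + x)) = M f) ∧
      ∀ d : Γ, (∀ f, Bdd f → m (fun x => f (d + x)) = m f) →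
        ∀ f, Bdd f → M (fun x => f (d + x)) = M f := by
  let m' : ℕ → ((Γ → ℝ) → ℝ) := fun n f =>
    (∑ k ∈ Finset.range (n + 1), m (fun x => f (k • c + x))) / (n + 1)
  have hpos : ∀ n : ℕ, (0 : ℝ) < (n : ℝ) + 1 := fun n => by positivity
  have hm' : ∀ n, IsMn (m' n) := by
    intro n
    refine ⟨?_, ?_, ?_, ?_⟩
    · intro f g hf hg
      show (∑ k ∈ Finset.range (n + 1), m (fun x => (f + g) (k • c + x))) / ((n : ℝ) + 1) = 
        (∑ k ∈ Finset.range (n + 1), m (fun x => f (k • c + x))) / ((n : ℝ) + 1) +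
        (∑ k ∈ Finset.range (n + 1), m (fun x => g (k • c + x))) / ((n : ℝ) + 1)
      rw [← add_div, ← Finset.sum_add_distrib]
      congr 1
      refine Finset.sum_congr rfl fun k _ => ?_
      exact hm.1 _ _ (hf.tr (k • c)) (hg.tr (k • c))
    · intro f hf h0
      refine div_nonneg (Finset.sum_nonneg fun k _ => ?_) (hpos n).le
      exact hm.2.1 _ (hf.tr (k • c)) (fun x => h0 _)
    · show (∑ k ∈ Finset.range (n + 1), m (fun _ => 1)) / ((n : ℝ) + 1) = 1
      rw [hm.2.2.1]
      simp only [Finset.sum_const, Finset.card_range, nsmul_eq_mul, mul_one]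
      push_cast
      exact div_self (hpos n).ne'
    · intro f C hC
      show |(∑ k ∈ Finset.range (n + 1), m (fun x => f (k • c + x))) / ((n : ℝ) + 1)| ≤ C
      rw [abs_div, abs_of_pos (hpos n), div_le_iff₀ (hpos n)]
      refine (Finset.abs_sum_le_sum_abs _ _).trans ?_
      refine (Finset.sum_le_sum fun k _ => hm.2.2.2 _ C (fun x => hC _)).trans ?_
      simp only [Finset.sum_const, Finset.card_range, nsmul_eq_mul]
      push_cast
      linarith
  obtain ⟨M, hM, hlim⟩ := exists_ulim (Filter.hyperfilter ℕ) m' hm'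
  refine ⟨M, hM, ?_, ?_⟩
  · intro f hf
    obtain ⟨C, hC⟩ := hf
    have hf : Bdd f := ⟨C, hC⟩
    have h1 := (hlim _ (hf.tr c)).sub (hlim f hf)
    have h2 : Filter.Tendsto (fun n => m' n (fun x => f (c + x)) - m' n f)
        (Filter.hyperfilter ℕ : Filter ℕ) (nhds 0) := by
      have h3 : ∀ n, |m' n (fun x => f (c + x)) - m' n f| ≤ 2 * C / ((n : ℝ) + 1) := by
        intro n
        show |(∑ k ∈ Finset.range (n + 1), m (fun x => f (c + (k • c + x)))) / ((n : ℝ) + 1) - 
          (∑ k ∈ Finset.range (n + 1), m (fun x => f (k • c + x))) / ((n : ℝ) + 1)| ≤ _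
        have h4 : (∑ k ∈ Finset.range (n + 1), m (fun x => f (c + (k • c + x)))) - 
          (∑ k ∈ Finset.range (n + 1), m (fun x => f (k • c + x))) = 
            m (fun x => f ((n + 1) • c + x)) - m (fun x => f x) := by
          rw [← Finset.sum_sub_distrib]
          have h5 := Finset.sum_range_sub (fun k => m (fun x => f (k • c + x))) (n + 1)
          simp only [zero_smul, zero_add] at h5
          rw [← h5]
          refine Finset.sum_congr rfl fun k _ => ?_
          congr 2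
          funext x
          congr 1
          rw [succ_nsmul]
          abel
        rw [← sub_div, h4, abs_div, abs_of_pos (hpos n)]
        refine div_le_div_of_nonneg_right ?_ (hpos n).le
        refine (abs_sub _ _).trans ?_
        have := hm.2.2.2 (fun x => f ((n + 1) • c + x)) C (fun x => hC _)
        have := hm.2.2.2 (fun x => f x) C (fun x => hC _)
        linarith
      refine squeeze_zero_norm (a := fun n : ℕ => 2 * C / ((n : ℝ) + 1)) (fun n => h3 n) ?_
      have h6 : Filter.Tendsto (fun n : ℕ => 2 * C / ((n : ℝ) + 1)) Filter.atTop (nhds 0) := by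
        apply Filter.Tendsto.div_atTop tendsto_const_nhds
        exact Filter.tendsto_atTop_add_const_right _ _ tendsto_natCast_atTop_atTop
      exact h6.mono_left (Nat.hyperfilter_le_atTop)
    have h3 := tendsto_nhds_unique h1 h2
    linarith
  · intro d hd f hf
    have h1 := hlim _ (hf.tr d)
    have h2 : (fun n => m' n (fun x => f (d + x))) = fun n => m' n f := by
      funext n
      show (∑ k ∈ Finset.range (n + 1), m (fun x => f (d + (k • c + x)))) / ((n : ℝ) + 1) =
        (∑ k ∈ Finset.range (n + 1), m (fun x => f (k • c + x))) / ((n : ℝ) + 1)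
      congr 1
      refine Finset.sum_congr rfl fun k _ => ?_
      rw [← hd _ (hf.tr (k • c))]
      congr 1
      funext x
      congr 1
      abel
    rw [h2] at h1
    exact tendsto_nhds_unique h1 (hlim f hf)

theorem fin_inv {Γ : Type*} [AddCommGroup Γ] (F : Finset Γ) :
    ∃ M : (Γ → ℝ) → ℝ, IsMn M ∧ ∀ c ∈ F, ∀ f, Bdd f → M (fun x => f (c + x)) = M f := by
  classical
  induction F using Finset.induction_on with
  | empty =>
    refine ⟨fun f => f 0, ⟨?_, ?_, ?_, ?_⟩, ?_⟩
    · intro f g _ _; rfl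
    · intro f _ h; exact h 0
    · rfl
    · intro f C h; exact h 0
    · intro c hc; simp at hc
  | insert a s _ ih =>
    obtain ⟨m, hm, hinv⟩ := ih
    obtain ⟨M, hM, h1, h2⟩ := step m hm a
    refine ⟨M, hM, ?_⟩
    intro c hc f hf
    rw [Finset.mem_insert] at hc
    rcases hc with rfl | hc
    · exact h1 f hf
    · exact h2 c (hinv c hc) f hf

/-- Every abelian group carries an invariant mean on bounded functions. -/
theorem exists_mean (Γ : Type*) [AddCommGroup Γ] :
    ∃ M : (Γ → ℝ) → ℝ,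
      (∀ f g, Bdd f → Bdd g → M (f + g) = M f + M g) ∧
      (∀ f, Bdd f → (∀ x, 0 ≤ f x) → 0 ≤ M f) ∧
      M (fun _ => 1) = 1 ∧
      (∀ f C, (∀ x, |f x| ≤ C) → |M f| ≤ C) ∧
      (∀ f a, Bdd f → M (fun x => f (a + x)) = M f) := by
  choose m hm hinv using fun F : Finset Γ => fin_inv F
  obtain ⟨M, hM, hlim⟩ := exists_ulim (Ultrafilter.of (Filter.atTop : Filter (Finset Γ))) m hm
  refine ⟨M, hM.1, hM.2.1, hM.2.2.1, hM.2.2.2, ?_⟩
  intro f a hf
  have h1 := hlim _ (hf.tr a)
  have h2 := hlim f hf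
  have h3 : ∀ᶠ F in (Ultrafilter.of (Filter.atTop : Filter (Finset Γ)) : Filter (Finset Γ)),
      m F f = m F (fun x => f (a + x)) := by
    apply Ultrafilter.of_le
    filter_upwards [Filter.eventually_ge_atTop ({a} : Finset Γ)] with F hF
    exact (hinv F a (hF (Finset.mem_singleton_self a)) f hf).symm
  exact tendsto_nhds_unique h1 (h2.congr' h3)

end Gardner

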