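import Pool.Agent.Helper183.Gar.Defs

set_option autoImplicit false
open MeasureTheory Set
open scoped Real
namespace Gardner
noncomputable section

theorem zsmul_one_inj {m : ℤ} (h : m • one = 0) : m = 0 := by
  unfold one at h
  rw [← AddCircle.coe_zsmul, AddCircle.coe_eq_zero_iff] at h
  obtain ⟨n, hn⟩ := h
  rw [zsmul_eq_mul, zsmul_eq_mul, mul_one] at hn
  by_contra hm
  have hn0 : (n : ℝ) ≠ 0 := by
    intro h0
    rw [h0, zero_mul] at hn
    apply hm
    exact_mod_cast hn.symm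
  apply irrational_pi
  refine ⟨(m : ℚ) / (2 * n), ?_⟩
  push_cast
  rw [← hn]
  field_simp

theorem zsmul_one_eq {m n : ℤ} (h : m • one = n • one) : m = n := by
  have h1 : (m - n) • one = 0 := by rw [sub_zsmul, h, add_neg_cancel]
  have := zsmul_one_inj h1
  omega

theorem Good.neg {t : Ang} (ht : Good t) : Good (-t) := by
  intro m hm
  apply ht (-m)
  rw [neg_zsmul, ← hm]
  abel

theorem Good.add {t : Ang} (ht : Good t) (q : ℤ) : Good (t + q • one) := by
  intro m hm
  apply ht (m - 2 * q)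
  rw [sub_zsmul, ← hm, mul_zsmul, two_zsmul]
  abel

theorem Good.sub {t : Ang} (ht : Good t) (q : ℤ) : Good (t - q • one) := by
  have := ht.add (-q)
  rwa [neg_zsmul, ← sub_eq_add_neg] at this

/-! ### positions on the unfolded line -/

/-- the point `p` is at position `j` of the unfolded line through `t` -/
def Pos (h : ℕ) (H0 H1 : Set Ang) (t : Ang) (j : ℤ) (p : ℕ × Ang) : Prop :=
  p ∈ FP h H0 H1 ∧ ∃ q : ℤ, (j = 2 * h * q + p.1 ∧ p.2 = t - q • one) ∨
    (j = 2 * h * q - p.1 ∧ p.2 = -t + q • one)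

section pos

variable {h : ℕ} {H0 H1 : Set Ang}

theorem Pos.ex (hh : 1 ≤ h) (h0 : ∀ θ, Good θ → (θ ∈ H0 ↔ -θ ∉ H0))
    (h1 : ∀ θ, Good θ → (θ ∈ H1 ↔ one - θ ∉ H1)) {t : Ang} (ht : Good t) (j : ℤ) :
    ∃ p, Pos h H0 H1 t j p := by
  have hpos : (0 : ℤ) < 2 * h := by omega
  set q := j / (2 * h) with hq
  set i := j % (2 * h) with hi
  have hj : 2 * h * q + i = j := Int.mul_ediv_add_emod j (2 * h)
  have hi0 : 0 ≤ i := Int.emod_nonneg _ hpos.ne'
  have hi1 : i < 2 * h := Int.emod_lt_of_pos _ hpos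
  have g1 : Good (t - q • one) := ht.sub q
  have g2 : Good (-t + q • one) := ht.neg.add q
  have g3 : Good (-t + (q + 1) • one) := ht.neg.add (q + 1)
  rcases lt_trichotomy i 0 with h2 | h2 | h2
  · omega
  · -- level 0
    by_cases hm : t - q • one ∈ H0
    · refine ⟨(0, t - q • one), ⟨Nat.zero_le _, g1, fun _ => hm, fun h3 => ?_⟩, q, Or.inl ⟨?_, rfl⟩⟩
      · exact absurd h3 (by show ¬ (0 = h); omega)
      · show j = 2 * h * q + ((0 : ℕ) : ℤ)
        omega
    · refine ⟨(0, -t + q • one), ⟨Nat.zero_le _, g2, fun _ => ?_, fun h3 => ?_⟩, q,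
        Or.inr ⟨?_, rfl⟩⟩
      · show -t + q • one ∈ H0
        rw [h0 _ g2]
        have e : -(-t + q • one) = t - q • one := by abel
        rw [e]
        exact hm
      · exact absurd h3 (by show ¬ (0 = h); omega)
      · show j = 2 * h * q - ((0 : ℕ) : ℤ)
        omega
  · rcases lt_trichotomy i h with h3 | h3 | h3
    · refine ⟨(i.toNat, t - q • one), ⟨?_, g1, fun h4 => ?_, fun h4 => ?_⟩, q, Or.inl ⟨?_, rfl⟩⟩
      · show i.toNat ≤ h
        omega
      · exact absurd h4 (by show ¬ (i.toNat = 0); omega)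
      · exact absurd h4 (by show ¬ (i.toNat = h); omega)
      · show j = 2 * h * q + (i.toNat : ℤ)
        omega
    · by_cases hm : t - q • one ∈ H1
      · refine ⟨(h, t - q • one), ⟨le_refl _, g1, fun h4 => ?_, fun _ => hm⟩, q, Or.inl ⟨?_, rfl⟩⟩
        · exact absurd h4 (by show ¬ (h = 0); omega)
        · show j = 2 * h * q + (h : ℤ)
          omega
      · refine ⟨(h, -t + (q + 1) • one), ⟨le_refl _, g3, fun h4 => ?_, fun _ => ?_⟩, q + 1,
          Or.inr ⟨?_, rfl⟩⟩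
        · exact absurd h4 (by show ¬ (h = 0); omega)
        · show -t + (q + 1) • one ∈ H1
          rw [h1 _ g3]
          have e : one - (-t + (q + 1) • one) = t - q • one := by
            rw [add_zsmul, one_zsmul]; abel
          rw [e]
          exact hm
        · show j = 2 * h * (q + 1) - (h : ℤ)
          rw [← hj, h3]; ring
    · refine ⟨((2 * h - i).toNat, -t + (q + 1) • one), ⟨?_, g3, fun h4 => ?_, fun h4 => ?_⟩,
        q + 1, Or.inr ⟨?_, rfl⟩⟩
      · show (2 * h - i).toNat ≤ h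
        omega
      · exact absurd h4 (by show ¬ ((2 * h - i).toNat = 0); omega)
      · exact absurd h4 (by show ¬ ((2 * h - i).toNat = h); omega)
      · show j = 2 * h * (q + 1) - ((2 * h - i).toNat : ℤ)
        have : ((2 * h - i).toNat : ℤ) = 2 * h - i := by omega
        rw [this, ← hj]; ring

theorem mul_lt_aux {h : ℕ} (hh : 1 ≤ h) {a b : ℤ} {c : ℤ} (hc : 2 * (h : ℤ) * a + c = 2 * h * b)
    (h1 : -(2 * (h : ℤ)) < c) (h2 : c < 2 * h) : a = b ∧ c = 0 := by
  have hpos : (0 : ℤ) < 2 * h := by omega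
  have e : c = 2 * h * (b - a) := by linarith [mul_sub (2 * (h : ℤ)) b a]
  rcases lt_trichotomy (b - a) 0 with h3 | h3 | h3
  · exfalso
    nlinarith
  · exact ⟨by omega, by rw [e, h3, mul_zero]⟩
  · exfalso
    nlinarith

theorem mul_le_aux {h : ℕ} (hh : 1 ≤ h) {a b : ℤ} {c : ℤ} (hc : 2 * (h : ℤ) * a + c = 2 * h * b)
    (h1 : 0 ≤ c) (h2 : c ≤ 2 * h) : (a = b ∧ c = 0) ∨ (b = a + 1 ∧ c = 2 * h) := by
  have hpos : (0 : ℤ) < 2 * h := by omega
  have e : c = 2 * h * (b - a) := by linarith [mul_sub (2 * (h : ℤ)) b a]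
  rcases lt_trichotomy (b - a) 1 with h3 | h3 | h3
  · left
    have h4 : 0 ≤ b - a := by
      by_contra hcon
      push Not at hcon
      nlinarith
    have h5 : b - a = 0 := by omega
    exact ⟨by omega, by rw [e, h5, mul_zero]⟩
  · right
    exact ⟨by omega, by rw [e, h3, mul_one]⟩
  · exfalso
    nlinarith

theorem Pos.uniq_mixed (hh : 1 ≤ h) (h0 : ∀ θ, Good θ → (θ ∈ H0 ↔ -θ ∉ H0))
    (h1 : ∀ θ, Good θ → (θ ∈ H1 ↔ one - θ ∉ H1)) {t : Ang} {j : ℤ} {p p' : ℕ × Ang}
    (hp : p ∈ FP h H0 H1) (hp' : p' ∈ FP h H0 H1) {q q' : ℤ}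
    (a1 : j = 2 * h * q + p.1) (a2 : p.2 = t - q • one)
    (b1 : j = 2 * h * q' - p'.1) (b2 : p'.2 = -t + q' • one) : False := by
  have c1 : p.1 ≤ h := hp.1
  have c2 : p'.1 ≤ h := hp'.1
  have e : 2 * (h : ℤ) * q + (p.1 + p'.1) = 2 * h * q' := by linarith
  rcases mul_le_aux hh e (by omega) (by omega) with ⟨e1, e2⟩ | ⟨e1, e2⟩
  · have z1 : p.1 = 0 := by omega
    have z2 : p'.1 = 0 := by omega
    have m1 := hp.2.2.1 z1
    have m2 := hp'.2.2.1 z2
    have e3 : p'.2 = -p.2 := by rw [a2, b2, e1]; abel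
    rw [e3] at m2
    exact ((h0 _ hp.2.1).1 m1) m2
  · have z1 : p.1 = h := by omega
    have z2 : p'.1 = h := by omega
    have m1 := hp.2.2.2 z1
    have m2 := hp'.2.2.2 z2
    have e3 : p'.2 = one - p.2 := by
      rw [a2, b2, e1, add_zsmul, one_zsmul]; abel
    rw [e3] at m2
    exact ((h1 _ hp.2.1).1 m1) m2

theorem Pos.uniq (hh : 1 ≤ h) (h0 : ∀ θ, Good θ → (θ ∈ H0 ↔ -θ ∉ H0))
    (h1 : ∀ θ, Good θ → (θ ∈ H1 ↔ one - θ ∉ H1)) {t : Ang} {j : ℤ} {p p' : ℕ × Ang}
    (hp : Pos h H0 H1 t j p) (hp' : Pos h H0 H1 t j p') : p = p' := by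
  obtain ⟨fp, q, ⟨a1, a2⟩ | ⟨a1, a2⟩⟩ := hp <;> obtain ⟨fp', q', ⟨b1, b2⟩ | ⟨b1, b2⟩⟩ := hp'
  · have c1 : p.1 ≤ h := fp.1
    have c2 : p'.1 ≤ h := fp'.1
    have e : 2 * (h : ℤ) * q + ((p.1 : ℤ) - p'.1) = 2 * h * q' := by linarith
    obtain ⟨e1, e2⟩ := mul_lt_aux hh e (by omega) (by omega)
    refine Prod.ext (by omega) ?_
    rw [a2, b2, e1]
  · exact absurd (Pos.uniq_mixed hh h0 h1 fp fp' a1 a2 b1 b2) id
  · exact absurd (Pos.uniq_mixed hh h0 h1 fp' fp b1 b2 a1 a2) id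
  · have c1 : p.1 ≤ h := fp.1
    have c2 : p'.1 ≤ h := fp'.1
    have e : 2 * (h : ℤ) * q + ((p'.1 : ℤ) - p.1) = 2 * h * q' := by linarith
    obtain ⟨e1, e2⟩ := mul_lt_aux hh e (by omega) (by omega)
    refine Prod.ext (by omega) ?_
    rw [a2, b2, e1]

theorem Pos.inj {t : Ang} (ht : Good t) {j j' : ℤ} {p : ℕ × Ang}
    (hp : Pos h H0 H1 t j p) (hp' : Pos h H0 H1 t j' p) : j = j' := by
  obtain ⟨fp, q, ⟨a1, a2⟩ | ⟨a1, a2⟩⟩ := hp <;> obtain ⟨fp', q', ⟨b1, b2⟩ | ⟨b1, b2⟩⟩ := hp'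
  · have e : q • one = q' • one := by
      have := a2.symm.trans b2
      exact sub_right_injective this
    rw [a1, b1, zsmul_one_eq e]
  · exfalso
    apply ht (q + q')
    have e := a2.symm.trans b2
    rw [add_zsmul]
    calc t + t = (t - q • one) + t + q • one := by abel
      _ = (-t + q' • one) + t + q • one := by rw [e]
      _ = q • one + q' • one := by abel
  · exfalso
    apply ht (q + q')
    have e := a2.symm.trans b2
    rw [add_zsmul]
    calc t + t = (t - q' • one) + t + q' • one := by abel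
      _ = (-t + q • one) + t + q' • one := by rw [← e]
      _ = q • one + q' • one := by abel
  · have e : q • one = q' • one := by
      have := a2.symm.trans b2
      exact add_left_cancel this
    rw [a1, b1, zsmul_one_eq e]

theorem Pos.parity {t : Ang} {j : ℤ} {p : ℕ × Ang} (hp : Pos h H0 H1 t j p) :
    Even j ↔ Even p.1 := by
  rw [← Int.even_coe_nat p.1]
  obtain ⟨fp, q, ⟨a1, a2⟩ | ⟨a1, a2⟩⟩ := hp
  · rw [a1, Int.even_add]
    simp [mul_assoc]
  · rw [a1, Int.even_sub]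
    simp [mul_assoc]

theorem Pos.shift {t : Ang} {j : ℤ} {p : ℕ × Ang} :
    Pos h H0 H1 t (j + 2 * h) p ↔ Pos h H0 H1 (t - one) j p := by
  constructor
  · rintro ⟨fp, q, ⟨a1, a2⟩ | ⟨a1, a2⟩⟩
    · refine ⟨fp, q - 1, Or.inl ⟨?_, ?_⟩⟩
      · linarith [mul_sub (2 * (h : ℤ)) q 1]
      · rw [a2, sub_zsmul, one_zsmul]; abel
    · refine ⟨fp, q - 1, Or.inr ⟨?_, ?_⟩⟩
      · linarith [mul_sub (2 * (h : ℤ)) q 1]
      · rw [a2, sub_zsmul, one_zsmul]; abel
  · rintro ⟨fp, q, ⟨a1, a2⟩ | ⟨a1, a2⟩⟩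
    · refine ⟨fp, q + 1, Or.inl ⟨?_, ?_⟩⟩
      · linarith [mul_add (2 * (h : ℤ)) q 1]
      · rw [a2, add_zsmul, one_zsmul]; abel
    · refine ⟨fp, q + 1, Or.inr ⟨?_, ?_⟩⟩
      · linarith [mul_add (2 * (h : ℤ)) q 1]
      · rw [a2, add_zsmul, one_zsmul]; abel

theorem Pos.neg_aux {t : Ang} {j : ℤ} {p : ℕ × Ang} (hp : Pos h H0 H1 t j p) :
    Pos h H0 H1 (-t) (-j) p := by
  obtain ⟨fp, q, ⟨a1, a2⟩ | ⟨a1, a2⟩⟩ := hp
  · refine ⟨fp, -q, Or.inr ⟨?_, ?_⟩⟩
    · linarith [mul_neg (2 * (h : ℤ)) q]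
    · rw [a2, neg_zsmul]; abel
  · refine ⟨fp, -q, Or.inl ⟨?_, ?_⟩⟩
    · linarith [mul_neg (2 * (h : ℤ)) q]
    · rw [a2, neg_zsmul]; abel

theorem Pos.neg {t : Ang} {j : ℤ} {p : ℕ × Ang} :
    Pos h H0 H1 (-t) (-j) p ↔ Pos h H0 H1 t j p := by
  constructor
  · intro hp
    have := hp.neg_aux
    rwa [neg_neg, neg_neg] at this
  · exact Pos.neg_aux

theorem Pos.near {t : Ang} {j : ℤ} {p p' : ℕ × Ang} (hp : Pos h H0 H1 t j p)
    (hp' : p' ∈ FP h H0 H1) {B : ℕ} {m : ℤ} (hm : |m| ≤ B)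
    (hform : p'.2 = p.2 + m • one ∨ p'.2 = -p.2 + m • one) :
    ∃ j', Pos h H0 H1 t j' p' ∧ |j' - j| ≤ 2 * h * (B + 1) := by
  obtain ⟨fp, q, hq⟩ := hp
  have c1 : p.1 ≤ h := fp.1
  have c2 : p'.1 ≤ h := hp'.1
  have hm' := abs_le.1 hm
  have hh0 : (0 : ℤ) ≤ 2 * h := by omega
  have k1 : 2 * (h : ℤ) * m ≤ 2 * h * B := mul_le_mul_of_nonneg_left hm'.2 hh0
  have k2 : -(2 * (h : ℤ) * B) ≤ 2 * h * m := by
    have := mul_le_mul_of_nonneg_left hm'.1 hh0
    linarith [mul_neg (2 * (h : ℤ)) (B : ℤ)]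
  rcases hq with ⟨a1, a2⟩ | ⟨a1, a2⟩ <;> rcases hform with b | b
  · refine ⟨2 * h * (q - m) + p'.1, ⟨hp', q - m, Or.inl ⟨rfl, ?_⟩⟩, ?_⟩
    · rw [b, a2, sub_zsmul]; abel
    · rw [abs_le]; constructor <;> nlinarith
  · refine ⟨2 * h * (q + m) - p'.1, ⟨hp', q + m, Or.inr ⟨rfl, ?_⟩⟩, ?_⟩
    · rw [b, a2, add_zsmul]; abel
    · rw [abs_le]; constructor <;> nlinarith
  · refine ⟨2 * h * (q + m) - p'.1, ⟨hp', q + m, Or.inr ⟨rfl, ?_⟩⟩, ?_⟩
    · rw [b, a2, add_zsmul]; abel
    · rw [abs_le]; constructor <;> nlinarith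
  · refine ⟨2 * h * (q - m) + p'.1, ⟨hp', q - m, Or.inl ⟨rfl, ?_⟩⟩, ?_⟩
    · rw [b, a2, sub_zsmul]; abel
    · rw [abs_le]; constructor <;> nlinarith

theorem Pos.good {t : Ang} {j : ℤ} {p : ℕ × Ang} (hp : Pos h H0 H1 t j p) : Good t := by
  obtain ⟨fp, q, ⟨a1, a2⟩ | ⟨a1, a2⟩⟩ := hp
  · have := fp.2.1.add q
    rw [a2, sub_add_cancel] at this
    exact this
  · have := (fp.2.1.neg).add q
    rw [a2] at this
    have e : -(-t + q • one) + q • one = t := by abel
    rwa [e] at this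

end pos

/-! ### combinatorics of a matching of the even integers with the odd integers -/

section comb

/-- `E` is a bijection from the even integers to the odd integers with displacement `≤ N` -/
structure MT (E : ℤ → ℤ → Prop) (N : ℤ) : Prop where
  nn : 0 ≤ N
  ex : ∀ j, Even j → ∃ j', E j j'
  uniq : ∀ j j' j'', E j j' → E j j'' → j' = j''
  inj : ∀ j i j', E j j' → E i j' → i = j
  par : ∀ j j', E j j' → Even j ∧ ¬ Even j'
  sur : ∀ j', ¬ Even j' → ∃ j, E j j'
  near : ∀ j j', E j j' → |j' - j| ≤ N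

open Classical in
/-- the contribution of `j` to the net flow through `n` -/
def term (E : ℤ → ℤ → Prop) (n j : ℤ) : ℤ :=
  if Even j then ((if j ≤ n then 1 else 0) - (if ∃ j' ≤ n, E j j' then 1 else 0)) else 0

/-- the net flow through `n` -/
def net (E : ℤ → ℤ → Prop) (N n : ℤ) : ℤ := ∑ j ∈ Finset.Icc (n - N) (n + N), term E n j

variable {E E' : ℤ → ℤ → Prop} {N : ℤ}

theorem term_zero (hE : MT E N) {n j : ℤ} (hj : j < n - N ∨ n + N < j) : term E n j = 0 := by
  have hN := hE.nn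
  unfold term
  by_cases he : Even j
  · rw [if_pos he]
    obtain ⟨j', hj'⟩ := hE.ex j he
    have hnear := abs_le.1 (hE.near j j' hj')
    rcases hj with hj | hj
    · rw [if_pos (by omega), if_pos ⟨j', by omega, hj'⟩]
      norm_num
    · rw [if_neg (by omega), if_neg]
      · norm_num
      · rintro ⟨i, hi, hi'⟩
        have := hE.uniq j i j' hi' hj'
        omega
  · rw [if_neg he]

theorem net_eq (hE : MT E N) {n : ℤ} {W : Finset ℤ} (hW : Finset.Icc (n - N) (n + N) ⊆ W) :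
    ∑ j ∈ W, term E n j = net E N n := by
  unfold net
  symm
  apply Finset.sum_subset hW
  intro j _ hj
  apply term_zero hE
  rw [Finset.mem_Icc] at hj
  omega

open Classical in
theorem net_step (hE : MT E N) (n : ℤ) :
    net E N n - net E N (n - 1) = if Even n then 1 else -1 := by
  have hN := hE.nn
  rw [← net_eq hE (n := n) (W := Finset.Icc (n - 1 - N) (n + N)) (by
      intro j hj; rw [Finset.mem_Icc] at hj ⊢; omega),
    ← net_eq hE (n := n - 1) (W := Finset.Icc (n - 1 - N) (n + N)) (by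
      intro j hj; rw [Finset.mem_Icc] at hj ⊢; omega), ← Finset.sum_sub_distrib]
  have hterm : ∀ j, term E n j - term E (n - 1) j =
      (if j = n then (if Even n then 1 else 0) else 0) - (if E j n then 1 else 0) := by
    intro j
    unfold term
    by_cases he : Even j
    · rw [if_pos he, if_pos he]
      have e1 : ((if j ≤ n then 1 else 0 : ℤ) - (if j ≤ n - 1 then 1 else 0)) =
          if j = n then (if Even n then 1 else 0) else 0 := by
        rcases lt_trichotomy j n with h1 | h1 | h1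
        · rw [if_pos (by omega), if_pos (by omega), if_neg (by omega)]; norm_num
        · subst h1
          rw [if_pos (by omega), if_neg (by omega), if_pos rfl, if_pos he]; norm_num
        · rw [if_neg (by omega), if_neg (by omega), if_neg (by omega)]; norm_num
      have e2 : ((if ∃ j' ≤ n, E j j' then 1 else 0 : ℤ) - (if ∃ j' ≤ n - 1, E j j' then 1 else 0)) =
          if E j n then 1 else 0 := by
        by_cases h1 : E j n
        · rw [if_pos ⟨n, le_refl n, h1⟩, if_neg, if_pos h1]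
          · norm_num
          · rintro ⟨i, hi, hi'⟩
            have := hE.uniq j i n hi' h1
            omega
        · rw [if_neg h1]
          have : (∃ j' ≤ n, E j j') ↔ (∃ j' ≤ n - 1, E j j') := by
            constructor
            · rintro ⟨i, hi, hi'⟩
              refine ⟨i, ?_, hi'⟩
              rcases eq_or_lt_of_le hi with h2 | h2
              · subst h2; exact absurd hi' h1
              · omega
            · rintro ⟨i, hi, hi'⟩
              exact ⟨i, by omega, hi'⟩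
          simp only [this]
          norm_num
      rw [← e1, ← e2]
      ring
    · rw [if_neg he, if_neg he]
      have h1 : ¬ E j n := fun h2 => he (hE.par j n h2).1
      rw [if_neg h1]
      by_cases h2 : j = n
      · subst h2
        rw [if_pos rfl, if_neg he]
      · rw [if_neg h2]
  simp only [hterm, Finset.sum_sub_distrib]
  rw [Finset.sum_ite_eq' (Finset.Icc (n - 1 - N) (n + N)) n (fun _ => if Even n then (1 : ℤ) else 0)]
  rw [if_pos (by rw [Finset.mem_Icc]; omega)]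
  by_cases he : Even n
  · rw [if_pos he, if_pos he]
    have : ∑ j ∈ Finset.Icc (n - 1 - N) (n + N), (if E j n then (1 : ℤ) else 0) = 0 := by
      apply Finset.sum_eq_zero
      intro j _
      rw [if_neg]
      intro h1
      exact (hE.par j n h1).2 he
    rw [this]; norm_num
  · rw [if_neg he, if_neg he]
    obtain ⟨j0, hj0⟩ := hE.sur n he
    have hnear := abs_le.1 (hE.near j0 n hj0)
    have : ∑ j ∈ Finset.Icc (n - 1 - N) (n + N), (if E j n then (1 : ℤ) else 0) = 1 := by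
      rw [Finset.sum_eq_single j0]
      · rw [if_pos hj0]
      · intro j _ hj
        rw [if_neg]
        intro h1
        exact hj (hE.inj j0 j n hj0 h1)
      · intro h1
        exfalso
        apply h1
        rw [Finset.mem_Icc]
        omega
    rw [this]; norm_num

theorem net_two (hE : MT E N) (n : ℤ) : net E N (n + 2) = net E N n := by
  have h1 := net_step hE (n + 2)
  have h2 := net_step hE (n + 1)
  have e1 : n + 2 - 1 = n + 1 := by ring
  have e2 : n + 1 - 1 = n := by ring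
  rw [e1] at h1
  rw [e2] at h2
  by_cases he : Even n
  · have h3 : Even (n + 2) := by rw [Int.even_add]; simp [he]
    have h4 : ¬ Even (n + 1) := by rw [Int.even_add]; simp [he]
    rw [if_pos h3] at h1
    rw [if_neg h4] at h2
    omega
  · have h3 : ¬ Even (n + 2) := by rw [Int.even_add]; simp [he]
    have h4 : Even (n + 1) := by rw [Int.even_add]; simp [he]
    rw [if_neg h3] at h1
    rw [if_pos h4] at h2
    omega

theorem net_mul (hE : MT E N) (k : ℕ) : net E N (2 * k) = net E N 0 := by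
  induction k with
  | zero => simp
  | succ k ih =>
    have e : (2 : ℤ) * ((k + 1 : ℕ) : ℤ) = 2 * k + 2 := by push_cast; ring
    rw [e, net_two hE, ih]

open Classical in
theorem net_shift {s : ℤ} (hs : Even s) (hEE : ∀ j j', E (j + s) (j' + s) ↔ E' j j') (n : ℤ) :
    net E' N n = net E N (n + s) := by
  have hterm : ∀ j, term E' n j = term E (n + s) (j + s) := by
    intro j
    unfold term
    have h1 : Even (j + s) ↔ Even j := by rw [Int.even_add]; simp [hs]
    have h2 : (j + s ≤ n + s) ↔ (j ≤ n) := by omega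
    have h3 : (∃ j' ≤ n + s, E (j + s) j') ↔ (∃ j' ≤ n, E' j j') := by
      constructor
      · rintro ⟨i, hi, hi'⟩
        refine ⟨i - s, by omega, ?_⟩
        rw [← hEE, sub_add_cancel]
        exact hi'
      · rintro ⟨i, hi, hi'⟩
        exact ⟨i + s, by omega, (hEE _ _).2 hi'⟩
    have e2 : (if ∃ j' ≤ n + s, E (j + s) j' then 1 else 0 : ℤ) =
        if ∃ j' ≤ n, E' j j' then 1 else 0 := by
      by_cases h4 : ∃ j' ≤ n, E' j j'
      · rw [if_pos h4, if_pos (h3.2 h4)]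
      · rw [if_neg h4, if_neg (fun h => h4 (h3.1 h))]
    rw [e2]
    by_cases he : Even j
    · rw [if_pos he, if_pos (h1.2 he)]
      by_cases h5 : j ≤ n
      · rw [if_pos h5, if_pos (h2.2 h5)]
      · rw [if_neg h5, if_neg (fun h => h5 (h2.1 h))]
    · rw [if_neg he, if_neg (fun h => he (h1.1 h))]
  unfold net
  simp only [hterm]
  apply Finset.sum_equiv (Equiv.addRight s)
  · intro j
    simp only [Equiv.coe_addRight, Finset.mem_Icc]
    constructor <;> intro h1 <;> omega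
  · intro j _
    rfl

theorem net_neg (hE : MT E N) (hEE : ∀ j j', E' (-j) (-j') ↔ E j j') (n : ℤ) :
    net E' N n = - net E N (-n - 1) := by
  classical
  have hN := hE.nn
  have hterm : ∀ j, term E' n (-j) = - term E (-n - 1) j := by
    intro j
    unfold term
    by_cases he : Even j
    · rw [if_pos he, if_pos (by rwa [even_neg])]
      have e1 : (if -j ≤ n then 1 else 0 : ℤ) = 1 - (if j ≤ -n - 1 then 1 else 0) := by
        by_cases h1 : -j ≤ n
        · rw [if_pos h1, if_neg (by omega)]; norm_num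
        · rw [if_neg h1, if_pos (by omega)]; norm_num
      have e2 : (if ∃ j' ≤ n, E' (-j) j' then 1 else 0 : ℤ) =
          1 - (if ∃ j' ≤ -n - 1, E j j' then 1 else 0) := by
        obtain ⟨i, hi⟩ := hE.ex j he
        by_cases h1 : i ≤ -n - 1
        · have p1 : ∃ j' ≤ -n - 1, E j j' := ⟨i, h1, hi⟩
          have p2 : ¬ ∃ j' ≤ n, E' (-j) j' := by
            rintro ⟨k, hk, hk'⟩
            have h2 : E j (-k) := by
              rw [← hEE, neg_neg]; exact hk'
            have := hE.uniq j i (-k) hi h2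
            omega
          rw [if_pos p1, if_neg p2]
          norm_num
        · have p1 : ¬ ∃ j' ≤ -n - 1, E j j' := by
            rintro ⟨k, hk, hk'⟩
            have := hE.uniq j i k hi hk'
            omega
          have p2 : ∃ j' ≤ n, E' (-j) j' := ⟨-i, by omega, (hEE _ _).2 hi⟩
          rw [if_neg p1, if_pos p2]
          norm_num
      rw [e1, e2]
      ring
    · rw [if_neg he, if_neg (by rwa [even_neg])]
      norm_num
  have h1 : net E' N n = ∑ j ∈ Finset.Icc (-n - N) (-n + N), term E' n (-j) := by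
    unfold net
    apply Finset.sum_equiv (Equiv.neg ℤ)
    · intro j
      simp only [Equiv.neg_apply, Finset.mem_Icc]
      constructor <;> intro h1 <;> omega
    · intro j _
      simp
  rw [h1]
  simp only [hterm]
  rw [Finset.sum_neg_distrib]
  congr 1
  -- enlarge both windows
  rw [← net_eq hE (n := -n - 1) (W := Finset.Icc (-n - 1 - N) (-n + N)) (by
      intro j hj; rw [Finset.mem_Icc] at hj ⊢; omega)]
  apply Finset.sum_subset
  · intro j hj; rw [Finset.mem_Icc] at hj ⊢; omega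
  · intro j hj hj'
    rw [Finset.mem_Icc] at hj hj'
    -- `j = -n - 1 - N`
    have hj1 : j = -n - 1 - N := by omega
    unfold term
    by_cases he : Even j
    · rw [if_pos he, if_pos (by omega), if_pos]
      · norm_num
      · obtain ⟨i, hi⟩ := hE.ex j he
        have := abs_le.1 (hE.near j i hi)
        exact ⟨i, by omega, hi⟩
    · rw [if_neg he]

end comb

/-! ### the matching seen on the unfolded line -/

section edge

variable {h : ℕ} {H0 H1 : Set Ang} {M : ℕ × Ang → ℕ × Ang}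

/-- the matching seen on the unfolded line through `t` -/
def Edge (h : ℕ) (H0 H1 : Set Ang) (M : ℕ × Ang → ℕ × Ang) (t : Ang) (j j' : ℤ) : Prop :=
  ∃ p, Pos h H0 H1 t j p ∧ Even p.1 ∧ Pos h H0 H1 t j' (M p)

theorem Edge.shift {t : Ang} {j j' : ℤ} :
    Edge h H0 H1 M t (j + 2 * h) (j' + 2 * h) ↔ Edge h H0 H1 M (t - one) j j' := by
  unfold Edge; simp only [Pos.shift]

theorem Edge.neg {t : Ang} {j j' : ℤ} :
    Edge h H0 H1 M (-t) (-j) (-j') ↔ Edge h H0 H1 M t j j' := by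
  unfold Edge; simp only [Pos.neg]

theorem Edge.toMT (hh : 1 ≤ h) (h0 : ∀ θ, Good θ → (θ ∈ H0 ↔ -θ ∉ H0))
    (h1 : ∀ θ, Good θ → (θ ∈ H1 ↔ one - θ ∉ H1))
    (hM : BijOn M {p | p ∈ FP h H0 H1 ∧ Even p.1} {p | p ∈ FP h H0 H1 ∧ Odd p.1})
    (B : ℕ)
    (hform : ∀ p, p ∈ FP h H0 H1 → Even p.1 →
      ∃ m : ℤ, |m| ≤ B ∧ ((M p).2 = p.2 + m • one ∨ (M p).2 = -p.2 + m • one))
    {t : Ang} (ht : Good t) : MT (Edge h H0 H1 M t) (2 * h * (B + 1)) where
  nn := by positivity
  ex := by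
    intro j hj
    obtain ⟨p, hp⟩ := Pos.ex hh h0 h1 ht j
    have he : Even p.1 := hp.parity.1 hj
    have hMp := hM.mapsTo (show p ∈ {p | p ∈ FP h H0 H1 ∧ Even p.1} from ⟨hp.1, he⟩)
    obtain ⟨m, hm, hf⟩ := hform p hp.1 he
    obtain ⟨j', hj', -⟩ := hp.near hMp.1 hm hf
    exact ⟨j', p, hp, he, hj'⟩
  uniq := by
    rintro j j' j'' ⟨p, a1, a2, a3⟩ ⟨p', b1, b2, b3⟩
    have := Pos.uniq hh h0 h1 a1 b1
    subst this
    exact Pos.inj ht a3 b3
  inj := by
    rintro j i j' ⟨p, a1, a2, a3⟩ ⟨p', b1, b2, b3⟩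
    have e := Pos.uniq hh h0 h1 a3 b3
    have := hM.injOn ⟨a1.1, a2⟩ ⟨b1.1, b2⟩ e
    subst this
    exact Pos.inj ht b1 a1
  par := by
    rintro j j' ⟨p, a1, a2, a3⟩
    refine ⟨a1.parity.2 a2, ?_⟩
    rw [a3.parity]
    have hMp := hM.mapsTo (show p ∈ {p | p ∈ FP h H0 H1 ∧ Even p.1} from ⟨a1.1, a2⟩)
    exact Nat.not_even_iff_odd.2 hMp.2
  sur := by
    intro j' hj'
    obtain ⟨p', hp'⟩ := Pos.ex hh h0 h1 ht j'
    have ho : Odd p'.1 := Nat.not_even_iff_odd.1 (fun he => hj' (hp'.parity.2 he))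
    obtain ⟨p, ⟨fp, he⟩, rfl⟩ := hM.surjOn ⟨hp'.1, ho⟩
    obtain ⟨m, hm, hf⟩ := hform p fp he
    have hrev : ∃ m' : ℤ, |m'| ≤ B ∧ (p.2 = (M p).2 + m' • one ∨ p.2 = -(M p).2 + m' • one) := by
      rcases hf with hf | hf
      · refine ⟨-m, by rwa [abs_neg], Or.inl ?_⟩
        rw [hf, neg_zsmul]; abel
      · refine ⟨m, hm, Or.inr ?_⟩
        rw [hf]; abel
    obtain ⟨m', hm', hf'⟩ := hrev
    obtain ⟨j, hj, -⟩ := hp'.near fp hm' hf'
    exact ⟨j, p, hj, he, hp'⟩
  near := by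
    rintro j j' ⟨p, a1, a2, a3⟩
    obtain ⟨m, hm, hf⟩ := hform p a1.1 a2
    obtain ⟨j'', hj'', hn⟩ := a1.near a3.1 hm hf
    have := Pos.inj ht hj'' a3
    subst this
    exact hn

theorem Edge.iff (hM : BijOn M {p | p ∈ FP h H0 H1 ∧ Even p.1} {p | p ∈ FP h H0 H1 ∧ Odd p.1})
    {t : Ang} {j j' : ℤ} : Edge h H0 H1 M t j j' ↔
    ∃ (k l : ℕ) (q q' : ℤ), Even k ∧ (
      (j = 2 * h * q + k ∧ j' = 2 * h * q' + l) ∧
        ((k, t - q • one) ∈ FP h H0 H1 ∧
          M (k, t - q • one) = (l, (t - q • one) + (q - q') • one)) ∨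
      (j = 2 * h * q + k ∧ j' = 2 * h * q' - l) ∧
        ((k, t - q • one) ∈ FP h H0 H1 ∧
          M (k, t - q • one) = (l, -(t - q • one) + (q' - q) • one)) ∨
      (j = 2 * h * q - k ∧ j' = 2 * h * q' + l) ∧
        ((k, -t + q • one) ∈ FP h H0 H1 ∧
          M (k, -t + q • one) = (l, -(-t + q • one) + (q - q') • one)) ∨
      (j = 2 * h * q - k ∧ j' = 2 * h * q' - l) ∧
        ((k, -t + q • one) ∈ FP h H0 H1 ∧
          M (k, -t + q • one) = (l, (-t + q • one) + (q' - q) • one))) := by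
  constructor
  · rintro ⟨⟨k, θ⟩, ⟨fp, q, hq⟩, he, ⟨fMp, q', hq'⟩⟩
    refine ⟨k, (M (k, θ)).1, q, q', he, ?_⟩
    rcases hq with ⟨a1, a2⟩ | ⟨a1, a2⟩
    · have a2' : θ = t - q • one := a2
      subst a2'
      rcases hq' with ⟨b1, b2⟩ | ⟨b1, b2⟩
      · left
        refine ⟨⟨a1, b1⟩, fp, Prod.ext rfl ?_⟩
        rw [b2]
        show t - q' • one = t - q • one + (q - q') • one
        rw [sub_zsmul]; abel
      · right; left
        refine ⟨⟨a1, b1⟩, fp, Prod.ext rfl ?_⟩
        rw [b2]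
        show -t + q' • one = -(t - q • one) + (q' - q) • one
        rw [sub_zsmul]; abel
    · have a2' : θ = -t + q • one := a2
      subst a2'
      rcases hq' with ⟨b1, b2⟩ | ⟨b1, b2⟩
      · right; right; left
        refine ⟨⟨a1, b1⟩, fp, Prod.ext rfl ?_⟩
        rw [b2]
        show t - q' • one = -(-t + q • one) + (q - q') • one
        rw [sub_zsmul]; abel
      · right; right; right
        refine ⟨⟨a1, b1⟩, fp, Prod.ext rfl ?_⟩
        rw [b2]
        show -t + q' • one = (-t + q • one) + (q' - q) • one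
        rw [sub_zsmul]; abel
  · rintro ⟨k, l, q, q', he, hc⟩
    rcases hc with ⟨⟨a1, b1⟩, fp, hm⟩ | ⟨⟨a1, b1⟩, fp, hm⟩ | ⟨⟨a1, b1⟩, fp, hm⟩ | ⟨⟨a1, b1⟩, fp, hm⟩
    · have hMp := hM.mapsTo (show (k, t - q • one) ∈ {p | p ∈ FP h H0 H1 ∧ Even p.1} from ⟨fp, he⟩)
      refine ⟨(k, t - q • one), ⟨fp, q, Or.inl ⟨a1, rfl⟩⟩, he, ⟨hMp.1, q', Or.inl ⟨?_, ?_⟩⟩⟩
      · rw [hm]; exact b1
      · rw [hm]
        show t - q • one + (q - q') • one = t - q' • one
        rw [sub_zsmul]; abel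
    · have hMp := hM.mapsTo (show (k, t - q • one) ∈ {p | p ∈ FP h H0 H1 ∧ Even p.1} from ⟨fp, he⟩)
      refine ⟨(k, t - q • one), ⟨fp, q, Or.inl ⟨a1, rfl⟩⟩, he, ⟨hMp.1, q', Or.inr ⟨?_, ?_⟩⟩⟩
      · rw [hm]; exact b1
      · rw [hm]
        show -(t - q • one) + (q' - q) • one = -t + q' • one
        rw [sub_zsmul]; abel
    · have hMp := hM.mapsTo (show (k, -t + q • one) ∈ {p | p ∈ FP h H0 H1 ∧ Even p.1} from ⟨fp, he⟩)
      refine ⟨(k, -t + q • one), ⟨fp, q, Or.inr ⟨a1, rfl⟩⟩, he, ⟨hMp.1, q', Or.inl ⟨?_, ?_⟩⟩⟩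
      · rw [hm]; exact b1
      · rw [hm]
        show -(-t + q • one) + (q - q') • one = t - q' • one
        rw [sub_zsmul]; abel
    · have hMp := hM.mapsTo (show (k, -t + q • one) ∈ {p | p ∈ FP h H0 H1 ∧ Even p.1} from ⟨fp, he⟩)
      refine ⟨(k, -t + q • one), ⟨fp, q, Or.inr ⟨a1, rfl⟩⟩, he, ⟨hMp.1, q', Or.inr ⟨?_, ?_⟩⟩⟩
      · rw [hm]; exact b1
      · rw [hm]
        show (-t + q • one) + (q' - q) • one = -t + q' • one
        rw [sub_zsmul]; abel

theorem null_const_and {C : Prop} {S : Set Ang} (hS : C → NullMeasurableSet S volume) :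
    NullMeasurableSet {t : Ang | C ∧ t ∈ S} volume := by
  by_cases hC : C
  · have e : {t : Ang | C ∧ t ∈ S} = S := by
      ext t
      exact ⟨fun h => h.2, fun h => ⟨hC, h⟩⟩
    rw [e]
    exact hS hC
  · have e : {t : Ang | C ∧ t ∈ S} = ∅ := by
      ext t
      exact ⟨fun h => absurd h.1 hC, fun h => absurd h id⟩
    rw [e]
    exact MeasurableSet.empty.nullMeasurableSet

theorem mp_sub (q : ℤ) : MeasurePreserving (fun t : Ang => t - q • one) volume volume :=
  measurePreserving_sub_right volume (q • one)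

theorem mp_neg : MeasurePreserving (fun t : Ang => -t) volume volume :=
  Measure.measurePreserving_neg volume

theorem mp_neg_add (q : ℤ) : MeasurePreserving (fun t : Ang => -t + q • one) volume volume :=
  (measurePreserving_add_right volume (q • one)).comp mp_neg

theorem Edge.null (hM : BijOn M {p | p ∈ FP h H0 H1 ∧ Even p.1} {p | p ∈ FP h H0 H1 ∧ Odd p.1})
    (hmeas : ∀ k l : ℕ, Even k → ∀ m : ℤ,
      NullMeasurableSet {θ : Ang | (k, θ) ∈ FP h H0 H1 ∧ M (k, θ) = (l, θ + m • one)} volume ∧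
      NullMeasurableSet {θ : Ang | (k, θ) ∈ FP h H0 H1 ∧ M (k, θ) = (l, -θ + m • one)} volume)
    (j j' : ℤ) : NullMeasurableSet {t : Ang | Edge h H0 H1 M t j j'} volume := by
  simp only [Edge.iff hM, ofPred_exists]
  refine NullMeasurableSet.iUnion fun k => NullMeasurableSet.iUnion fun l =>
    NullMeasurableSet.iUnion fun q => NullMeasurableSet.iUnion fun q' => ?_
  apply null_const_and (S := {t : Ang | _})
  intro he
  simp only [ofPred_or]
  refine NullMeasurableSet.union ?_ (NullMeasurableSet.union ?_ (NullMeasurableSet.union ?_ ?_))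
  · apply null_const_and (S := {t : Ang | _})
    intro _
    exact (hmeas k l he (q - q')).1.preimage (mp_sub q).quasiMeasurePreserving
  · apply null_const_and (S := {t : Ang | _})
    intro _
    exact (hmeas k l he (q' - q)).2.preimage (mp_sub q).quasiMeasurePreserving
  · apply null_const_and (S := {t : Ang | _})
    intro _
    exact (hmeas k l he (q - q')).2.preimage (mp_neg_add q).quasiMeasurePreserving
  · apply null_const_and (S := {t : Ang | _})
    intro _
    exact (hmeas k l he (q' - q)).1.preimage (mp_neg_add q).quasiMeasurePreserving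

theorem Edge.null_ex (hM : BijOn M {p | p ∈ FP h H0 H1 ∧ Even p.1} {p | p ∈ FP h H0 H1 ∧ Odd p.1})
    (hmeas : ∀ k l : ℕ, Even k → ∀ m : ℤ,
      NullMeasurableSet {θ : Ang | (k, θ) ∈ FP h H0 H1 ∧ M (k, θ) = (l, θ + m • one)} volume ∧
      NullMeasurableSet {θ : Ang | (k, θ) ∈ FP h H0 H1 ∧ M (k, θ) = (l, -θ + m • one)} volume)
    (j : ℤ) : NullMeasurableSet {t : Ang | ∃ j' ≤ (0 : ℤ), Edge h H0 H1 M t j j'} volume := by
  have e : {t : Ang | ∃ j' ≤ (0 : ℤ), Edge h H0 H1 M t j j'} =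
      ⋃ j' : ℤ, {t : Ang | j' ≤ 0 ∧ t ∈ {t : Ang | Edge h H0 H1 M t j j'}} := by
    ext t
    rw [Set.mem_iUnion]
    exact Iff.rfl
  rw [e]
  exact NullMeasurableSet.iUnion fun j' => null_const_and fun _ => Edge.null hM hmeas j j'

end edge

instance nullSingletonAng : NullSingletonClass (volume : Measure Ang) where
  measure_singleton x := by
    rw [← Metric.closedBall_zero, AddCircle.volume_closedBall]
    rw [mul_zero, min_eq_right (by positivity), ENNReal.ofReal_zero]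

theorem ae_good : ∀ᵐ t : Ang, Good t := by
  have hc : {t : Ang | ¬ Good t}.Countable := by
    have : {t : Ang | ¬ Good t} ⊆ Set.range
        (fun p : ℤ × ℤ => (((p.1 + p.2 * (2 * π)) / 2 : ℝ) : Ang)) := by
      intro t ht
      have ht' : ¬ Good t := ht
      unfold Good at ht'
      push Not at ht'
      obtain ⟨m, hm⟩ := ht'
      obtain ⟨a, rfl⟩ := QuotientAddGroup.mk_surjective t
      have h1 : ((a + a - m : ℝ) : Ang) = 0 := by
        have e : ((a + a - m : ℝ) : Ang) = (a : Ang) + (a : Ang) - m • one := by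
          unfold one
          rw [AddCircle.coe_sub, AddCircle.coe_add, ← AddCircle.coe_zsmul]
          congr 2
          rw [zsmul_eq_mul, mul_one]
        rw [e, sub_eq_zero]
        exact hm
      rw [AddCircle.coe_eq_zero_iff] at h1
      obtain ⟨n, hn⟩ := h1
      refine ⟨(m, n), ?_⟩
      show ((((m : ℝ) + (n : ℝ) * (2 * π)) / 2 : ℝ) : Ang) = (a : Ang)
      congr 1
      rw [zsmul_eq_mul] at hn
      linarith
    exact (Set.countable_range _).mono this
  exact hc.measure_zero volume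

theorem exists_F (h : ℕ) (hh : 1 ≤ h) (H0 H1 : Set Ang)
    (h0 : ∀ θ, Good θ → (θ ∈ H0 ↔ -θ ∉ H0)) (h1 : ∀ θ, Good θ → (θ ∈ H1 ↔ one - θ ∉ H1))
    (M : ℕ × Ang → ℕ × Ang)
    (hM : BijOn M {p | p ∈ FP h H0 H1 ∧ Even p.1} {p | p ∈ FP h H0 H1 ∧ Odd p.1})
    (B : ℕ)
    (hform : ∀ p, p ∈ FP h H0 H1 → Even p.1 →
      ∃ m : ℤ, |m| ≤ B ∧ ((M p).2 = p.2 + m • one ∨ (M p).2 = -p.2 + m • one))
    (hmeas : ∀ k l : ℕ, Even k → ∀ m : ℤ,
      NullMeasurableSet {θ : Ang | (k, θ) ∈ FP h H0 H1 ∧ M (k, θ) = (l, θ + m • one)} volume ∧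
      NullMeasurableSet {θ : Ang | (k, θ) ∈ FP h H0 H1 ∧ M (k, θ) = (l, -θ + m • one)} volume) :
    ∃ F : Ang → ℤ, (∀ t, Good t → F (t - one) = F t) ∧ (∀ t, Good t → F (-t) = 1 - F t) ∧
      AEMeasurable F volume := by
  have hMT : ∀ t, Good t → MT (Edge h H0 H1 M t) (2 * h * (B + 1)) := fun t ht =>
    Edge.toMT hh h0 h1 hM B hform ht
  refine ⟨fun t => net (Edge h H0 H1 M t) (2 * h * (B + 1)) 0, ?_, ?_, ?_⟩
  · intro t ht
    have e1 := net_shift (E := Edge h H0 H1 M t) (E' := Edge h H0 H1 M (t - one))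
      (N := 2 * h * (B + 1)) (s := 2 * h) (by rw [mul_comm]; exact Even.mul_left even_two _)
      (fun j j' => Edge.shift) 0
    have e2 := net_mul (hMT t ht) h
    have e3 : (0 : ℤ) + 2 * h = 2 * h := zero_add _
    rw [e3] at e1
    exact e1.trans e2
  · intro t ht
    have e1 := net_neg (E' := Edge h H0 H1 M (-t)) (hMT t ht) (fun j j' => Edge.neg) 0
    have e2 := net_step (hMT t ht) 0
    rw [if_pos (by decide : Even (0 : ℤ))] at e2
    have e3 : (-0 - 1 : ℤ) = 0 - 1 := by norm_num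
    rw [e3] at e1
    have aux : ∀ x y z : ℤ, x = -y → z - y = 1 → x = 1 - z := by
      intro x y z h1 h2
      omega
    exact aux _ _ _ e1 e2
  · have key : ∀ j : ℤ, AEMeasurable (fun t => term (Edge h H0 H1 M t) 0 j) volume := by
      intro j
      by_cases he : Even j
      · have hS := Edge.null_ex hM hmeas j
        have e : (fun t => term (Edge h H0 H1 M t) 0 j) = fun t => (if j ≤ 0 then (1 : ℤ) else 0) -
            ({t : Ang | ∃ j' ≤ (0 : ℤ), Edge h H0 H1 M t j j'}.indicator (fun _ => (1 : ℤ)) t) := by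
          funext t
          unfold term
          rw [if_pos he]
          congr 1
        rw [e]
        exact aemeasurable_const.sub (aemeasurable_const.indicator₀ hS)
      · have e : (fun t => term (Edge h H0 H1 M t) 0 j) = fun _ => (0 : ℤ) := by
          funext t
          unfold term
          rw [if_neg he]
        rw [e]
        exact aemeasurable_const
    unfold net
    exact Finset.aemeasurable_fun_sum _ fun j _ => key j

/-- There is no measurable perfect matching between the even and the odd levels along the folded lines. -/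
theorem no_measurable_matching (h : ℕ) (hh : 1 ≤ h) (H0 H1 : Set Ang)
    (mH0 : MeasurableSet H0) (mH1 : MeasurableSet H1)
    (h0 : ∀ θ, Good θ → (θ ∈ H0 ↔ -θ ∉ H0)) (h1 : ∀ θ, Good θ → (θ ∈ H1 ↔ one - θ ∉ H1))
    (M : ℕ × Ang → ℕ × Ang)
    (hM : BijOn M {p | p ∈ FP h H0 H1 ∧ Even p.1} {p | p ∈ FP h H0 H1 ∧ Odd p.1})
    (B : ℕ)
    (hform : ∀ p, p ∈ FP h H0 H1 → Even p.1 →
      ∃ m : ℤ, |m| ≤ B ∧ ((M p).2 = p.2 + m • one ∨ (M p).2 = -p.2 + m • one))
    (hmeas : ∀ k l : ℕ, Even k → ∀ m : ℤ,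
      NullMeasurableSet {θ : Ang | (k, θ) ∈ FP h H0 H1 ∧ M (k, θ) = (l, θ + m • one)} volume ∧
      NullMeasurableSet {θ : Ang | (k, θ) ∈ FP h H0 H1 ∧ M (k, θ) = (l, -θ + m • one)} volume) :
    False := by
  obtain ⟨F, hF1, hF2, hFm⟩ := exists_F h hh H0 H1 h0 h1 M hM B hform hmeas
  have herg : Ergodic (fun t : Ang => -one + t) volume := by
    rw [AddCircle.ergodic_add_left, addOrderOf_neg, addOrderOf_eq_zero_iff, isOfFinAddOrder_iff_zsmul_eq_zero]
    rintro ⟨n, hn, hn'⟩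
    exact hn (zsmul_one_inj hn')
  have hpt : ∀ t : Ang, Good t → F (-one + t) = F t := by
    intro t ht
    rw [neg_add_eq_sub]
    exact hF1 t ht
  have hinv : F ∘ (fun t : Ang => -one + t) =ᵐ[volume] F := ae_good.mono hpt
  obtain ⟨c, hc⟩ := herg.ae_eq_const_of_ae_eq_comp₀ hFm.nullMeasurable hinv
  have hc'' : ∀ᵐ t : Ang, F t = c := hc
  have hc' : ∀ᵐ t : Ang, F (-t) = c :=
    mp_neg.quasiMeasurePreserving.ae (p := fun x => F x = c) hc''
  have hall := (ae_good.and hc').and hc''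
  obtain ⟨t, ⟨ht, h2⟩, h3⟩ := hall.exists
  have h4 : c = 1 - c := h2.symm.trans ((hF2 t ht).trans (congrArg (fun z => 1 - z) h3))
  clear h2 h3 hall hc' hc'' hc hinv hpt hF1 hF2 herg
  omega

end
end Gardner

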