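import Pool.Agent.Helper183.Gar.Defs
import Pool.Agent.Helper183.Gar.Sets

set_option autoImplicit false
open MeasureTheory Set
open scoped Real ComplexConjugate

namespace Gardner
noncomputable section

namespace Par
variable (P : Par)

end Par


theorem rowA_zero' : rowA 0 = 0 := by simp [rowA]
theorem rowB_zero' : rowB 0 = 0 := by simp [rowB]

theorem ypos_last (n i : ℕ) : ypos n i (2 * i + n) = rowA n := by
  unfold ypos
  have h1 : min (2 * i + n - i) n = n := by omega
  rw [h1]
  split_ifs with h
  · have : i = 0 := by omega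
    subst this
    simp [rowB_zero']
  · simp [rowB_zero']

theorem ypos_cases (n i k : ℕ) (hk : k ≤ 2 * i + n) :
    (k ≤ i ∧ ypos n i k = rowB k) ∨ (∃ a, a ≤ n ∧ ypos n i k = rowA a + rowB i) ∨
    (∃ j, j ≤ i ∧ ypos n i k = rowA n + rowB j) := by
  by_cases h1 : k ≤ i
  · left
    refine ⟨h1, ?_⟩
    unfold ypos
    have e1 : k - i = 0 := by omega
    have e2 : k ≤ i + n := by omega
    have e3 : min k i = k := by omega
    rw [if_pos e2, e1, e3]
    simp [rowA_zero']
  · by_cases h2 : k ≤ i + n
    · right; left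
      refine ⟨k - i, by omega, ?_⟩
      unfold ypos
      have e1 : min (k - i) n = k - i := by omega
      have e3 : min k i = i := by omega
      rw [if_pos h2, e1, e3]
    · right; right
      refine ⟨2 * i + n - k, by omega, ?_⟩
      unfold ypos
      have e1 : min (k - i) n = n := by omega
      rw [if_neg h2, e1]

theorem kap_pos' : 0 < kap := by
  unfold kap
  apply div_pos
  · apply Real.cos_pos_of_mem_Ioo
    constructor
    · linarith [Real.pi_gt_three]
    · linarith [Real.pi_gt_three]
  · apply Real.sin_pos_of_pos_of_lt_pi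
    · norm_num
    · linarith [Real.pi_gt_three]

theorem kap_cos : (kap ^ 2 + 1) * Real.cos 1 = kap ^ 2 - 1 := by
  have hs : Real.sin (1/2) ≠ 0 := by
    apply ne_of_gt
    apply Real.sin_pos_of_pos_of_lt_pi
    · norm_num
    · linarith [Real.pi_gt_three]
  have h1 : Real.cos 1 = Real.cos (1/2) ^ 2 - Real.sin (1/2) ^ 2 := by
    have := Real.cos_two_mul' (1/2 : ℝ)
    rw [← this]; norm_num
  have h2 := Real.sin_sq_add_cos_sq (1/2 : ℝ)
  rw [h1]
  unfold kap
  field_simp
  linear_combination (Real.cos (1/2) ^ 2 - Real.sin (1/2) ^ 2) * h2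

theorem kap_sin : (kap ^ 2 + 1) * Real.sin 1 = 2 * kap := by
  have hs : Real.sin (1/2) ≠ 0 := by
    apply ne_of_gt
    apply Real.sin_pos_of_pos_of_lt_pi
    · norm_num
    · linarith [Real.pi_gt_three]
  have h1 : Real.sin 1 = 2 * Real.sin (1/2) * Real.cos (1/2) := by
    have := Real.sin_two_mul (1/2 : ℝ)
    rw [← this]; norm_num
  have h2 := Real.sin_sq_add_cos_sq (1/2 : ℝ)
  rw [h1]
  unfold kap
  field_simp
  linear_combination (Real.cos (1/2)) * h2

theorem re_lt_one' (δ : ℂ) (h : ‖δ‖ = 1) (hD : ∀ m : ℤ, δ ≠ Complex.exp (m * Complex.I)) :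
    δ.re < 1 := by
  have h0 := hD 0
  simp at h0
  have hs : δ.re * δ.re + δ.im * δ.im = 1 := by
    have := Complex.normSq_apply δ
    rw [← this, Complex.normSq_eq_norm_sq, h]; norm_num
  by_contra hc
  push Not at hc
  apply h0
  have him : δ.im = 0 := by nlinarith [sq_nonneg δ.im]
  have hre : δ.re = 1 := by rw [him] at hs; nlinarith
  apply Complex.ext <;> simp [him, hre]

theorem coef_ne (δ : ℂ) (h : ‖δ‖ = 1) (hD : ∀ m : ℤ, δ ≠ Complex.exp (m * Complex.I))
    (β : ℝ) (hβ : β = δ.im ∨ β = - δ.im) : kap * (δ.re - 1) + β ≠ 0 := by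
  intro hz
  have hlt := re_lt_one' δ h hD
  have hs : δ.re * δ.re + δ.im * δ.im = 1 := by
    have := Complex.normSq_apply δ
    rw [← this, Complex.normSq_eq_norm_sq, h]; norm_num
  have hβ2 : β * β = δ.im * δ.im := by
    rcases hβ with h | h <;> rw [h] <;> ring
  have hk := kap_pos'
  have e1 : kap ^ 2 * (1 - δ.re) = 1 + δ.re := by
    have : (1 - δ.re) * (kap ^ 2 * (1 - δ.re) - (1 + δ.re)) = 0 := by
      have hb : β = kap * (1 - δ.re) := by linarith
      rw [hb] at hβ2
      linear_combination hβ2 + hs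
    rcases mul_eq_zero.1 this with h | h
    · exfalso; linarith
    · linarith
  have hk2 : kap ^ 2 + 1 ≠ 0 := by positivity
  have hre : δ.re = Real.cos 1 := by
    have hc := kap_cos
    apply mul_left_cancel₀ hk2
    linarith
  have hb : β = Real.sin 1 := by
    have hc := kap_sin
    apply mul_left_cancel₀ hk2
    have : β = kap * (1 - δ.re) := by linarith
    rw [this]
    rw [hc]
    have : (kap ^ 2 + 1) * (1 - δ.re) = 2 := by linarith
    linear_combination kap * this
  rcases hβ with h' | h'
  · apply hD 1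
    apply Complex.ext
    · simp [Complex.exp_re, hre]
    · simp [Complex.exp_im]; rw [← hb, h']
  · apply hD (-1)
    apply Complex.ext
    · simp [Complex.exp_re, hre]
    · simp [Complex.exp_im]; rw [← hb, h']; simp

/-- real part equation -/
theorem real_part (c : Bool) (δ b : ℂ) (η y y' : ℝ)
    (h : δ * cj c ((kap * η : ℝ) + (y : ℝ) * Complex.I) + b = (kap * η : ℝ) + (y' : ℝ) * Complex.I) :
    kap * η * δ.re + y * (if c then δ.im else - δ.im) + b.re = kap * η := by
  have := congrArg Complex.re h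
  cases c
  · simp [cj] at this ⊢
    linarith
  · simp [cj] at this ⊢
    linarith

/-- Avoidance: for finitely many planar isometries whose linear part is not in the dihedral group generated
by `conj` and `exp(i) conj`, some configuration is not mapped into itself at any position. -/

theorem exists_path
    (row_inj : ∀ a b a' b' : ℕ, rowA a + rowB b = rowA a' + rowB b' → a = a' ∧ b = b')
    {ι : Type} [Finite ι] (c : ι → Bool) (δ b : ι → ℂ) (hδ : ∀ t, ‖δ t‖ = 1)
    (hD : ∀ (t : ι) (m : ℤ), δ t ≠ Complex.exp (m * Complex.I)) :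
    ∃ n i : ℕ, 2 ≤ n ∧ ∀ (t : ι) (k l : ℕ), k ≤ 2 * i + n → l ≤ 2 * i + n →
      δ t * cj (c t) (xpos n i k) + b t ≠ xpos n i l := by
  classical
  haveI := Fintype.ofFinite ι
  set K := Fintype.card ι with hK
  have hA : ∀ a a' : ℕ, rowA a = rowA a' → a = a' := by
    intro a a' h
    exact (row_inj a 0 a' 0 (by rw [h])).1
  set β : ι → ℝ := fun t => if c t then (δ t).im else - (δ t).im with hβ
  have hβ' : ∀ t, β t = (δ t).im ∨ β t = - (δ t).im := by
    intro t
    simp only [hβ]
    split_ifs <;> simp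
  have hk := kap_pos'
  have hlt : ∀ t, (δ t).re < 1 := fun t => re_lt_one' _ (hδ t) (hD t)
  have bad1 : ∀ (t : ι) (j : ℕ), {n : ℕ | kap * rowA n * (δ t).re + rowB j * β t + (b t).re
      = kap * rowA n}.Finite := by
    intro t j
    apply Set.Subsingleton.finite
    intro n hn m hm
    simp only [Set.mem_ofPred_eq] at hn hm
    apply hA
    have h1 : (kap * ((δ t).re - 1)) * (rowA n - rowA m) = 0 := by linear_combination hn - hm
    rcases mul_eq_zero.1 h1 with h | h
    · exfalso
      have := hlt t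
      have : kap * ((δ t).re - 1) < 0 := by nlinarith
      linarith
    · linarith
  have bad2 : ∀ (t : ι) (j : ℕ), {n : ℕ | kap * rowA n * (δ t).re + (rowA n + rowB j) * β t + (b t).re
      = kap * rowA n}.Finite := by
    intro t j
    apply Set.Subsingleton.finite
    intro n hn m hm
    simp only [Set.mem_ofPred_eq] at hn hm
    apply hA
    have h1 : (kap * ((δ t).re - 1) + β t) * (rowA n - rowA m) = 0 := by
      linear_combination hn - hm
    rcases mul_eq_zero.1 h1 with h | h
    · exact absurd h (coef_ne _ (hδ t) (hD t) _ (hβ' t))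
    · linarith
  have hfin : (⋃ t : ι, ⋃ j : Fin (K + 1),
      ({n : ℕ | kap * rowA n * (δ t).re + rowB j * β t + (b t).re = kap * rowA n} ∪
       {n : ℕ | kap * rowA n * (δ t).re + (rowA n + rowB j) * β t + (b t).re
      = kap * rowA n})).Finite := by
    apply Set.finite_iUnion
    intro t
    apply Set.finite_iUnion
    intro j
    exact (bad1 t j).union (bad2 t j)
  obtain ⟨n, hn, hn2⟩ : ∃ n : ℕ, n ∉ (⋃ t : ι, ⋃ j : Fin (K + 1),
      ({n : ℕ | kap * rowA n * (δ t).re + rowB j * β t + (b t).re = kap * rowA n} ∪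
       {n : ℕ | kap * rowA n * (δ t).re + (rowA n + rowB j) * β t + (b t).re
      = kap * rowA n})) ∧ 2 ≤ n := by
    obtain ⟨n, hn⟩ := (hfin.union (Set.finite_Iio 2)).exists_notMem
    refine ⟨n, fun h => hn (Or.inl h), ?_⟩
    by_contra h
    exact hn (Or.inr (by simpa using h))
  have hn1 : ∀ (t : ι) (j : ℕ), j ≤ K → kap * rowA n * (δ t).re + rowB j * β t + (b t).re
      ≠ kap * rowA n := by
    intro t j hj h
    apply hn
    simp only [Set.mem_iUnion]
    exact ⟨t, ⟨j, by omega⟩, Or.inl h⟩
  have hn3 : ∀ (t : ι) (j : ℕ), j ≤ K → kap * rowA n * (δ t).re + (rowA n + rowB j) * β t + (b t).re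
      ≠ kap * rowA n := by
    intro t j hj h
    apply hn
    simp only [Set.mem_iUnion]
    exact ⟨t, ⟨j, by omega⟩, Or.inr h⟩
  -- pigeonhole
  obtain ⟨i, hiK, hi⟩ : ∃ i : ℕ, i ≤ K ∧ ∀ (t : ι) (a : ℕ), a ≤ n →
      kap * rowA n * (δ t).re + (rowA a + rowB i) * β t + (b t).re ≠ kap * rowA n := by
    by_contra hcon
    push Not at hcon
    have hcon' : ∀ i : Fin (K + 1), ∃ (t : ι) (a : ℕ), a ≤ n ∧
      kap * rowA n * (δ t).re + (rowA a + rowB i) * β t + (b t).re = kap * rowA n := by
      intro i
      exact hcon i (by omega)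
    choose f a ha hf using hcon'
    obtain ⟨i, j, hij, hfij⟩ := Fintype.exists_ne_map_eq_of_card_lt f (by simp [hK])
    have e1 := hf i
    have e2 := hf j
    rw [← hfij] at e2
    by_cases hb0 : β (f i) = 0
    · apply hn1 (f i) 0 (by omega)
      rw [hb0] at e1 ⊢
      linarith
    · have h1 : ((rowA (a i) + rowB i) - (rowA (a j) + rowB j)) * β (f i) = 0 := by
        linear_combination e1 - e2
      rcases mul_eq_zero.1 h1 with h | h
      · have := (row_inj (a i) i (a j) j (by linarith)).2
        exact hij (Fin.ext this)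
      · exact hb0 h
  refine ⟨n, i, hn2, ?_⟩
  intro t k l hk' hl' heq
  unfold xpos at heq
  rw [ypos_last] at heq
  have hr := real_part (c t) (δ t) (b t) (rowA n) (ypos n i k) (ypos n i l) heq
  have hr' : kap * rowA n * (δ t).re + ypos n i k * β t + (b t).re = kap * rowA n := hr
  rcases ypos_cases n i k hk' with ⟨hki, hy⟩ | ⟨a, ha, hy⟩ | ⟨j, hj, hy⟩
  · rw [hy] at hr'
    exact hn1 t k (by omega) hr'
  · rw [hy] at hr'
    exact hi t a ha hr'
  · rw [hy] at hr'
    exact hn3 t j (by omega) hr'

end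
end Gardner

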