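import Pool.Agent.Helper183.Gar.Sets
set_option autoImplicit false
open MeasureTheory Set
open scoped Real ComplexConjugate

namespace Gardner
noncomputable section

/-- from a bijection realized by finitely many maps to a decomposition -/
theorem pieces {A B : Set E} (N : ℕ) (g : Fin N → E ≃ᵢ E) (M : E → E) (hM : BijOn M A B)
    (hg : ∀ p ∈ A, ∃ i, M p = g i p) :
    ∃ Pc : Fin N → Set E, (⋃ i, Pc i) = A ∧ Pairwise (fun i j => Disjoint (Pc i) (Pc j)) ∧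
      (⋃ i, (⇑(g i)) '' (Pc i)) = B ∧
      Pairwise (fun i j => Disjoint ((⇑(g i)) '' (Pc i)) ((⇑(g j)) '' (Pc j))) := by
  classical
  have hg' : ∀ p : A, ∃ i, M p = g i p := fun p => hg p p.2
  choose f hf using hg'
  refine ⟨fun i => {p | ∃ hp : p ∈ A, f ⟨p, hp⟩ = i}, ?_, ?_, ?_, ?_⟩
  · ext p
    simp only [mem_iUnion]
    constructor
    · rintro ⟨i, hp, _⟩; exact hp
    · intro hp; exact ⟨f ⟨p, hp⟩, hp, rfl⟩
  · intro i j hij
    rw [Set.disjoint_left]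
    rintro p ⟨_, h1⟩ ⟨_, h2⟩
    exact hij (h1.symm.trans h2)
  · ext q
    simp only [mem_iUnion, mem_image]
    constructor
    · rintro ⟨i, p, ⟨hp, rfl⟩, rfl⟩
      rw [← hf ⟨p, hp⟩]; exact hM.mapsTo hp
    · intro hq
      obtain ⟨p, hp, rfl⟩ := hM.surjOn hq
      exact ⟨f ⟨p, hp⟩, p, ⟨hp, rfl⟩, (hf ⟨p, hp⟩).symm⟩
  · intro i j hij
    rw [Set.disjoint_left]
    rintro q ⟨p, ⟨hp, rfl⟩, rfl⟩ ⟨p', ⟨hp', rfl⟩, h⟩
    rw [← hf ⟨p, hp⟩, ← hf ⟨p', hp'⟩] at h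
    have := hM.injOn hp' hp h
    subst this
    exact hij rfl

end
end Gardner
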