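import Pool.Agent.Helper183.Gar.Defs

set_option autoImplicit false
open Set
open scoped Real ComplexConjugate
namespace Gardner
noncomputable section

theorem mk0 (x : ℂ) (z : ℝ) : mk x z 0 = x.re := rfl
theorem mk1 (x : ℂ) (z : ℝ) : mk x z 1 = x.im := rfl
theorem mk2 (x : ℂ) (z : ℝ) : mk x z 2 = z := rfl

theorem E_ext {p q : E} (h0 : p 0 = q 0) (h1 : p 1 = q 1) (h2 : p 2 = q 2) : p = q := by
  ext i
  fin_cases i
  · exact h0
  · exact h1
  · exact h2

theorem mk_add (x y : ℂ) (s t : ℝ) : mk (x + y) (s + t) = mk x s + mk y t := by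
  apply E_ext
  · show (x + y).re = x.re + y.re
    rw [Complex.add_re]
  · show (x + y).im = x.im + y.im
    rw [Complex.add_im]
  · rfl

theorem mk_smul (c : ℝ) (x : ℂ) (s : ℝ) : mk (c * x) (c * s) = c • mk x s := by
  apply E_ext
  · show (c * x).re = c * x.re
    simp
  · show (c * x).im = c * x.im
    simp
  · rfl

theorem norm_mk (x : ℂ) (z : ℝ) : ‖mk x z‖ ^ 2 = x.re ^ 2 + x.im ^ 2 + z ^ 2 := by
  rw [EuclideanSpace.norm_eq, Real.sq_sqrt (by positivity), Fin.sum_univ_three]
  simp only [Real.norm_eq_abs, sq_abs, mk0, mk1, mk2]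

theorem inner_e3 (p : E) : inner ℝ (mk 0 1) p = p 2 := by
  rw [PiLp.inner_apply, Fin.sum_univ_three]
  simp only [mk0, mk1, mk2]
  simp

/-- the linear part -/
theorem exists_linear (g : E ≃ᵢ E) : ∃ L : E ≃ₗᵢ[ℝ] E, ∀ p v : E, g (p + v) = g p + L v := by
  refine ⟨g.toRealAffineIsometryEquiv.linearIsometryEquiv, fun p v => ?_⟩
  have := g.toRealAffineIsometryEquiv.map_vadd p v
  simp only [vadd_eq_add, IsometryEquiv.coeFn_toRealAffineIsometryEquiv] at this
  rw [add_comm p v, this, add_comm]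

/-- vertical lines go to unit speed lines -/
theorem line_of_isometry (g : E ≃ᵢ E) (x : ℂ) :
    ∃ u v : E, ‖u‖ = 1 ∧ ∀ t : ℝ, g (mk x t) = v + t • u := by
  obtain ⟨L, hL⟩ := exists_linear g
  refine ⟨L (mk 0 1), g (mk x 0), ?_, ?_⟩
  · rw [L.norm_map]
    have h := norm_mk 0 1
    simp only [Complex.zero_re, Complex.zero_im] at h
    have h2 : ‖mk 0 1‖ ^ 2 = 1 := by rw [h]; norm_num
    rcases mul_self_eq_one_iff.mp ((sq ‖mk 0 1‖).symm.trans h2) with h3 | h3
    · exact h3
    · exfalso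
      have := norm_nonneg (mk 0 1)
      linarith
  · intro t
    have h : mk x t = mk x 0 + t • mk 0 1 := by
      rw [← mk_smul, ← mk_add]
      simp
    rw [h, hL, map_smul]

/-- an isometry that maps two points of a vertical line to points of a vertical line with the same
heights is a planar isometry times the identity -/
theorem rigid (g : E ≃ᵢ E) (x x' : ℂ) (z₁ z₂ : ℝ) (hz : z₁ ≠ z₂)
    (h1 : g (mk x z₁) = mk x' z₁) (h2 : g (mk x z₂) = mk x' z₂) :
    ∃ δ b : ℂ, ‖δ‖ = 1 ∧
      ((∀ y z, g (mk y z) = mk (δ * y + b) z) ∨ (∀ y z, g (mk y z) = mk (δ * conj y + b) z)) := by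
  obtain ⟨L, hL⟩ := exists_linear g
  have he : L (mk 0 1) = mk 0 1 := by
    have h3 : mk x z₂ = mk x z₁ + (z₂ - z₁) • mk 0 1 := by
      rw [← mk_smul, ← mk_add]
      simp
    have h4 : mk x' z₂ = mk x' z₁ + (z₂ - z₁) • mk 0 1 := by
      rw [← mk_smul, ← mk_add]
      simp
    have h5 := hL (mk x z₁) ((z₂ - z₁) • mk 0 1)
    rw [← h3, h2, h1, map_smul, h4] at h5
    have h6 := add_left_cancel h5
    have h7 : z₂ - z₁ ≠ 0 := sub_ne_zero.mpr (Ne.symm hz)
    exact (smul_right_injective E h7 h6).symm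
  have hthird : ∀ v : E, (L v) 2 = v 2 := by
    intro v
    rw [← inner_e3, ← inner_e3 v]
    conv_lhs => rw [← he]
    exact L.inner_map_map _ _
  have hM : ∀ w : ℂ, L (mk w 0) = mk ⟨(L (mk w 0)) 0, (L (mk w 0)) 1⟩ 0 := by
    intro w
    apply E_ext
    · rw [mk0]
    · rw [mk1]
    · rw [mk2, hthird, mk2]
  let M : ℂ →ₗᵢ[ℝ] ℂ :=
    { toFun := fun w => ⟨(L (mk w 0)) 0, (L (mk w 0)) 1⟩
      map_add' := by
        intro w w'
        have h : L (mk (w + w') 0) = L (mk w 0) + L (mk w' 0) := by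
          rw [← map_add, ← mk_add, add_zero]
        rw [h]
        rfl
      map_smul' := by
        intro c w
        have h : L (mk (c • w) 0) = c • L (mk w 0) := by
          rw [← map_smul, ← mk_smul, mul_zero]
          rfl
        rw [h]
        apply Complex.ext
        · show c * _ = (c • (⟨_, _⟩ : ℂ)).re
          rw [Complex.smul_re]
          rfl
        · show c * _ = (c • (⟨_, _⟩ : ℂ)).im
          rw [Complex.smul_im]
          rfl
      norm_map' := by
        intro w
        show ‖(⟨(L (mk w 0)) 0, (L (mk w 0)) 1⟩ : ℂ)‖ = ‖w‖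
        have h := L.norm_map (mk w 0)
        rw [hM w] at h
        have h' := norm_mk ⟨(L (mk w 0)) 0, (L (mk w 0)) 1⟩ 0
        rw [h, norm_mk w 0] at h'
        rw [← sq_eq_sq₀ (norm_nonneg _) (norm_nonneg _), Complex.sq_norm, Complex.sq_norm,
          Complex.normSq_apply, Complex.normSq_apply]
        simp only at h' ⊢
        nlinarith [h'] }
  have hMdef : ∀ w, L (mk w 0) = mk (M w) 0 := hM
  have hg : ∀ y z, g (mk y z) = mk (x' + M (y - x)) z := by
    intro y z
    have h3 : mk y z = mk x z₁ + (mk (y - x) 0 + (z - z₁) • mk 0 1) := by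
      rw [← mk_smul, ← mk_add, ← mk_add]
      congr 1
      · simp
      · simp
    rw [h3, hL, h1, map_add, map_smul, he, hMdef, ← mk_smul, ← mk_add, ← mk_add]
    congr 1
    · simp
    · simp
  let M' : ℂ ≃ₗᵢ[ℝ] ℂ := M.toLinearIsometryEquiv rfl
  obtain ⟨a, ha⟩ := linear_isometry_complex M'
  have hM' : ∀ w, M w = M' w := fun w => rfl
  rcases ha with ha | ha
  · refine ⟨a, x' - a * x, Circle.norm_coe a, Or.inl ?_⟩
    intro y z
    rw [hg, hM', ha, rotation_apply]
    congr 1
    ring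
  · refine ⟨a, x' - a * conj x, Circle.norm_coe a, Or.inr ?_⟩
    intro y z
    rw [hg, hM', ha]
    congr 1
    show x' + rotation a (Complex.conjLIE (y - x)) = _
    rw [rotation_apply, Complex.conjLIE_apply, map_sub]
    ring

end
end Gardner

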