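import Pool.Agent.Helper183.Gar.Defs

set_option autoImplicit false
open MeasureTheory Set
open scoped Real
namespace Gardner
noncomputable section

/-- `(z, x) ↦ mk x z` is measure preserving. -/
lemma sl_measurePreserving_mk : MeasurePreserving (fun p : ℝ × ℂ => mk p.2 p.1) volume volume := by
  have h1 : MeasurePreserving (Prod.map id Complex.measurableEquivPi : ℝ × ℂ → ℝ × (Fin 2 → ℝ))
      volume volume := (MeasurePreserving.id _).prod Complex.volume_preserving_equiv_pi
  have h2 := (volume_preserving_piFinSuccAbove (fun _ : Fin 3 => ℝ) 2).symm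
  have h3 := PiLp.volume_preserving_toLp (Fin 3)
  have h4 := h3.comp (h2.comp h1)
  have hfun : (fun p : ℝ × ℂ => mk p.2 p.1) = WithLp.toLp 2 ∘
      (MeasurableEquiv.piFinSuccAbove (fun _ : Fin 3 => ℝ) 2).symm ∘
        Prod.map id Complex.measurableEquivPi := by
    funext p
    obtain ⟨z, x⟩ := p
    simp only [mk, Function.comp]
    congr 1
    funext i
    fin_cases i
    · rfl
    · rfl
    · rfl
  rw [hfun]
  exact h4

lemma sl_continuous_mk : Continuous (fun p : ℝ × ℂ => mk p.2 p.1) := by
  unfold mk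
  apply (PiLp.continuous_toLp 2 _).comp
  apply continuous_pi
  intro i
  fin_cases i
  · exact Complex.continuous_re.comp continuous_snd
  · exact Complex.continuous_im.comp continuous_snd
  · exact continuous_fst

lemma sl_null_polar {M : Set ℂ} (hM : MeasurableSet M) (h0 : volume M = 0) :
    volume {p : ℝ × ℝ | p ∈ Ioi (0:ℝ) ×ˢ Ioo (-π) π ∧
      ((p.1 : ℂ) * Complex.exp (p.2 * Complex.I)) ∈ M} = 0 := by
  have h1 := Complex.lintegral_comp_polarCoord_symm (M.indicator (fun _ => (1 : ENNReal)))
  rw [lintegral_indicator hM, setLIntegral_const, h0, mul_zero] at h1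
  have hmeas : Measurable (fun p : ℝ × ℝ => Complex.polarCoord.symm p) := by
    have : (fun p : ℝ × ℝ => Complex.polarCoord.symm p) =
        fun p : ℝ × ℝ => (p.1 : ℂ) * (Real.cos p.2 + Real.sin p.2 * Complex.I) := by
      funext p
      exact Complex.polarCoord_symm_apply p
    rw [this]
    apply Continuous.measurable
    fun_prop
  rw [lintegral_eq_zero_iff] at h1
  · rw [Filter.EventuallyEq, ae_restrict_iff' polarCoord.open_target.measurableSet] at h1
    rw [← compl_mem_ae_iff]
    filter_upwards [h1] with p hp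
    rintro ⟨hp1, hp2⟩
    have hp3 := hp hp1
    have hp0 : 0 < p.1 := hp1.1
    have e1 : Complex.polarCoord.symm p = (p.1 : ℂ) * Complex.exp (p.2 * Complex.I) := by
      rw [Complex.polarCoord_symm_apply, Complex.exp_mul_I, Complex.ofReal_cos, Complex.ofReal_sin]
    rw [e1, indicator_of_mem hp2] at hp3
    simp at hp3
    linarith
  · have m1 : Measurable (fun p : ℝ × ℝ => ENNReal.ofReal p.1) := (measurable_fst).ennreal_ofReal
    have m2 : Measurable (fun p : ℝ × ℝ =>
        M.indicator (fun _ => (1 : ENNReal)) (Complex.polarCoord.symm p)) :=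
      (measurable_const.indicator hM).comp hmeas
    exact m1.smul m2

/-- almost every circular slice of a null-measurable set is null-measurable (polar coordinates around the
vertical axis through `c`, then Fubini) -/
theorem ae_slice (S : Set E) (hS : NullMeasurableSet S volume) (c : ℂ) :
    ∀ᵐ q : ℝ × ℝ ∂(volume : Measure (ℝ × ℝ)), 0 < q.2 →
      NullMeasurableSet {θ : Ang | mk (c + (q.2 : ℂ) * e θ) q.1 ∈ S} volume := by
  obtain ⟨S', -, hS'm, hS'⟩ := hS.exists_measurable_superset_ae_eq
  set N : Set E := toMeasurable volume {x | ¬ (S' x = S x)} with hN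
  have hNm : MeasurableSet N := measurableSet_toMeasurable _ _
  have hN0 : volume N = 0 := by
    rw [hN, measure_toMeasurable]
    exact hS'
  have hNsub : ∀ x, x ∉ N → (x ∈ S' ↔ x ∈ S) := by
    intro x hx
    by_contra hcon
    apply hx
    apply subset_toMeasurable
    intro heq
    apply hcon
    change S' x ↔ S x
    rw [heq]
  have hcont3 : Continuous (fun p : ℝ × ℝ × ℝ => mk (c + (p.2.1 : ℂ) *
      Complex.exp (p.2.2 * Complex.I)) p.1) := by
    have : Continuous (fun p : ℝ × ℝ × ℝ => ((p.1, c + (p.2.1 : ℂ) *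
      Complex.exp (p.2.2 * Complex.I)) : ℝ × ℂ)) := by fun_prop
    exact sl_continuous_mk.comp this
  set B : Set (ℝ × ℝ × ℝ) := {p | p.2 ∈ Ioi (0:ℝ) ×ˢ Ioo (-π) π ∧
    mk (c + (p.2.1 : ℂ) * Complex.exp (p.2.2 * Complex.I)) p.1 ∈ N} with hB
  have hBm : MeasurableSet B := by
    apply MeasurableSet.inter
    · exact measurable_snd (measurableSet_Ioi.prod measurableSet_Ioo)
    · exact hcont3.measurable hNm
  have hB0 : volume B = 0 := by
    rw [Measure.volume_eq_prod]
    apply Measure.measure_prod_null_of_ae_null hBm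
    have h1 : (volume : Measure (ℝ × ℂ)) ((fun p : ℝ × ℂ => mk p.2 p.1) ⁻¹' N) = 0 := by
      rw [sl_measurePreserving_mk.measure_preimage hNm.nullMeasurableSet, hN0]
    rw [Measure.volume_eq_prod] at h1
    have h2 := Measure.measure_ae_null_of_prod_null h1
    filter_upwards [h2] with z hz
    set M : Set ℂ := {x | mk (c + x) z ∈ N} with hM
    have hMm : MeasurableSet M := by
      have hc : Continuous (fun x : ℂ => mk (c + x) z) := by
        have : Continuous (fun x : ℂ => ((z, c + x) : ℝ × ℂ)) := by fun_prop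
        exact sl_continuous_mk.comp this
      exact hc.measurable hNm
    have hM0 : volume M = 0 := by
      have : M = (fun x => c + x) ⁻¹' (Prod.mk z ⁻¹' ((fun p : ℝ × ℂ => mk p.2 p.1) ⁻¹' N)) := rfl
      rw [this, measure_preimage_add]
      exact hz
    exact sl_null_polar hMm hM0
  have hB1 : (volume : Measure ((ℝ × ℝ) × ℝ)) (MeasurableEquiv.prodAssoc ⁻¹' B) = 0 := by
    have := (measurePreserving_prodAssoc (volume : Measure ℝ) (volume : Measure ℝ)
      (volume : Measure ℝ)).measure_preimage hBm.nullMeasurableSet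
    rw [Measure.volume_eq_prod, Measure.volume_eq_prod, this]
    exact hB0
  rw [Measure.volume_eq_prod] at hB1
  have hB2 := Measure.measure_ae_null_of_prod_null hB1
  filter_upwards [hB2] with q hq hq0
  -- the slice of S'
  have hcs : Continuous (fun θ : Ang => mk (c + (q.2 : ℂ) * e θ) q.1) := by
    have : Continuous (fun θ : Ang => ((q.1, c + (q.2 : ℂ) * e θ) : ℝ × ℂ)) := by
      have : Continuous e := continuous_subtype_val.comp AddCircle.continuous_toCircle
      fun_prop
    exact sl_continuous_mk.comp this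
  have hm1 : MeasurableSet {θ : Ang | mk (c + (q.2 : ℂ) * e θ) q.1 ∈ S'} := hcs.measurable hS'm
  have hm2 : MeasurableSet {θ : Ang | mk (c + (q.2 : ℂ) * e θ) q.1 ∈ N} := hcs.measurable hNm
  have hnull : volume {θ : Ang | mk (c + (q.2 : ℂ) * e θ) q.1 ∈ N} = 0 := by
    rw [← (AddCircle.measurePreserving_mk (2 * π) (-π)).measure_preimage hm2.nullMeasurableSet]
    rw [Measure.restrict_apply ((AddCircle.measurePreserving_mk (2 * π) (-π)).measurable hm2)]
    have hsub : ((↑) : ℝ → Ang) ⁻¹' {θ : Ang | mk (c + (q.2 : ℂ) * e θ) q.1 ∈ N} ∩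
        Ioc (-π) (-π + 2 * π) ⊆ (Prod.mk q ⁻¹' (MeasurableEquiv.prodAssoc ⁻¹' B)) ∪ {π} := by
      rintro t ⟨ht1, ht2⟩
      by_cases htπ : t = π
      · right; exact htπ
      · left
        have ht3 : t ∈ Ioo (-π) π := by
          refine ⟨ht2.1, lt_of_le_of_ne ?_ htπ⟩
          have := ht2.2
          linarith
        refine ⟨⟨hq0, ht3⟩, ?_⟩
        have ht4 : mk (c + (q.2 : ℂ) * e (t : Ang)) q.1 ∈ N := ht1
        have e1 : e (t : Ang) = Complex.exp (t * Complex.I) := by
          unfold e
          rw [AddCircle.toCircle_apply_mk, Circle.coe_exp]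
          congr 2
          have : (2 * π / (2 * π)) = 1 := div_self (by positivity)
          rw [this, one_mul]
        rw [e1] at ht4
        exact ht4
    refine measure_mono_null hsub ?_
    rw [measure_union_null_iff]
    exact ⟨hq, by simp⟩
  refine (hm1.nullMeasurableSet).congr ?_
  have h3 : ∀ᵐ θ : Ang, θ ∉ {θ : Ang | mk (c + (q.2 : ℂ) * e θ) q.1 ∈ N} := by
    rw [← measure_eq_zero_iff_ae_notMem]
    exact hnull
  filter_upwards [h3] with θ hθ
  exact propext (hNsub _ hθ)

end
end Gardner

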