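import Pool.Agent.Helper183.Gar.Defs

set_option autoImplicit false
open MeasureTheory Set
namespace Gardner
noncomputable section

/-- the periodic wall -/
def wall (p g : ℝ) : Set ℝ := {t | ∃ m : ℤ, |t - m * p| ≤ g}

lemma wall_eq (p g : ℝ) : wall p g = ⋃ m : ℤ, Icc (m * p - g) (m * p + g) := by
  ext t
  simp only [wall, Set.mem_ofPred_eq, mem_iUnion, mem_Icc, abs_le]
  constructor
  · rintro ⟨m, h1, h2⟩; exact ⟨m, by linarith, by linarith⟩
  · rintro ⟨m, h1, h2⟩; exact ⟨m, by linarith, by linarith⟩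

lemma wall_meas (p g : ℝ) : MeasurableSet (wall p g) := by
  rw [wall_eq]
  exact MeasurableSet.iUnion (fun m => measurableSet_Icc)

lemma wall_density (p g a b : ℝ) (hp : 0 < p) (hg : 0 < g) (hgp : g ≤ p / 4) (hab : p ≤ b - a) :
    volume (wall p g ∩ Icc a b) ≤ ENNReal.ofReal (6 * g / p * (b - a)) := by
  have hsub : wall p g ∩ Icc a b ⊆
      ⋃ m ∈ Finset.Icc ⌈(a - g) / p⌉ ⌊(b + g) / p⌋, Icc ((m : ℝ) * p - g) (m * p + g) := by
    rintro t ⟨⟨m, hm⟩, ht1, ht2⟩
    rw [abs_le] at hm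
    simp only [mem_iUnion, exists_prop, Finset.mem_Icc]
    refine ⟨m, ⟨?_, ?_⟩, ?_, ?_⟩
    · rw [Int.ceil_le, div_le_iff₀ hp]; linarith
    · rw [Int.le_floor, le_div_iff₀ hp]; linarith
    · linarith
    · linarith
  have hcard : ((Finset.Icc ⌈(a - g) / p⌉ ⌊(b + g) / p⌋).card : ℝ) ≤ 3 * (b - a) / p := by
    rw [Int.card_Icc]
    have h1 : ((⌊(b + g) / p⌋ + 1 - ⌈(a - g) / p⌉).toNat : ℝ) ≤ max (((⌊(b + g) / p⌋ + 1 - ⌈(a - g) / p⌉ : ℤ) : ℝ)) 0 := by
      have : (((⌊(b + g) / p⌋ + 1 - ⌈(a - g) / p⌉).toNat : ℤ) : ℝ) = ((max (⌊(b + g) / p⌋ + 1 - ⌈(a - g) / p⌉) 0 : ℤ) : ℝ) := by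
        rw [Int.toNat_eq_max]
      rw [show (((⌊(b + g) / p⌋ + 1 - ⌈(a - g) / p⌉).toNat : ℕ) : ℝ) = (((⌊(b + g) / p⌋ + 1 - ⌈(a - g) / p⌉).toNat : ℤ) : ℝ) by norm_cast, this]
      rw [Int.cast_max]; simp
    refine h1.trans (max_le ?_ (by apply div_nonneg _ hp.le; linarith))
    push_cast
    have h2 : (⌊(b + g) / p⌋ : ℝ) ≤ (b + g) / p := Int.floor_le _
    have h3 : (a - g) / p ≤ (⌈(a - g) / p⌉ : ℝ) := Int.le_ceil _
    have h4 : (b + g) / p + 1 - (a - g) / p ≤ 3 * (b - a) / p := by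
      rw [div_add' _ _ _ hp.ne', div_sub_div_same, div_le_div_iff_of_pos_right hp]
      linarith
    linarith
  calc volume (wall p g ∩ Icc a b) ≤ volume (⋃ m ∈ Finset.Icc ⌈(a - g) / p⌉ ⌊(b + g) / p⌋, Icc ((m : ℝ) * p - g) (m * p + g)) := measure_mono hsub
    _ ≤ ∑ m ∈ Finset.Icc ⌈(a - g) / p⌉ ⌊(b + g) / p⌋, volume (Icc ((m : ℝ) * p - g) (m * p + g)) :=
        measure_biUnion_finset_le _ _
    _ = ∑ m ∈ Finset.Icc ⌈(a - g) / p⌉ ⌊(b + g) / p⌋, ENNReal.ofReal (2 * g) := by
        apply Finset.sum_congr rfl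
        intro m _
        rw [Real.volume_Icc]; congr 1; ring
    _ = ENNReal.ofReal (((Finset.Icc ⌈(a - g) / p⌉ ⌊(b + g) / p⌋).card : ℝ) * (2 * g)) := by
        rw [Finset.sum_const, nsmul_eq_mul, ENNReal.ofReal_mul (p := ((Finset.Icc ⌈(a - g) / p⌉ ⌊(b + g) / p⌋).card : ℝ)) (Nat.cast_nonneg _), ENNReal.ofReal_natCast]
    _ ≤ ENNReal.ofReal (6 * g / p * (b - a)) := by
        apply ENNReal.ofReal_le_ofReal
        calc ((Finset.Icc ⌈(a - g) / p⌉ ⌊(b + g) / p⌋).card : ℝ) * (2 * g)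
            ≤ (3 * (b - a) / p) * (2 * g) := by gcongr
          _ = 6 * g / p * (b - a) := by ring

lemma osc (p a b : ℝ) (hp : 0 < p) (f : ℝ → ℝ) (hf : Continuous f)
    (h : ∀ t ∈ Icc a b, ∀ m : ℤ, f t ≠ m * p) (t t' : ℝ) (ht : t ∈ Icc a b) (ht' : t' ∈ Icc a b) :
    f t - f t' < p := by
  by_contra hcon
  push Not at hcon
  -- m = floor (f t / p)
  set m : ℤ := ⌊f t / p⌋ with hm
  have h1 : (m : ℝ) * p ≤ f t := by
    have := Int.floor_le (f t / p)
    rwa [le_div_iff₀ hp] at this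
  have h2 : f t < (m + 1 : ℝ) * p := by
    have := Int.lt_floor_add_one (f t / p)
    rwa [div_lt_iff₀ hp] at this
  have h3 : f t' ≤ m * p := by nlinarith
  have hI : (m : ℝ) * p ∈ f '' Set.uIcc t' t := by
    apply intermediate_value_uIcc hf.continuousOn
    rw [Set.mem_uIcc]
    left; exact ⟨h3, h1⟩
  obtain ⟨x, hx, hfx⟩ := hI
  have hx' : x ∈ Icc a b := by
    have : Set.uIcc t' t ⊆ Icc a b := by
      rw [← Set.uIcc_of_le (ht.1.trans ht.2)]
      apply Set.uIcc_subset_uIcc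
      · rw [Set.uIcc_of_le (ht.1.trans ht.2)]; exact ht'
      · rw [Set.uIcc_of_le (ht.1.trans ht.2)]; exact ht
    exact this hx
  exact h x hx' m hfx

lemma cx_lip (p q : E) : ‖cx p - cx q‖ ≤ dist p q := by
  have := dist_sq p q
  apply le_of_sq_le_sq _ dist_nonneg
  nlinarith [sq_nonneg (zc p - zc q)]

lemma zc_lip (p q : E) : |zc p - zc q| ≤ dist p q := by
  have := dist_sq p q
  apply abs_le_of_sq_le_sq _ dist_nonneg
  nlinarith [sq_nonneg ‖cx p - cx q‖]

lemma sqdiff (R R' p : ℝ) (hp : 0 < p) (n1 : 0 ≤ R) (n2 : 0 ≤ R') (h1 : R < 2) (h2 : R' < 2) (h : R - R' < p) :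
    R ^ 2 - R' ^ 2 ≤ 4 * p := by
  have : (R - R') * (R + R') ≤ p * 4 := by
    rcases le_or_gt 0 (R - R') with h' | h'
    · apply mul_le_mul h.le (by linarith) (by linarith) hp.le
    · nlinarith
  nlinarith

lemma arith (R1 R2 R3 Z1 Z3 c p D : ℝ) (hp : 0 < p) (hp1 : p ≤ 1) (hpD : p ≤ D ^ 2 / 20)
    (n1 : 0 ≤ R1) (n2 : 0 ≤ R2) (n3 : 0 ≤ R3) (r1 : R1 < 2) (r2 : R2 < 2) (r3 : R3 < 2)
    (hr12 : R1 - R2 < p) (hr32 : R3 - R2 < p) (hz12 : Z1 - c < p) (hz21 : c - Z1 < p)
    (hz32 : Z3 - c < p) (hz23 : c - Z3 < p)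
    (hsum : (R1 ^ 2 + (Z1 - c) ^ 2) - 2 * (R2 ^ 2 + (c - c) ^ 2) + (R3 ^ 2 + (Z3 - c) ^ 2) = D ^ 2 / 2) :
    False := by
  have e1 := sqdiff R1 R2 p hp n1 n2 r1 r2 hr12
  have e3 := sqdiff R3 R2 p hp n3 n2 r3 r2 hr32
  have e4 : (Z1 - c) ^ 2 < p ^ 2 := by
    apply sq_lt_sq' <;> linarith
  have e5 : (Z3 - c) ^ 2 < p ^ 2 := by
    apply sq_lt_sq' <;> linarith
  have e6 : (c - c) ^ 2 = 0 := by simp
  have e7 : p ^ 2 ≤ p := by nlinarith
  rw [e6] at hsum
  linarith

lemma claim (D p a : ℝ) (hD : 0 < D) (hp : 0 < p) (hp1 : p ≤ 1) (hpD : p ≤ D ^ 2 / 20) (q : ℝ → E)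
    (ξ : ℂ) (hq : ∃ u v : E, ‖u‖ = 1 ∧ ∀ t, q t = v + t • u) :
    ∃ t ∈ Icc a (a + D), (∃ m : ℤ, zc (q t) = m * p) ∨ (∃ m : ℤ, ‖cx (q t) - ξ‖ = m * p) ∨
      2 ≤ ‖cx (q t) - ξ‖ := by
  by_contra hcon
  push Not at hcon
  obtain ⟨u, v, hu, hq⟩ := hq
  have hqc : Continuous q := by
    have : q = fun t => v + t • u := funext hq
    rw [this]; fun_prop
  have hzcont : Continuous (fun t => zc (q t)) := by
    rw [Metric.continuous_iff]
    intro b ε hε
    obtain ⟨δ, hδ, h⟩ := Metric.continuous_iff.1 hqc b ε hε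
    refine ⟨δ, hδ, fun x hx => ?_⟩
    rw [Real.dist_eq]
    exact (zc_lip _ _).trans_lt (h x hx)
  have hrcont : Continuous (fun t => ‖cx (q t) - ξ‖) := by
    have : Continuous (fun t => cx (q t)) := by
      rw [Metric.continuous_iff]
      intro b ε hε
      obtain ⟨δ, hδ, h⟩ := Metric.continuous_iff.1 hqc b ε hε
      refine ⟨δ, hδ, fun x hx => ?_⟩
      rw [dist_eq_norm]
      exact (cx_lip _ _).trans_lt (h x hx)
    fun_prop
  have hz := osc p a (a + D) hp _ hzcont (fun t ht m => (hcon t ht).1 m)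
  have hr := osc p a (a + D) hp _ hrcont (fun t ht m => (hcon t ht).2.1 m)
  have m1 : a ∈ Icc a (a + D) := ⟨le_refl _, by linarith⟩
  have m2 : a + D / 2 ∈ Icc a (a + D) := ⟨by linarith, by linarith⟩
  have m3 : a + D ∈ Icc a (a + D) := ⟨by linarith, le_refl _⟩
  set c := zc (q (a + D / 2)) with hc
  set w : E := mk ξ c with hw
  have hF : ∀ t, ‖cx (q t) - ξ‖ ^ 2 + (zc (q t) - c) ^ 2 =
      ‖v - w‖ ^ 2 + 2 * t * inner ℝ (v - w) u + t ^ 2 := by
    intro t
    have h1 := dist_sq (q t) w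
    rw [hw, cx_mk, zc_mk, ← hw] at h1
    rw [← h1, dist_eq_norm, hq t]
    have h2 : v + t • u - w = (v - w) + t • u := by abel
    rw [h2, norm_add_sq_real, inner_smul_right, norm_smul, hu, Real.norm_eq_abs, mul_one, sq_abs]
    ring
  have F1 := hF a
  have F2 := hF (a + D / 2)
  have F3 := hF (a + D)
  have hsum : (‖cx (q a) - ξ‖ ^ 2 + (zc (q a) - c) ^ 2) -
      2 * (‖cx (q (a + D / 2)) - ξ‖ ^ 2 + (zc (q (a + D / 2)) - c) ^ 2) +
      (‖cx (q (a + D)) - ξ‖ ^ 2 + (zc (q (a + D)) - c) ^ 2) = D ^ 2 / 2 := by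
    rw [F1, F2, F3]; ring
  have r1 := (hcon a m1).2.2
  have r2 := (hcon _ m2).2.2
  have r3 := (hcon _ m3).2.2
  have hr12 := hr a (a + D / 2) m1 m2
  have hr32 := hr (a + D) (a + D / 2) m3 m2
  have hz12 := hz a (a + D / 2) m1 m2
  have hz21 := hz (a + D / 2) a m2 m1
  have hz32 := hz (a + D) (a + D / 2) m3 m2
  have hz23 := hz (a + D / 2) (a + D) m2 m3
  have n1 := norm_nonneg (cx (q a) - ξ)
  have n2 := norm_nonneg (cx (q (a + D / 2)) - ξ)
  have n3 := norm_nonneg (cx (q (a + D)) - ξ)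
  rw [← hc] at hsum hz12 hz21 hz32 hz23
  exact arith _ _ _ _ _ _ _ _ hp hp1 hpD n1 n2 n3 r1 r2 r3 hr12 hr32 hz12 hz21 hz32 hz23 hsum

/-- Walls: for all N, η, ε, s there are a measurable set `W` of density at most `ε` in every interval
of length at least `s`, and `δ > 0`, such that in every interval `[a, a+η]` and for every `N` unit speed
lines `q i` in space and centres `ξ i` there is a point `z` well inside `[a, a+η]`, well inside `W`, such that near `q i z`
the height is in `W` or the distance from the vertical axis through `ξ i` is in `W` or at least one. -/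
theorem exists_walls (N : ℕ) (η ε s : ℝ) (hη : 0 < η) (hε : 0 < ε) (hs : 0 < s) :
    ∃ (W : Set ℝ) (δ : ℝ), MeasurableSet W ∧ 0 < δ ∧
      (∀ a b : ℝ, s ≤ b - a → volume (W ∩ Icc a b) ≤ ENNReal.ofReal (ε * (b - a))) ∧
      (∀ (a : ℝ) (q : Fin N → ℝ → E) (ξ : Fin N → ℂ),
        (∀ i, ∃ u v : E, ‖u‖ = 1 ∧ ∀ t, q i t = v + t • u) →
        ∃ z : ℝ, a + δ ≤ z ∧ z + δ ≤ a + η ∧ Icc (z - δ) (z + δ) ⊆ W ∧
          ∀ i, ∀ t ∈ Icc (z - δ) (z + δ), ∀ p : E, dist p (q i t) ≤ δ →
            zc p ∈ W ∨ ‖cx p - ξ i‖ ∈ W ∨ 1 ≤ ‖cx p - ξ i‖) := by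
  induction N generalizing η ε s with
  | zero =>
    set p := min (η / 2) s with hp
    have hp0 : 0 < p := lt_min (by linarith) hs
    have hpη : p ≤ η / 2 := min_le_left _ _
    have hps : p ≤ s := min_le_right _ _
    set g := min (ε / 6) (1 / 4) * p with hg
    have hc0 : 0 < min (ε / 6) (1 / 4) := lt_min (by linarith) (by norm_num)
    have hc1 : min (ε / 6) (1 / 4) ≤ ε / 6 := min_le_left _ _
    have hc2 : min (ε / 6) (1 / 4) ≤ 1 / 4 := min_le_right _ _
    have hg0 : 0 < g := by positivity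
    have hgp : g ≤ p / 4 := by rw [hg]; nlinarith
    refine ⟨wall p g, g, wall_meas _ _, hg0, ?_, ?_⟩
    · intro a b hab
      refine (wall_density p g a b hp0 hg0 hgp (hps.trans hab)).trans ?_
      apply ENNReal.ofReal_le_ofReal
      apply mul_le_mul_of_nonneg_right _ (by linarith)
      rw [hg, ← mul_assoc, mul_div_assoc, div_self hp0.ne', mul_one]
      linarith
    · intro a q ξ _
      set m : ℤ := ⌈(a + p / 2) / p⌉ with hm
      have h1 : a + p / 2 ≤ m * p := by
        have := Int.le_ceil ((a + p / 2) / p)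
        rwa [div_le_iff₀ hp0] at this
      have h2 : m * p < a + p / 2 + p := by
        have := Int.ceil_lt_add_one ((a + p / 2) / p)
        rw [← hm] at this
        have h3 : (m : ℝ) * p < ((a + p / 2) / p + 1) * p := by
          apply mul_lt_mul_of_pos_right this hp0
        rwa [add_mul, div_mul_cancel₀ _ hp0.ne', one_mul] at h3
      refine ⟨m * p, by linarith, by linarith, ?_, fun i => i.elim0⟩
      intro t ht
      refine ⟨m, ?_⟩
      rw [abs_le]; constructor
      · linarith [ht.1]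
      · linarith [ht.2]
  | succ N ih =>
    set D := min η 1 with hD
    have hD0 : 0 < D := lt_min hη one_pos
    have hDη : D ≤ η := min_le_left _ _
    have hD1 : D ≤ 1 := min_le_right _ _
    set p := min (D ^ 2 / 20) s with hp
    have hp0 : 0 < p := lt_min (by positivity) hs
    have hpD : p ≤ D ^ 2 / 20 := min_le_left _ _
    have hps : p ≤ s := min_le_right _ _
    have hpD' : p ≤ D / 20 := by nlinarith
    have hp1 : p ≤ 1 := by linarith
    set g := min (ε / 12) (1 / 4) * p with hg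
    have hc0 : 0 < min (ε / 12) (1 / 4) := lt_min (by linarith) (by norm_num)
    have hc1 : min (ε / 12) (1 / 4) ≤ ε / 12 := min_le_left _ _
    have hc2 : min (ε / 12) (1 / 4) ≤ 1 / 4 := min_le_right _ _
    have hg0 : 0 < g := by positivity
    have hgp : g ≤ p / 4 := by rw [hg]; nlinarith
    obtain ⟨W', δ', hW', hδ', hdens, hmain⟩ := ih (g / 2) (ε / 2) s (by positivity) (by positivity) hs
    refine ⟨wall p g ∪ W', min δ' (g / 4), (wall_meas _ _).union hW', lt_min hδ' (by positivity), ?_, ?_⟩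
    · intro a b hab
      rw [Set.union_inter_distrib_right]
      refine (measure_union_le _ _).trans ?_
      have h1 := wall_density p g a b hp0 hg0 hgp (hps.trans hab)
      have h2 := hdens a b hab
      have h3 : ENNReal.ofReal (ε * (b - a)) = ENNReal.ofReal (ε / 2 * (b - a)) + ENNReal.ofReal (ε / 2 * (b - a)) := by
        rw [← ENNReal.ofReal_add]
        · congr 1; ring
        · have : 0 ≤ b - a := by linarith
          positivity
        · have : 0 ≤ b - a := by linarith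
          positivity
      rw [h3]
      refine add_le_add (h1.trans ?_) h2
      apply ENNReal.ofReal_le_ofReal
      apply mul_le_mul_of_nonneg_right _ (by linarith)
      rw [hg, ← mul_assoc, mul_div_assoc, div_self hp0.ne', mul_one]
      linarith
    · intro a q ξ hq
      obtain ⟨t0, ht0, hcl⟩ := claim D p a hD0 hp0 hp1 hpD (q 0) (ξ 0) (hq 0)
      have hga : g / 2 ≤ D / 2 := by linarith
      obtain ⟨a', ha1, ha2, ha3, ha4⟩ : ∃ a' : ℝ, a ≤ a' ∧ a' + g / 2 ≤ a + D ∧ a' ≤ t0 ∧ t0 ≤ a' + g / 2 := by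
        rcases le_or_gt t0 (a + D / 2) with h | h
        · exact ⟨t0, ht0.1, by linarith, le_refl _, by linarith⟩
        · exact ⟨t0 - g / 2, by linarith, by linarith [ht0.2], by linarith, by linarith⟩
      obtain ⟨z, hz1, hz2, hz3, hz4⟩ := hmain a' (fun i => q i.succ) (fun i => ξ i.succ) (fun i => hq i.succ)
      have hδ1 : min δ' (g / 4) ≤ δ' := min_le_left _ _
      have hδ2 : min δ' (g / 4) ≤ g / 4 := min_le_right _ _
      have hIcc : Icc (z - min δ' (g / 4)) (z + min δ' (g / 4)) ⊆ Icc (z - δ') (z + δ') := by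
        apply Icc_subset_Icc <;> linarith
      refine ⟨z, by linarith, by linarith, ?_, ?_⟩
      · exact fun t ht => Or.inr (hz3 (hIcc ht))
      · intro i
        refine Fin.cases ?_ (fun j => ?_) i
        · intro t ht P hP
          obtain ⟨u, v, hu, hqt⟩ := hq 0
          have hd : dist (q 0 t) (q 0 t0) = |t - t0| := by
            rw [hqt, hqt, dist_eq_norm]
            have : v + t • u - (v + t0 • u) = (t - t0) • u := by
              rw [sub_smul]; abel
            rw [this, norm_smul, hu, mul_one, Real.norm_eq_abs]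
          have ht' := hIcc ht
          have hd2 : |t - t0| ≤ g / 2 := by
            rw [abs_le]; constructor
            · linarith [ht'.1]
            · linarith [ht'.2]
          have hd3 : dist P (q 0 t0) ≤ g := by
            have := dist_triangle P (q 0 t) (q 0 t0)
            rw [hd] at this
            linarith
          rcases hcl with ⟨m, hm⟩ | ⟨m, hm⟩ | h2
          · left; left
            refine ⟨m, ?_⟩
            rw [← hm]
            exact (zc_lip _ _).trans hd3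
          · right; left; left
            refine ⟨m, ?_⟩
            rw [← hm]
            have h1 := abs_norm_sub_norm_le (cx P - ξ 0) (cx (q 0 t0) - ξ 0)
            rw [sub_sub_sub_cancel_right] at h1
            exact h1.trans ((cx_lip _ _).trans hd3)
          · right; right
            have h1 := abs_norm_sub_norm_le (cx P - ξ 0) (cx (q 0 t0) - ξ 0)
            rw [sub_sub_sub_cancel_right] at h1
            have h3 := h1.trans ((cx_lip _ _).trans hd3)
            rw [abs_le] at h3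
            linarith [h3.1]
        · intro t ht P hP
          rcases hz4 j t (hIcc ht) P (hP.trans hδ1) with h | h | h
          · left; right; exact h
          · right; left; right; exact h
          · right; right; exact h

end
end Gardner

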